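import Pool.Agent.Lib.MP_abb0cc_co.Base

/-!
# MP_abb0cc_co: the finite union theorem, from Hindman's theorem in Mathlib
-/

set_option autoImplicit false
set_option linter.unusedSectionVars false

namespace Pool.SubSum

/-- finite sets of naturals with the partial operation disjoint union -/
structure DU where
  val : Option (Finset ℕ)

namespace DU

open Classical in
/-- disjoint union, `none` if undefined -/
noncomputable def mulAux : Option (Finset ℕ) → Option (Finset ℕ) → Option (Finset ℕ)
  | some A, some B => if Disjoint A B then some (A ∪ B) else none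
  | _, _ => none

theorem mulAux_some {A B : Finset ℕ} (h : Disjoint A B) :
    mulAux (some A) (some B) = some (A ∪ B) := by simp [mulAux, h]

theorem mulAux_some_not {A B : Finset ℕ} (h : ¬ Disjoint A B) :
    mulAux (some A) (some B) = none := by simp [mulAux, h]

theorem mulAux_none_left (a : Option (Finset ℕ)) : mulAux none a = none := by
  cases a <;> rfl

theorem mulAux_none_right (a : Option (Finset ℕ)) : mulAux a none = none := by
  cases a <;> rfl

theorem mulAux_comm (a b : Option (Finset ℕ)) : mulAux a b = mulAux b a := by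
  cases a with
  | none => rw [mulAux_none_left, mulAux_none_right]
  | some A =>
    cases b with
    | none => rw [mulAux_none_left, mulAux_none_right]
    | some B =>
      by_cases h : Disjoint A B
      · rw [mulAux_some h, mulAux_some h.symm, Finset.union_comm]
      · rw [mulAux_some_not h, mulAux_some_not (fun h' => h h'.symm)]

theorem mulAux_assoc (a b c : Option (Finset ℕ)) :
    mulAux (mulAux a b) c = mulAux a (mulAux b c) := by
  cases a with
  | none => rw [mulAux_none_left, mulAux_none_left, mulAux_none_left]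
  | some A =>
    cases b with
    | none => rw [mulAux_none_left, mulAux_none_right, mulAux_none_left]
    | some B =>
      cases c with
      | none => rw [mulAux_none_right, mulAux_none_right, mulAux_none_right]
      | some D =>
        by_cases hAB : Disjoint A B
        · rw [mulAux_some hAB]
          by_cases hBD : Disjoint B D
          · rw [mulAux_some hBD]
            by_cases hAD : Disjoint A D
            · rw [mulAux_some (Finset.disjoint_union_left.2 ⟨hAD, hBD⟩),
                mulAux_some (Finset.disjoint_union_right.2 ⟨hAB, hAD⟩), Finset.union_assoc]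
            · rw [mulAux_some_not (fun h => hAD (Finset.disjoint_union_left.1 h).1),
                mulAux_some_not (fun h => hAD (Finset.disjoint_union_right.1 h).2)]
          · rw [mulAux_some_not hBD, mulAux_none_right,
              mulAux_some_not (fun h => hBD (Finset.disjoint_union_left.1 h).2)]
        · rw [mulAux_some_not hAB, mulAux_none_left]
          by_cases hBD : Disjoint B D
          · rw [mulAux_some hBD,
              mulAux_some_not (fun h => hAB (Finset.disjoint_union_right.1 h).1)]
          · rw [mulAux_some_not hBD, mulAux_none_right]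

noncomputable instance : CommMonoid DU where
  mul a b := ⟨mulAux a.val b.val⟩
  mul_assoc a b c := by
    show DU.mk _ = DU.mk _
    exact congrArg DU.mk (mulAux_assoc _ _ _)
  mul_comm a b := by
    show DU.mk _ = DU.mk _
    exact congrArg DU.mk (mulAux_comm _ _)
  one := ⟨some ∅⟩
  one_mul a := by
    obtain ⟨a⟩ := a
    show DU.mk _ = DU.mk _
    refine congrArg DU.mk ?_
    cases a with
    | none => rfl
    | some A =>
      show mulAux (some ∅) (some A) = some A
      rw [mulAux_some (Finset.disjoint_empty_left A), Finset.empty_union]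
  mul_one a := by
    obtain ⟨a⟩ := a
    show DU.mk _ = DU.mk _
    refine congrArg DU.mk ?_
    cases a with
    | none => rfl
    | some A =>
      show mulAux (some A) (some ∅) = some A
      rw [mulAux_some (Finset.disjoint_empty_right A), Finset.union_empty]

theorem mk_mul (A B : Finset ℕ) (h : Disjoint A B) :
    (⟨some A⟩ : DU) * ⟨some B⟩ = ⟨some (A ∪ B)⟩ := by
  show DU.mk (mulAux (some A) (some B)) = _
  rw [mulAux_some h]

theorem disjoint_of_mul {A B D : Finset ℕ} (h : (⟨some A⟩ : DU) * ⟨some B⟩ = ⟨some D⟩) :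
    Disjoint A B := by
  by_contra hn
  have h' : DU.mk (mulAux (some A) (some B)) = ⟨some D⟩ := h
  rw [mulAux_some_not hn] at h'
  cases h'

theorem prod_mk (β : ℕ → Finset ℕ) (h : ∀ i j, i ≠ j → Disjoint (β i) (β j)) (s : Finset ℕ) :
    ∏ i ∈ s, (⟨some (β i)⟩ : DU) = ⟨some (un β s)⟩ := by
  classical
  induction s using Finset.induction_on with
  | empty => rfl
  | insert i s hi ih =>
    rw [Finset.prod_insert hi, ih, mk_mul, un_insert]
    unfold un
    rw [Finset.disjoint_biUnion_right]
    intro j hj
    exact h i j (fun he => hi (he ▸ hj))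

end DU

/-- the FP set of the stream of singletons -/
theorem FP_singletons (k : ℕ) (m : DU)
    (hm : m ∈ Hindman.FP (fun i => (⟨some {k + i}⟩ : DU) : Stream' DU)) :
    ∃ A : Finset ℕ, m = ⟨some A⟩ ∧ A.Nonempty ∧ ∀ x ∈ A, k ≤ x := by
  generalize hs : ((fun i => (⟨some {k + i}⟩ : DU)) : Stream' DU) = s at hm
  induction hm generalizing k with
  | head' a =>
    subst hs
    refine ⟨{k}, ?_, Finset.singleton_nonempty _, ?_⟩
    · rfl
    · intro x hx
      rw [Finset.mem_singleton] at hx
      omega
  | tail' a m _ ih =>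
    subst hs
    obtain ⟨A, hA, hne, hx⟩ := ih (k + 1) (by
      funext i
      show (⟨some {k + 1 + i}⟩ : DU) = ⟨some {k + (i + 1)}⟩
      rw [show k + 1 + i = k + (i + 1) by ring])
    exact ⟨A, hA, hne, fun x h => by have := hx x h; omega⟩
  | cons' a m _ ih =>
    subst hs
    obtain ⟨A, rfl, hne, hx⟩ := ih (k + 1) (by
      funext i
      show (⟨some {k + 1 + i}⟩ : DU) = ⟨some {k + (i + 1)}⟩
      rw [show k + 1 + i = k + (i + 1) by ring])
    refine ⟨{k} ∪ A, ?_, ?_, ?_⟩
    · show (⟨some {k}⟩ : DU) * ⟨some A⟩ = _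
      rw [DU.mk_mul]
      rw [Finset.disjoint_singleton_left]
      intro h
      have := hx k h
      omega
    · exact ⟨k, by simp⟩
    · intro x h
      rw [Finset.mem_union, Finset.mem_singleton] at h
      rcases h with rfl | h
      · exact le_rfl
      · have := hx x h
        omega

/-- the infinite union theorem (Hindman) -/
theorem fu_inf (κ : Type) [Finite κ] (f : Finset ℕ → κ) :
    ∃ β : ℕ → Finset ℕ, Blocks β ∧ ∃ a, ∀ s : Finset ℕ, s.Nonempty → f (un β s) = a := by
  classical
  set S : κ → Set DU := fun c => {m | ∃ A : Finset ℕ, m = ⟨some A⟩ ∧ A.Nonempty ∧ f A = c} with hS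
  obtain ⟨C, hC, b, hb⟩ := Hindman.FP_partition_regular
    (fun i => (⟨some {0 + i}⟩ : DU) : Stream' DU) (Set.range S) (Set.finite_range S) (by
      intro m hm
      obtain ⟨A, rfl, hne, _⟩ := FP_singletons 0 m hm
      exact ⟨S (f A), ⟨f A, rfl⟩, A, rfl, hne, rfl⟩)
  obtain ⟨a, rfl⟩ := hC
  have h1 : ∀ i, ∃ A : Finset ℕ, b.get i = ⟨some A⟩ ∧ A.Nonempty ∧ f A = a := by
    intro i
    exact hb (Hindman.FP.singleton b i)
  choose β hβ hne hfa using h1
  have hdis : ∀ i j, i < j → Disjoint (β i) (β j) := by
    intro i j hij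
    have h2 := hb (Hindman.FP.mul_two b i j hij)
    rw [hβ i, hβ j] at h2
    obtain ⟨D, hD, _⟩ := h2
    exact DU.disjoint_of_mul hD
  have hdis' : ∀ i j, i ≠ j → Disjoint (β i) (β j) := by
    intro i j hij
    rcases lt_or_gt_of_ne hij with h | h
    · exact hdis i j h
    · exact (hdis j i h).symm
  refine ⟨β, ⟨hne, hdis'⟩, a, ?_⟩
  intro s hs
  have h3 := hb (Hindman.FP.finsetProd b s hs)
  simp only [hβ] at h3
  rw [DU.prod_mk β hdis'] at h3
  obtain ⟨A, hA, _, hfA⟩ := h3
  have : un β s = A := by
    injection hA with h4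
    injection h4
  rw [this]
  exact hfA

/-- Finite union theorem (Folkman), finite form. -/
theorem fu (κ : Type) [Finite κ] (M : ℕ) :
    ∃ K : ℕ, ∀ f : Finset (Fin K) → κ, ∃ β : Fin M → Finset (Fin K), Blocks β ∧
      ∃ a, ∀ s : Finset (Fin M), s.Nonempty → f (un β s) = a := by
  classical
  by_contra hcon
  push Not at hcon
  choose g hg using hcon
  -- restriction to `Fin K`
  set R : (K : ℕ) → Finset ℕ → Finset (Fin K) :=
    fun K A => Finset.univ.filter (fun x : Fin K => (x : ℕ) ∈ A) with hR
  set U : Ultrafilter ℕ := Filter.hyperfilter ℕ with hU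
  have hlim : ∀ A : Finset ℕ, ∃ a : κ, ∀ᶠ K in (U : Filter ℕ), g K (R K A) = a := by
    intro A
    obtain ⟨a, ha⟩ := Ultrafilter.eq_pure_of_finite (U.map (fun K => g K (R K A)))
    refine ⟨a, ?_⟩
    have h1 : {a} ∈ U.map (fun K => g K (R K A)) := by
      rw [ha]
      exact Ultrafilter.mem_pure.2 rfl
    rw [Ultrafilter.mem_map] at h1
    exact h1
  choose f hf using hlim
  obtain ⟨β, hβ, a, ha⟩ := fu_inf κ f
  -- finitely many conditions
  have hev : ∀ᶠ K in (U : Filter ℕ), ∀ s ∈ (Finset.univ : Finset (Finset (Fin M))),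
      g K (R K (un β (s.map Fin.valEmbedding))) = f (un β (s.map Fin.valEmbedding)) := by
    rw [Filter.eventually_all_finset]
    intro s _
    exact hf _
  obtain ⟨K0, hK0⟩ : ∃ K0 : ℕ, ∀ i : Fin M, ∀ x ∈ β i, x < K0 := by
    refine ⟨(un β ((Finset.univ : Finset (Fin M)).map Fin.valEmbedding)).sup id + 1, ?_⟩
    intro i x hx
    have : x ∈ un β ((Finset.univ : Finset (Fin M)).map Fin.valEmbedding) :=
      mem_un.2 ⟨i, by simp, hx⟩
    exact Nat.lt_succ_of_le (Finset.le_sup (f := id) this)
  have hlarge : ∀ᶠ K in (U : Filter ℕ), K0 ≤ K := by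
    have : {K : ℕ | K0 ≤ K} ∈ Filter.hyperfilter ℕ := by
      apply Filter.mem_hyperfilter_of_finite_compl
      apply (Set.finite_lt_nat K0).subset
      intro x hx
      simpa using hx
    exact this
  obtain ⟨K, hK1, hK2⟩ := (hev.and hlarge).exists
  have hmemR : ∀ (A : Finset ℕ) (x : Fin K), x ∈ R K A ↔ (x : ℕ) ∈ A := by
    intro A x
    simp [hR]
  have hblk : Blocks (fun i : Fin M => R K (β i)) := by
    refine ⟨fun i => ?_, fun i j hij => ?_⟩
    · obtain ⟨x, hx⟩ := hβ.ne i
      exact ⟨⟨x, lt_of_lt_of_le (hK0 i x hx) hK2⟩, (hmemR _ _).2 hx⟩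
    · rw [Finset.disjoint_left]
      intro x h1 h2
      rw [hmemR] at h1 h2
      exact Finset.disjoint_left.1 (hβ.dj i j (fun h => hij (Fin.ext h))) h1 h2
  obtain ⟨s, hs, hne⟩ := hg K _ hblk a
  apply hne
  have h1 : un (fun i : Fin M => R K (β i)) s = R K (un β (s.map Fin.valEmbedding)) := by
    ext x
    rw [mem_un, hmemR, mem_un]
    constructor
    · rintro ⟨i, hi, hx⟩
      exact ⟨i, Finset.mem_map.2 ⟨i, hi, rfl⟩, (hmemR _ _).1 hx⟩
    · rintro ⟨i, hi, hx⟩
      rw [Finset.mem_map] at hi
      obtain ⟨j, hj, rfl⟩ := hi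
      exact ⟨j, hj, (hmemR _ _).2 hx⟩
  rw [h1, hK1 s (Finset.mem_univ s)]
  exact ha _ (by simpa using hs)

end Pool.SubSum
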