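import Pool.Agent.Lib.MP_abb0cc_co.StrDef
import Pool.Agent.Lib.MP_abb0cc_co.FU

set_option autoImplicit false
set_option linter.unusedSectionVars false

namespace Pool.SubSum

variable {I α β C : Type*} {n L : ℕ}

/-- existence of an enriched structure -/
def HasStr [DecidableEq α] (n : ℕ) (χ : Set (Finset α) → Option C)
    (Δ : Set (Finset (Fin L))) (σ : Finset (Fin L)) (J : Set (Finset I)) : Prop :=
  ∃ E P G, Str n χ Δ σ J E P G

/-- a structure for the lifted colouring gives a structure -/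
theorem str_lift [DecidableEq α] [DecidableEq β] {p : β → Finset α} (hp : Blocks p)
    {χ : Set (Finset α) → Option C}
    {Δ : Set (Finset (Fin L))} {σ : Finset (Fin L)} {J : Set (Finset I)}
    {E : I → Finset β} {P : Finset I → Fin L → Finset β} {G : Finset I → Set (Finset β)}
    (h : Str n (fun H => χ (lift p H)) Δ σ J E P G) :
    Str n χ Δ σ J (fun j => un p (E j)) (fun D v => un p (P D v)) (fun D => lift p (G D)) := by
  have hSk : ∀ D, ∀ s ∈ Sk σ (fun D v => un p (P D v)) (fun D => lift p (G D)) D,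
      ∃ g ∈ Sk σ P G D, un p g = s := by
    rintro D s ⟨⟨g, hg, rfl⟩, τ, hτ, hsub⟩
    have hsub' : un p g ⊆ un (fun v => un p (P D v)) τ := hsub
    rw [un_un, hp.un_subset_un] at hsub'
    exact ⟨g, ⟨hg, τ, hτ, hsub'⟩, rfl⟩
  refine ⟨hp.comp h.blk, fun D hD => conf_lift hp (h.conf D hD), ?_, ?_, ?_, ?_⟩
  · intro D hD
    show un (fun v => un p (P D v)) σ = un (fun j => un p (E j)) D
    rw [un_un, un_un, h.top D hD]
  · intro D hD s hs j hj
    obtain ⟨g, hg, rfl⟩ := hSk D s hs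
    rw [hp.disjoint_un]
    exact h.s1 D hD g hg j hj
  · intro D hD D' hD' hDD' s hs τ hτ hsub
    obtain ⟨g, hg, rfl⟩ := hSk D' s hs
    have hsub' : un p g ⊆ un (fun v => un p (P D v)) τ := hsub
    rw [un_un, hp.un_subset_un] at hsub'
    exact h.s2 D hD D' hD' hDD' g hg τ hτ hsub'
  · intro D hD j hj τ hτ hsub
    have hsub' : un p (E j) ⊆ un (fun v => un p (P D v)) τ := hsub
    rw [un_un, hp.un_subset_un] at hsub'
    exact h.s3 D hD j hj τ hτ hsub'

theorem Sk_congr [DecidableEq α] {σ : Finset (Fin L)} {P P' : Finset I → Fin L → Finset α}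
    {G G' : Finset I → Set (Finset α)} {D : Finset I} (h1 : P D = P' D) (h2 : G D = G' D) :
    Sk σ P G D = Sk σ P' G' D := by
  unfold Sk
  rw [h1, h2]

/-- the super points `{m} × B` -/
def qB {M K : ℕ} (B : Finset (Fin K)) (m : Fin M) : Finset (Fin M × Fin K) := {m} ×ˢ B

theorem blocks_qB {M K : ℕ} {B : Finset (Fin K)} (hB : B.Nonempty) :
    Blocks (qB (M := M) B) where
  ne m := by
    obtain ⟨y, hy⟩ := hB
    exact ⟨(m, y), by simp [qB, hy]⟩
  dj i j hij := by
    rw [Finset.disjoint_left]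
    rintro ⟨x, y⟩ h1 h2
    simp only [qB, Finset.mem_product, Finset.mem_singleton] at h1 h2
    exact hij (h1.1.symm.trans h2.1)

theorem un_qB {M K : ℕ} (B : Finset (Fin K)) (X : Finset (Fin M)) : un (qB B) X = X ×ˢ B := by
  ext ⟨x, y⟩
  simp [un, qB]

/-- the super points `X × β a` -/
def pX {M K N : ℕ} (X : Finset (Fin M)) (β : Fin N → Finset (Fin K)) (a : Fin N) :
    Finset (Fin M × Fin K) := X ×ˢ β a

theorem blocks_pX {M K N : ℕ} {X : Finset (Fin M)} (hX : X.Nonempty)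
    {β : Fin N → Finset (Fin K)} (hβ : Blocks β) : Blocks (pX X β) where
  ne a := by
    obtain ⟨x, hx⟩ := hX
    obtain ⟨y, hy⟩ := hβ.ne a
    exact ⟨(x, y), by simp [pX, hx, hy]⟩
  dj i j hij := by
    rw [Finset.disjoint_left]
    rintro ⟨x, y⟩ h1 h2
    simp only [pX, Finset.mem_product] at h1 h2
    exact Finset.disjoint_left.1 (hβ.dj i j hij) h1.2 h2.2

theorem un_pX {M K N : ℕ} (X : Finset (Fin M)) (β : Fin N → Finset (Fin K)) (s : Finset (Fin N)) :
    un (pX X β) s = X ×ˢ un β s := by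
  ext ⟨x, y⟩
  simp only [mem_un, pX, Finset.mem_product]
  constructor
  · rintro ⟨i, hi, hx, hy⟩
    exact ⟨hx, i, hi, hy⟩
  · rintro ⟨hx, i, hi, hy⟩
    exact ⟨i, hi, hx, hy⟩

/-- adding one set, on the product -/
theorem add_one_prod {C : Type} [Fintype I] [DecidableEq I] (M N K : ℕ)
    (Δ : Set (Finset (Fin L))) (σ : Finset (Fin L)) (hσ0 : σ.Nonempty)
    (J : Set (Finset I)) (D₀ : Finset I) (hD₀ : D₀.Nonempty) (hJ : D₀ ∉ J)
    (χ : Set (Finset (Fin M × Fin K)) → Option C)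
    (E : I → Finset (Fin M)) (P : Finset I → Fin L → Finset (Fin M))
    (G : Finset I → Set (Finset (Fin M))) (β : Fin N → Finset (Fin K)) (hβ : Blocks β)
    (Q : Fin L → Finset (Fin N)) (R : Set (Finset (Fin N)))
    (hstr : Str n (fun H => χ (lift (qB (un β (un Q σ))) H)) Δ σ J E P G)
    (hQ : Conf n L (fun H => χ (lift (pX (un E D₀) β) H)) none Δ Q R) :
    HasStr n χ Δ σ (insert D₀ J) := by
  classical
  set A := un β (un Q σ) with hA
  have hA0 : A.Nonempty := hβ.un_nonempty.2 (hQ.blocks.un_nonempty.2 hσ0)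
  have hE0 : (un E D₀).Nonempty := hstr.blk.un_nonempty.2 hD₀
  have hp := blocks_pX hE0 hβ
  have hq := blocks_qB (M := M) hA0
  have hold := str_lift hq hstr
  have hnew := conf_lift hp hQ
  -- a point of `A` outside `β_{Q_τ}`
  have hpt : ∀ τ, τ ⊂ σ → ∃ y ∈ A, y ∉ un β (un Q τ) := by
    intro τ hτ
    obtain ⟨v, hvσ, hvτ⟩ := Finset.exists_of_ssubset hτ
    obtain ⟨a, ha⟩ := hQ.blocks.ne v
    obtain ⟨y, hy⟩ := hβ.ne a
    refine ⟨y, mem_un.2 ⟨a, mem_un.2 ⟨v, hvσ, ha⟩, hy⟩, ?_⟩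
    rw [hβ.mem_iff hy, hQ.blocks.mem_iff ha]
    exact hvτ
  have hsubA : ∀ τ, τ ⊂ σ → un β (un Q τ) ⊆ A := fun τ hτ => un_mono _ (un_mono _ hτ.subset)
  set P' : Finset I → Fin L → Finset (Fin M × Fin K) := fun D v => un (qB A) (P D v) with hP'
  set G' : Finset I → Set (Finset (Fin M × Fin K)) := fun D => lift (qB A) (G D) with hG'
  set E' : I → Finset (Fin M × Fin K) := fun j => un (qB A) (E j) with hE'
  set P0 : Fin L → Finset (Fin M × Fin K) := fun v => un (pX (un E D₀) β) (Q v) with hP0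
  have hneJ : ∀ D ∈ J, D ≠ D₀ := fun D hD he => hJ (he ▸ hD)
  have hE'j : ∀ j, E' j = E j ×ˢ A := fun j => un_qB _ _
  have hunP0 : ∀ τ, un P0 τ = un E D₀ ×ˢ un β (un Q τ) := by
    intro τ
    rw [hP0, un_un, un_pX]
  have hunP' : ∀ D τ, un (P' D) τ = un (P D) τ ×ˢ A := by
    intro D τ
    rw [hP']
    show un (fun v => un (qB A) (P D v)) τ = _
    rw [un_un, un_qB]
  refine ⟨E', Function.update P' D₀ P0, Function.update G' D₀ (lift (pX (un E D₀) β) R), hold.blk,
    ?_, ?_, ?_, ?_, ?_⟩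
  · intro D hD
    rcases hD with rfl | hD
    · rw [Function.update_self, Function.update_self]
      exact hnew
    · rw [Function.update_of_ne (hneJ D hD), Function.update_of_ne (hneJ D hD)]
      exact hold.conf D hD
  · intro D hD
    rcases hD with rfl | hD
    · rw [Function.update_self, hunP0, ← hA]
      show _ = un (fun j => un (qB A) (E j)) D
      rw [un_un, un_qB]
    · rw [Function.update_of_ne (hneJ D hD)]
      exact hold.top D hD
  · intro D hD s hs j hj
    rcases hD with rfl | hD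
    · obtain ⟨hs1, τ, hτ, hsub⟩ := hs
      rw [Function.update_self] at hs1 hsub
      obtain ⟨g, hg, rfl⟩ := hs1
      rw [un_pX] at hsub ⊢
      rw [hunP0] at hsub
      have hg0 : g.Nonempty := by
        rw [Finset.nonempty_iff_ne_empty]
        rintro rfl
        exact hQ.emp hg
      obtain ⟨y, hy⟩ := hβ.un_nonempty.2 hg0
      obtain ⟨x, hx⟩ := hstr.blk.ne j
      have hxD : x ∈ un E D := mem_un.2 ⟨j, hj, hx⟩
      have h1 : (x, y) ∈ un E D ×ˢ un β g := Finset.mem_product.2 ⟨hxD, hy⟩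
      have h2 := (Finset.mem_product.1 (hsub h1)).2
      rw [Finset.not_disjoint_iff]
      refine ⟨(x, y), h1, ?_⟩
      rw [hE'j]
      exact Finset.mem_product.2 ⟨hx, hsubA τ hτ h2⟩
    · rw [Sk_congr (P' := P') (G' := G') (Function.update_of_ne (hneJ D hD) _ _)
        (Function.update_of_ne (hneJ D hD) _ _)] at hs
      exact hold.s1 D hD s hs j hj
  · intro D hD D' hD' hDD' s hs τ hτ hsub
    rcases hD' with rfl | hD'
    · -- `D' = D₀`
      have hDne : D ≠ D' := fun he => hDD'.ne he.symm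
      have hDJ : D ∈ J := by
        rcases hD with h1 | h1
        · exact absurd h1 hDne
        · exact h1
      rw [Function.update_of_ne hDne, hunP'] at hsub
      obtain ⟨hs1, τ', hτ', hsub'⟩ := hs
      rw [Function.update_self] at hs1
      obtain ⟨g, hg, rfl⟩ := hs1
      rw [un_pX] at hsub
      have hg0 : g.Nonempty := by
        rw [Finset.nonempty_iff_ne_empty]
        rintro rfl
        exact hQ.emp hg
      obtain ⟨y, hy⟩ := hβ.un_nonempty.2 hg0
      obtain ⟨j, hj⟩ := hD₀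
      refine hstr.s3 D hDJ j (hDD'.subset hj) τ hτ ?_
      intro x hx
      have h1 : (x, y) ∈ un E D' ×ˢ un β g :=
        Finset.mem_product.2 ⟨mem_un.2 ⟨j, hj, hx⟩, hy⟩
      exact (Finset.mem_product.1 (hsub h1)).1
    · rw [Sk_congr (P' := P') (G' := G') (Function.update_of_ne (hneJ D' hD') _ _)
        (Function.update_of_ne (hneJ D' hD') _ _)] at hs
      rcases hD with rfl | hD
      · -- `D = D₀`
        rw [Function.update_self, hunP0] at hsub
        obtain ⟨hs1, -⟩ := hs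
        obtain ⟨g, hg, rfl⟩ := hs1
        rw [un_qB] at hsub
        have hg0 : g.Nonempty := by
          rw [Finset.nonempty_iff_ne_empty]
          rintro rfl
          exact (hstr.conf D' hD').emp hg
        obtain ⟨x, hx⟩ := hg0
        obtain ⟨y, hyA, hy⟩ := hpt τ hτ
        exact hy (Finset.mem_product.1 (hsub (Finset.mem_product.2 ⟨hx, hyA⟩ : (x, y) ∈ g ×ˢ A))).2
      · rw [Function.update_of_ne (hneJ D hD)] at hsub
        exact hold.s2 D hD D' hD' hDD' s hs τ hτ hsub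
  · intro D hD j hj τ hτ hsub
    rcases hD with rfl | hD
    · rw [Function.update_self, hunP0, hE'j] at hsub
      obtain ⟨x, hx⟩ := hstr.blk.ne j
      obtain ⟨y, hyA, hy⟩ := hpt τ hτ
      exact hy (Finset.mem_product.1 (hsub (Finset.mem_product.2 ⟨hx, hyA⟩ : (x, y) ∈ E j ×ˢ A))).2
    · rw [Function.update_of_ne (hneJ D hD)] at hsub
      exact hold.s3 D hD j hj τ hτ hsub

/-- adding one set `D₀` to the domain of a structure -/
theorem add_one {C : Type} {I : Type} [Finite C] [Fintype I] [DecidableEq I] (M N : ℕ)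
    (Δ : Set (Finset (Fin L))) (σ : Finset (Fin L)) (hσ0 : σ.Nonempty)
    (J : Set (Finset I)) (D₀ : Finset I) (hD₀ : D₀.Nonempty) (hJ : D₀ ∉ J)
    (hM : ∀ χ : Set (Finset (Fin M)) → Option C,
      (∃ c, HasConf n L χ (some c) (DL n L)) ∨ HasStr n χ Δ σ J)
    (hN : ∀ χ : Set (Finset (Fin N)) → Option C,
      (∃ c, HasConf n L χ (some c) (DL n L)) ∨ HasConf n L χ none Δ) :
    ∃ M' : ℕ, ∀ χ : Set (Finset (Fin M')) → Option C,
      (∃ c, HasConf n L χ (some c) (DL n L)) ∨ HasStr n χ Δ σ (insert D₀ J) := by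
  classical
  obtain ⟨v0, hv0⟩ := id hσ0
  -- `N` is positive
  have hN0 : 0 < N := by
    by_contra hcon
    have hN' : N = 0 := by omega
    subst hN'
    rcases hN (fun _ => none) with ⟨c, e, F, hc⟩ | ⟨e, F, hc⟩
    · obtain ⟨x, _⟩ := hc.blocks.ne v0
      exact x.elim0
    · obtain ⟨x, _⟩ := hc.blocks.ne v0
      exact x.elim0
  obtain ⟨K, hK⟩ := fu ((I → Finset (Fin M)) × (Finset I → Fin L → Finset (Fin M)) ×
    (Finset I → Set (Finset (Fin M)))) N
  refine ⟨M * K, fun χ₁ => ?_⟩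
  set e : Fin M × Fin K ≃ Fin (M * K) := finProdFinEquiv
  have hblk : Blocks (fun x : Fin M × Fin K => ({e x} : Finset (Fin (M * K)))) :=
    Blocks.of_injective _ e.injective
  set χ : Set (Finset (Fin M × Fin K)) → Option C :=
    fun H => χ₁ (lift (fun x : Fin M × Fin K => ({e x} : Finset (Fin (M * K)))) H) with hχ
  suffices hmain : (∃ c, HasConf n L χ (some c) (DL n L)) ∨ HasStr n χ Δ σ (insert D₀ J) by
    rcases hmain with ⟨c, hc⟩ | ⟨E, P, G, h⟩
    · exact Or.inl ⟨c, hasConf_lift hblk hc⟩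
    · exact Or.inr ⟨_, _, _, str_lift hblk h⟩
  by_cases hs : ∃ c, HasConf n L χ (some c) (DL n L)
  · exact Or.inl hs
  right
  have hdata : ∀ B : Finset (Fin K), ∃ d : (I → Finset (Fin M)) ×
      (Finset I → Fin L → Finset (Fin M)) × (Finset I → Set (Finset (Fin M))), B.Nonempty →
      Str n (fun H => χ (lift (qB B) H)) Δ σ J d.1 d.2.1 d.2.2 := by
    intro B
    by_cases hB : B.Nonempty
    · rcases hM (fun H => χ (lift (qB B) H)) with ⟨c, hc⟩ | ⟨E, P, G, h⟩
      · exact absurd ⟨c, hasConf_lift (blocks_qB hB) hc⟩ hs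
      · exact ⟨(E, P, G), fun _ => h⟩
    · exact ⟨(fun _ => ∅, fun _ _ => ∅, fun _ => ∅), fun h => absurd h hB⟩
  choose d hd using hdata
  obtain ⟨β, hβ, a, ha⟩ := hK d
  have hstr : ∀ s : Finset (Fin N), s.Nonempty →
      Str n (fun H => χ (lift (qB (un β s)) H)) Δ σ J a.1 a.2.1 a.2.2 := by
    intro s hs'
    rw [← ha s hs']
    exact hd _ (hβ.un_nonempty.2 hs')
  have hblkE : Blocks a.1 := (hstr {⟨0, hN0⟩} (Finset.singleton_nonempty _)).blk
  have hE0 : (un a.1 D₀).Nonempty := hblkE.un_nonempty.2 hD₀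
  rcases hN (fun H => χ (lift (pX (un a.1 D₀) β) H)) with ⟨c, hc⟩ | ⟨Q, R, hQ⟩
  · exact absurd ⟨c, hasConf_lift (blocks_pX hE0 hβ) hc⟩ hs
  · exact add_one_prod M N K Δ σ hσ0 J D₀ hD₀ hJ χ a.1 a.2.1 a.2.2 β hβ Q R
      (hstr _ (hQ.blocks.un_nonempty.2 hσ0)) hQ

end Pool.SubSum
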