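import Mathlib

set_option autoImplicit false

namespace Pool.SubSum

private theorem Choose_step (H : ℕ → Set ℕ) (hH : ∀ i, (H i).Infinite) (s : ℕ → ℕ) (i B : ℕ) :
    ∃ A : Finset ℕ, (A : Set ℕ) ⊆ H i ∧ A.card = s i ∧ ∀ a ∈ A, B ≤ a := by
  have h1 : (H i \ Set.Iio B).Infinite := (hH i).sdiff (Set.finite_Iio B)
  obtain ⟨t, ht, hc⟩ := h1.exists_subset_card_eq (s i)
  refine ⟨t, fun a ha => (ht ha).1, hc, fun a ha => ?_⟩
  have h2 := (ht (Finset.mem_coe.mpr ha)).2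
  rw [Set.mem_Iio, not_lt] at h2
  exact h2

theorem choose_blocks (H : ℕ → Set ℕ) (hH : ∀ i, (H i).Infinite) (s : ℕ → ℕ) :
    ∃ A : ℕ → Finset ℕ, (∀ i, (A i : Set ℕ) ⊆ H i) ∧ (∀ i, (A i).card = s i) ∧
      ∀ i j, i < j → ∀ a ∈ A i, ∀ b ∈ A j, a < b := by
  choose F hF1 hF2 hF3 using Choose_step H hH s
  let bnd : ℕ → ℕ := fun i => Nat.rec 0 (fun i B => max B ((F i B).sup id + 1)) i
  have hb : ∀ i, bnd (i + 1) = max (bnd i) ((F i (bnd i)).sup id + 1) := fun i => rfl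
  have hmono : Monotone bnd := monotone_nat_of_le_succ fun i => by
    rw [hb]
    exact le_max_left _ _
  refine ⟨fun i => F i (bnd i), fun i => hF1 _ _, fun i => hF2 _ _, ?_⟩
  intro i j hij a ha b hb'
  have h1 : a < bnd (i + 1) := by
    rw [hb]
    have h2 : a ≤ (F i (bnd i)).sup id := Finset.le_sup (f := id) ha
    exact lt_of_lt_of_le (Nat.lt_succ_of_le h2) (le_max_right _ _)
  have h3 : bnd (i + 1) ≤ bnd j := hmono hij
  have h4 : bnd j ≤ b := hF3 _ _ b hb'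
  omega

end Pool.SubSum
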