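import Mathlib

set_option autoImplicit false

namespace Pool.SubSum

private theorem RI_lim {r : ℕ} (U : Ultrafilter ℕ) (f : ℕ → Fin r) :
    ∃ a, ∀ᶠ x in (U : Filter ℕ), f x = a := by
  obtain ⟨a, -, ha⟩ := (Ultrafilter.map f U).eq_pure_of_finite_mem
    (Set.finite_univ : (Set.univ : Set (Fin r)).Finite) Filter.univ_mem
  refine ⟨a, ?_⟩
  have h1 : ({a} : Set (Fin r)) ∈ Ultrafilter.map f U := by
    rw [ha]
    exact Ultrafilter.mem_pure.2 rfl
  exact h1

/-- the iterated ultrafilter limits of the colouring -/
private noncomputable def RI_C {r : ℕ} (U : Ultrafilter ℕ) (c : Finset ℕ → Fin r) :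
    ℕ → Finset ℕ → Fin r
  | 0 => c
  | (j + 1) => fun A => (RI_lim U (fun x => RI_C U c j (insert x A))).choose

private theorem RI_C_spec {r : ℕ} (U : Ultrafilter ℕ) (c : Finset ℕ → Fin r) (j : ℕ)
    (A : Finset ℕ) : ∀ᶠ x in (U : Filter ℕ), RI_C U c j (insert x A) = RI_C U c (j + 1) A :=
  (RI_lim U (fun x => RI_C U c j (insert x A))).choose_spec

private def RI_S (pick : Finset ℕ → ℕ) : ℕ → Finset ℕ
  | 0 => ∅
  | (m + 1) => insert (pick (RI_S pick m)) (RI_S pick m)

private theorem RI_S_mono (pick : Finset ℕ → ℕ) {m k : ℕ} (h : m ≤ k) :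
    RI_S pick m ⊆ RI_S pick k := by
  induction h with
  | refl => exact Finset.Subset.refl _
  | step _ ih => exact ih.trans (Finset.subset_insert _ _)

/-- infinite Ramsey theorem for finite sets of bounded size, simultaneously -/
theorem ramsey_inf (r M : ℕ) (H : Set ℕ) (hH : H.Infinite) (c : Finset ℕ → Fin r) :
    ∃ H' ⊆ H, H'.Infinite ∧ ∃ γ : ℕ → Fin r,
      ∀ A : Finset ℕ, (A : Set ℕ) ⊆ H' → A.card ≤ M → c A = γ A.card := by
  classical
  have hne : (Filter.cofinite ⊓ Filter.principal H : Filter ℕ).NeBot := by
    rw [Filter.inf_principal_neBot_iff]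
    intro s hs
    by_contra hcon
    rw [Set.not_nonempty_iff_eq_empty] at hcon
    apply hH
    rw [Filter.mem_cofinite] at hs
    apply hs.subset
    intro x hx hxs
    have : x ∈ s ∩ H := ⟨hxs, hx⟩
    rw [hcon] at this
    exact this
  obtain ⟨U, hU⟩ := Ultrafilter.exists_le (Filter.cofinite ⊓ Filter.principal H : Filter ℕ)
  have hUc : (U : Filter ℕ) ≤ Filter.cofinite := hU.trans inf_le_left
  have hUH : H ∈ (U : Filter ℕ) := (hU.trans inf_le_right) (Filter.mem_principal_self H)
  have hpick : ∀ B : Finset ℕ, ∃ x, x ∈ H ∧ (∀ b ∈ B, b < x) ∧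
      ∀ A ⊆ B, ∀ j ≤ M, RI_C U c j (insert x A) = RI_C U c (j + 1) A := by
    intro B
    have h1 : ∀ᶠ x in (U : Filter ℕ), x ∈ H := hUH
    have h2 : ∀ᶠ x in (U : Filter ℕ), ∀ b ∈ B, b < x := by
      rw [Filter.eventually_all_finset]
      intro b _
      apply hUc
      rw [Nat.cofinite_eq_atTop]
      exact Filter.eventually_gt_atTop b
    have h3 : ∀ᶠ x in (U : Filter ℕ), ∀ A ∈ B.powerset, ∀ j ∈ Finset.range (M + 1),
        RI_C U c j (insert x A) = RI_C U c (j + 1) A := by
      rw [Filter.eventually_all_finset]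
      intro A _
      rw [Filter.eventually_all_finset]
      intro j _
      exact RI_C_spec U c j A
    obtain ⟨x, ⟨hx1, hx2⟩, hx3⟩ := ((h1.and h2).and h3).exists
    exact ⟨x, hx1, hx2, fun A hA j hj =>
      hx3 A (Finset.mem_powerset.2 hA) j (Finset.mem_range.2 (Nat.lt_succ_of_le hj))⟩
  choose pick hpH hplt hpC using hpick
  set h : ℕ → ℕ := fun m => pick (RI_S pick m) with hh
  have hmemS : ∀ m k, m < k → h m ∈ RI_S pick k := by
    intro m k hmk
    apply RI_S_mono pick (Nat.succ_le_of_lt hmk)
    exact Finset.mem_insert_self _ _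
  have hlt : ∀ m k, m < k → h m < h k := fun m k hmk => hplt _ _ (hmemS m k hmk)
  have hinj : Function.Injective h := (strictMono_nat_of_lt_succ (fun m => hlt m _ (Nat.lt_succ_self m))).injective
  refine ⟨Set.range h, ?_, Set.infinite_range_of_injective hinj, fun s => RI_C U c s ∅, ?_⟩
  · rintro _ ⟨m, rfl⟩
    exact hpH _
  · have key : ∀ m, ∀ A ⊆ RI_S pick m, ∀ j, j + A.card ≤ M →
        RI_C U c j A = RI_C U c (j + A.card) ∅ := by
      intro m
      induction m with
      | zero =>
        intro A hA j _
        have : A = ∅ := Finset.subset_empty.1 hA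
        subst this
        simp
      | succ m ih =>
        intro A hA j hj
        by_cases hm : pick (RI_S pick m) ∈ A
        · have hA' : A.erase (pick (RI_S pick m)) ⊆ RI_S pick m := by
            intro x hx
            rw [Finset.mem_erase] at hx
            have := hA hx.2
            rcases Finset.mem_insert.1 this with h1 | h1
            · exact absurd h1 hx.1
            · exact h1
          have hcard : (A.erase (pick (RI_S pick m))).card + 1 = A.card :=
            Finset.card_erase_add_one hm
          have h1 := hpC (RI_S pick m) (A.erase (pick (RI_S pick m))) hA' j (by omega)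
          rw [Finset.insert_erase hm] at h1
          rw [h1, ih _ hA' (j + 1) (by omega)]
          congr 1
          omega
        · apply ih A _ j hj
          intro x hx
          rcases Finset.mem_insert.1 (hA hx) with h1 | h1
          · exact absurd (h1 ▸ hx) hm
          · exact h1
    intro A hA hAM
    have hex : ∃ m, A ⊆ RI_S pick m := by
      clear hAM
      induction A using Finset.induction_on with
      | empty => exact ⟨0, Finset.empty_subset _⟩
      | insert a A _ ih =>
        rw [Finset.coe_insert] at hA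
        obtain ⟨m, hm⟩ := ih ((Set.subset_insert _ _).trans hA)
        obtain ⟨k, hk⟩ := hA (Set.mem_insert _ _)
        refine ⟨max m (k + 1), ?_⟩
        intro x hx
        rcases Finset.mem_insert.1 hx with h1 | h1
        · subst h1
          rw [← hk]
          exact RI_S_mono pick (le_max_right _ _) (hmemS k (k + 1) (Nat.lt_succ_self k))
        · exact RI_S_mono pick (le_max_left _ _) (hm h1)
    obtain ⟨m, hm⟩ := hex
    have := key m A hm 0 (by omega)
    rw [zero_add] at this
    exact this

end Pool.SubSum
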