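import Pool.Agent.Lib.MP_abb0cc_co.Digits

set_option autoImplicit false

namespace Pool.SubSum

/-- the set `X`: the numbers `S4 A`, `A` a nonempty finite subset of some component
`{a | (unpair a).1 = k}` whose size is in `X0 k` -/
def XS (X0 : ℕ → Finset ℕ) : Set ℕ :=
  {m | ∃ (k : ℕ) (A : Finset ℕ), A.Nonempty ∧ (∀ a ∈ A, (Nat.unpair a).1 = k) ∧ A.card ∈ X0 k ∧
    m = S4 A}

/-- the component -/
def comp (k : ℕ) : Set ℕ := {a | (Nat.unpair a).1 = k}

theorem comp_infinite (k : ℕ) : (comp k).Infinite := by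
  have hinj : Function.Injective (fun j : ℕ => Nat.pair k j) := by
    intro a b hab
    have := congrArg Nat.unpair hab
    simp only [Nat.unpair_pair, Prod.mk.injEq, true_and] at this
    exact this
  apply (Set.infinite_range_of_injective hinj).mono
  rintro _ ⟨j, rfl⟩
  simp [comp]

theorem XS_free (n : ℕ) (hn : 1 ≤ n) (X0 : ℕ → Finset ℕ)
    (hfree : ∀ k, ∀ A : Fin (n + 1) → ℕ, (∀ i, 0 < A i) →
      ∃ s : Finset (Fin (n + 1)), s.Nonempty ∧ ∑ i ∈ s, A i ∉ X0 k)
    (y : Fin (n + 1) → ℕ) : ∃ s : Finset (Fin (n + 1)), s.Nonempty ∧ ∑ i ∈ s, y i ∉ XS X0 := by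
  classical
  by_contra hcon
  push Not at hcon
  have h1 : ∀ i, ∃ (k : ℕ) (A : Finset ℕ), A.Nonempty ∧ (∀ a ∈ A, (Nat.unpair a).1 = k) ∧
      A.card ∈ X0 k ∧ y i = S4 A := by
    intro i
    have := hcon {i} (Finset.singleton_nonempty i)
    rw [Finset.sum_singleton] at this
    exact this
  choose k A hne hk hX hy using h1
  have h2 : ∀ i j, i ≠ j → Disjoint (A i) (A j) ∧ k i = k j := by
    intro i j hij
    have h3 := hcon {i, j} (Finset.insert_nonempty _ _)
    rw [Finset.sum_pair hij, hy i, hy j] at h3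
    obtain ⟨k', C, hC, hkC, _, hs⟩ := h3
    obtain ⟨hd, hu⟩ := S4_add_eq hs
    refine ⟨hd, ?_⟩
    obtain ⟨a, ha⟩ := hne i
    obtain ⟨b, hb⟩ := hne j
    have e1 := hkC a (hu ▸ Finset.mem_union_left _ ha)
    have e2 := hkC b (hu ▸ Finset.mem_union_right _ hb)
    rw [← hk i a ha, ← hk j b hb, e1, e2]
  have hkall : ∀ i, k i = k 0 := by
    intro i
    by_cases h0 : i = 0
    · rw [h0]
    · exact (h2 i 0 h0).2
  obtain ⟨s, hs, hns⟩ := hfree (k 0) (fun i => (A i).card) (fun i => Finset.card_pos.2 (hne i))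
  apply hns
  obtain ⟨k', C, hC, hkC, hCX, hsum⟩ := hcon s hs
  have h4 : S4 (un A s) = ∑ i ∈ s, y i := by
    rw [S4_un A s (fun i _ j _ hij => (h2 i j hij).1)]
    exact Finset.sum_congr rfl (fun i _ => (hy i).symm)
  have h5 : un A s = C := S4_injective (h4.trans hsum)
  have h6 : C.card = ∑ i ∈ s, (A i).card := by
    rw [← h5]
    exact Finset.card_biUnion (fun i _ j _ hij => (h2 i j hij).1)
  obtain ⟨i, hi⟩ := hs
  obtain ⟨a, ha⟩ := hne i
  have h7 : a ∈ C := by
    rw [← h5]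
    exact subset_un A hi ha
  have h8 : k' = k 0 := by
    rw [← hkC a h7, hk i a ha, hkall i]
  rw [← h6, ← h8]
  exact hCX

theorem XS_infinite (X0 : ℕ → Finset ℕ) (k x : ℕ) (hx : 0 < x) (hxk : x ∈ X0 k) :
    (XS X0).Infinite := by
  intro hfin
  -- the sets of size `x` in the component
  have hfin2 : (S4 ⁻¹' (XS X0)).Finite := hfin.preimage S4_injective.injOn
  have hinf : (comp k).Infinite := comp_infinite k
  -- every element of `comp k` is contained in a finite set of the preimage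
  apply hinf
  apply (hfin2.toFinset.biUnion id).finite_toSet.subset
  intro a ha
  obtain ⟨B, haB, hBc⟩ : ∃ B : Finset ℕ, a ∈ B ∧ (B : Set ℕ) ⊆ comp k ∧ B.card = x := by
    obtain ⟨t, ht, htc⟩ := (hinf.sdiff (Set.finite_singleton a)).exists_subset_card_eq (x - 1)
    have hat : a ∉ t := fun h => (ht h).2 rfl
    refine ⟨insert a t, Finset.mem_insert_self _ _, ?_, ?_⟩
    · rw [Finset.coe_insert, Set.insert_subset_iff]
      exact ⟨ha, fun z hz => (ht hz).1⟩
    · rw [Finset.card_insert_of_notMem hat, htc]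
      omega
  rw [Finset.mem_coe, Finset.mem_biUnion]
  refine ⟨B, ?_, haB⟩
  rw [Set.Finite.mem_toFinset]
  exact ⟨k, B, ⟨a, haB⟩, fun z hz => hBc.1 hz, hBc.2 ▸ hxk, rfl⟩

end Pool.SubSum
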