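import Pool.Agent.Lib.MP_abb0cc_co.Num
import Pool.Agent.Lib.MP_abb0cc_co.RamseyInf
import Pool.Agent.Lib.MP_abb0cc_co.Choose
import Pool.Agent.Lib.MP_abb0cc_co.XSet

set_option autoImplicit false

namespace Pool.SubSum

/-- the set and its Ramsey property for the 'component and colour' form: `κ i` is the component
of the index `i`, `ρ i` its colour class, `ρ` is bounded on every component -/
theorem assemble (n : ℕ) (hn : 1 ≤ n) :
    ∃ X : Set ℕ, X.Infinite ∧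
      (∀ y : Fin (n + 1) → ℕ, ∃ s : Finset (Fin (n + 1)), s.Nonempty ∧ ∑ i ∈ s, y i ∉ X) ∧
      ∀ (t : ℕ) (c : ℕ → Fin t) (κ ρ : ℕ → ℕ), (∀ k, ∃ b, ∀ i, κ i = k → ρ i < b) →
        ∃ y : ℕ → ℕ, StrictMono y ∧ ∃ a, ∀ l : Finset ℕ, l.Nonempty → l.card ≤ n →
          (∀ i ∈ l, ∀ j ∈ l, κ i = κ j) → (∀ i ∈ l, ∀ j ∈ l, ρ i = ρ j → i = j) →
            ∑ i ∈ l, y i ∈ X ∧ c (∑ i ∈ l, y i) = a := by
  classical
  choose X0 hpos hfree hR using fun k => num n (Nat.unpair k).1 (Nat.unpair k).2 hn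
  have hR' : ∀ t L : ℕ, ∀ c : ℕ → Fin (t + 1), ∃ b : Fin L → ℕ, (∀ i, 0 < b i) ∧
      ∃ a, ∀ σ : Finset (Fin L), σ.Nonempty → σ.card ≤ n →
        ∑ i ∈ σ, b i ∈ X0 (Nat.pair t L) ∧ c (∑ i ∈ σ, b i) = a := by
    intro t L
    have := hR (Nat.pair t L)
    rw [Nat.unpair_pair] at this
    exact this
  refine ⟨XS X0, ?_, fun y => XS_free n hn X0 hfree y, ?_⟩
  · obtain ⟨b, hb, a, ha⟩ := hR' 0 1 (fun _ => 0)
    have h1 := (ha {0} (Finset.singleton_nonempty _) (by simpa using hn)).1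
    rw [Finset.sum_singleton] at h1
    exact XS_infinite X0 _ _ (hb 0) h1
  intro t c κ ρ hκ
  rcases t with _ | t
  · exact Fin.elim0 (c 0)
  have hram := fun L : ℕ => ramsey_inf (t + 1) ((X0 (Nat.pair t L)).sup id) (comp (Nat.pair t L))
    (comp_infinite _) (fun A => c (S4 A))
  choose H hHsub hHinf γ hγ using hram
  choose b hb aL haL using fun L => hR' t L (γ L)
  obtain ⟨a, ha⟩ := Finite.exists_infinite_fiber aL
  have ha' : (aL ⁻¹' {a}).Infinite := Set.infinite_coe_iff.1 ha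
  choose m hm using hκ
  have hLam : ∀ k : ℕ, ∃ L, m k < L ∧ aL L = a := by
    intro k
    obtain ⟨L, hL1, hL2⟩ := ha'.exists_gt (m k)
    exact ⟨L, hL2, hL1⟩
  choose Lam hLam1 hLam2 using hLam
  set B : ℕ → ℕ → ℕ := fun L q => if h : q < L then b L ⟨q, h⟩ else 1 with hB
  have hBpos : ∀ L q, 0 < B L q := by
    intro L q
    simp only [hB]
    split_ifs with h
    · exact hb _ _
    · exact Nat.one_pos
  obtain ⟨A, hAH, hAc, hAlt⟩ := choose_blocks (fun i => H (Lam (κ i))) (fun i => hHinf _)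
    (fun i => B (Lam (κ i)) (ρ i))
  have hAne : ∀ i, (A i).Nonempty := by
    intro i
    rw [← Finset.card_pos, hAc]
    exact hBpos _ _
  have hdisj : ∀ i j, i ≠ j → Disjoint (A i) (A j) := by
    intro i j hij
    rw [Finset.disjoint_left]
    intro x hxi hxj
    rcases lt_or_gt_of_ne hij with h | h
    · exact lt_irrefl _ (hAlt i j h x hxi x hxj)
    · exact lt_irrefl _ (hAlt j i h x hxj x hxi)
  refine ⟨fun i => S4 (A i), fun i j hij => S4_lt (hAlt i j hij) (hAne j), a, ?_⟩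
  intro l hl hln hlκ hlρ
  obtain ⟨i0, hi0⟩ := hl
  have hκ0 : ∀ i ∈ l, κ i = κ i0 := fun i hi => hlκ i hi i0 hi0
  set L := Lam (κ i0) with hL
  have hρL : ∀ i ∈ l, ρ i < L := by
    intro i hi
    exact (hm (κ i0) i (hκ0 i hi)).trans (hLam1 _)
  set g : ℕ → Fin L := fun i => if h : ρ i < L then ⟨ρ i, h⟩ else ⟨ρ i0, hρL i0 hi0⟩ with hg
  have hginj : Set.InjOn g l := by
    intro i hi j hj hij
    simp only [hg, dif_pos (hρL i hi), dif_pos (hρL j hj), Fin.mk.injEq] at hij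
    exact hlρ i hi j hj hij
  have hcardA : ∀ i ∈ l, (A i).card = b L (g i) := by
    intro i hi
    rw [hAc, hκ0 i hi, ← hL]
    simp only [hB, hg, dif_pos (hρL i hi)]
  have hsum : ∑ q ∈ l.image g, b L q = (un A l).card := by
    rw [Finset.sum_image hginj, un, Finset.card_biUnion (fun i _ j _ hij => hdisj i j hij)]
    exact Finset.sum_congr rfl (fun i hi => (hcardA i hi).symm)
  have hσ := haL L (l.image g) ⟨_, Finset.mem_image_of_mem g hi0⟩ (Finset.card_image_le.trans hln)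
  rw [hsum] at hσ
  have hS : ∑ i ∈ l, S4 (A i) = S4 (un A l) :=
    (S4_un A l (fun i _ j _ hij => hdisj i j hij)).symm
  have hsubH : ((un A l : Finset ℕ) : Set ℕ) ⊆ H L := by
    intro x hx
    obtain ⟨i, hi, hxi⟩ := mem_un.1 (Finset.mem_coe.1 hx)
    have := hAH i hxi
    rw [hκ0 i hi] at this
    exact this
  refine ⟨?_, ?_⟩
  · rw [hS]
    refine ⟨Nat.pair t L, un A l, ?_, ?_, hσ.1, rfl⟩
    · obtain ⟨x, hx⟩ := hAne i0
      exact ⟨x, mem_un.2 ⟨i0, hi0, hx⟩⟩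
    · intro x hx
      exact hHsub L (hsubH hx)
  · rw [hS]
    have h1 := hγ L (un A l) hsubH (Finset.le_sup (f := id) hσ.1)
    rw [h1, hσ.2, hL]
    exact hLam2 _

end Pool.SubSum
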