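import Mathlib

/-!
# MP_abb0cc_co: basic notions

Families of finite sets, restriction of a family below a set, `n+1`-freeness, blocks
(disjoint nonempty sets), unions of blocks, lifting along blocks, configurations.
-/

set_option autoImplicit false

namespace Pool.SubSum

variable {ι κ α β C : Type*}

/-- the members of the family `G` contained in `f` -/
def restr (G : Set (Finset α)) (f : Finset α) : Set (Finset α) := {g | g ∈ G ∧ g ⊆ f}

/-- the union of the sets `p i`, `i ∈ s` -/
def un [DecidableEq α] (p : ι → Finset α) (s : Finset ι) : Finset α := s.biUnion p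

/-- `p` is a system of nonempty, pairwise disjoint finite sets -/
structure Blocks [DecidableEq α] (p : ι → Finset α) : Prop where
  ne : ∀ i, (p i).Nonempty
  dj : ∀ i j, i ≠ j → Disjoint (p i) (p j)

/-- no `n + 1` pairwise disjoint nonempty finite sets have all their nonempty unions in `G` -/
def Free [DecidableEq α] (n : ℕ) (G : Set (Finset α)) : Prop :=
  ∀ A : Fin (n + 1) → Finset α, Blocks A →
    ∃ s : Finset (Fin (n + 1)), s.Nonempty ∧ un A s ∉ G

/-- the image of a family of sets of indices: the unions of the corresponding blocks -/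
def lift [DecidableEq α] (p : ι → Finset α) (G : Set (Finset ι)) : Set (Finset α) :=
  un p '' G

/-- `e`, `G` is a configuration of colour `c` for the colouring `χ` of families: `e` is a system
of `L` blocks, and for every `σ ∈ Δ` the union `e_σ` is in `G`, the family `G` below `e_σ` is free
and has colour `c`. -/
structure Conf [DecidableEq α] (n L : ℕ) (χ : Set (Finset α) → C) (c : C)
    (Δ : Set (Finset (Fin L))) (e : Fin L → Finset α) (G : Set (Finset α)) : Prop where
  blocks : Blocks e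
  emp : ∅ ∉ G
  mem : ∀ σ ∈ Δ, un e σ ∈ G
  free : ∀ σ ∈ Δ, Free n (restr G (un e σ))
  col : ∀ σ ∈ Δ, χ (restr G (un e σ)) = c

/-- there is a configuration -/
def HasConf [DecidableEq α] (n L : ℕ) (χ : Set (Finset α) → C) (c : C)
    (Δ : Set (Finset (Fin L))) : Prop :=
  ∃ e G, Conf n L χ c Δ e G

/-- the nonempty sets of at most `n` indices -/
def DL (n L : ℕ) : Set (Finset (Fin L)) := {σ | σ.Nonempty ∧ σ.card ≤ n}

/-! ### unions of blocks -/

section un
variable [DecidableEq α]

theorem mem_un {p : ι → Finset α} {s : Finset ι} {x : α} : x ∈ un p s ↔ ∃ i ∈ s, x ∈ p i := by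
  simp [un]

@[simp] theorem un_empty (p : ι → Finset α) : un p ∅ = ∅ := by simp [un]

@[simp] theorem un_singleton (p : ι → Finset α) (i : ι) : un p {i} = p i := by simp [un]

theorem un_mono (p : ι → Finset α) {s t : Finset ι} (h : s ⊆ t) : un p s ⊆ un p t :=
  Finset.biUnion_subset_biUnion_of_subset_left _ h

theorem subset_un (p : ι → Finset α) {s : Finset ι} {i : ι} (h : i ∈ s) : p i ⊆ un p s :=
  Finset.subset_biUnion_of_mem _ h

theorem un_union [DecidableEq ι] (p : ι → Finset α) (s t : Finset ι) :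
    un p (s ∪ t) = un p s ∪ un p t := by
  simp [un, Finset.union_biUnion]

theorem un_insert [DecidableEq ι] (p : ι → Finset α) (i : ι) (s : Finset ι) :
    un p (insert i s) = p i ∪ un p s := by
  simp [un]

theorem un_un [DecidableEq ι] (p : ι → Finset α) (q : κ → Finset ι) (s : Finset κ) :
    un (fun k => un p (q k)) s = un p (un q s) := by
  simp [un, Finset.biUnion_biUnion]

theorem un_subset_iff {p : ι → Finset α} {s : Finset ι} {t : Finset α} :
    un p s ⊆ t ↔ ∀ i ∈ s, p i ⊆ t := by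
  simp [un, Finset.biUnion_subset]

namespace Blocks

variable {p : ι → Finset α}

theorem eq_of_mem (h : Blocks p) {i j : ι} {x : α} (hi : x ∈ p i) (hj : x ∈ p j) : i = j := by
  by_contra hne
  exact (Finset.disjoint_left.mp (h.dj i j hne)) hi hj

theorem mem_iff (h : Blocks p) {i : ι} {x : α} (hi : x ∈ p i) {s : Finset ι} :
    x ∈ un p s ↔ i ∈ s := by
  rw [mem_un]
  constructor
  · rintro ⟨j, hj, hx⟩
    rwa [h.eq_of_mem hi hx]
  · exact fun hs => ⟨i, hs, hi⟩

theorem subset_iff (h : Blocks p) {i : ι} {s : Finset ι} : p i ⊆ un p s ↔ i ∈ s := by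
  constructor
  · intro hs
    obtain ⟨x, hx⟩ := h.ne i
    exact (h.mem_iff hx).1 (hs hx)
  · exact fun hs => subset_un p hs

theorem un_subset_un (h : Blocks p) {s t : Finset ι} : un p s ⊆ un p t ↔ s ⊆ t := by
  rw [un_subset_iff]
  exact ⟨fun hs i hi => h.subset_iff.1 (hs i hi), fun hs i hi => h.subset_iff.2 (hs hi)⟩

theorem un_inj (h : Blocks p) {s t : Finset ι} : un p s = un p t ↔ s = t := by
  constructor
  · intro hs
    exact Finset.Subset.antisymm (h.un_subset_un.1 hs.le) (h.un_subset_un.1 hs.ge)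
  · rintro rfl
    rfl

theorem un_injective (h : Blocks p) : Function.Injective (un p) := fun _ _ hs => h.un_inj.1 hs

theorem un_nonempty (h : Blocks p) {s : Finset ι} : (un p s).Nonempty ↔ s.Nonempty := by
  constructor
  · rintro ⟨x, hx⟩
    obtain ⟨i, hi, _⟩ := mem_un.1 hx
    exact ⟨i, hi⟩
  · rintro ⟨i, hi⟩
    obtain ⟨x, hx⟩ := h.ne i
    exact ⟨x, mem_un.2 ⟨i, hi, hx⟩⟩

theorem disjoint_un (h : Blocks p) {s t : Finset ι} : Disjoint (un p s) (un p t) ↔ Disjoint s t := by
  rw [Finset.disjoint_left, Finset.disjoint_left]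
  constructor
  · intro hd i hs ht
    obtain ⟨x, hx⟩ := h.ne i
    exact hd (mem_un.2 ⟨i, hs, hx⟩) (mem_un.2 ⟨i, ht, hx⟩)
  · intro hd x hs ht
    obtain ⟨i, hi, hx⟩ := mem_un.1 hs
    exact hd hi ((h.mem_iff hx).1 ht)

theorem un_inter [DecidableEq ι] (h : Blocks p) (s t : Finset ι) :
    un p (s ∩ t) = un p s ∩ un p t := by
  ext x
  rw [Finset.mem_inter, mem_un]
  constructor
  · rintro ⟨i, hi, hx⟩
    rw [Finset.mem_inter] at hi
    exact ⟨mem_un.2 ⟨i, hi.1, hx⟩, mem_un.2 ⟨i, hi.2, hx⟩⟩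
  · rintro ⟨hs, ht⟩
    obtain ⟨i, hi, hx⟩ := mem_un.1 hs
    exact ⟨i, Finset.mem_inter.2 ⟨hi, (h.mem_iff hx).1 ht⟩, hx⟩

theorem un_sdiff [DecidableEq ι] (h : Blocks p) (s t : Finset ι) :
    un p (s \ t) = un p s \ un p t := by
  ext x
  rw [Finset.mem_sdiff, mem_un]
  constructor
  · rintro ⟨i, hi, hx⟩
    rw [Finset.mem_sdiff] at hi
    exact ⟨mem_un.2 ⟨i, hi.1, hx⟩, fun ht => hi.2 ((h.mem_iff hx).1 ht)⟩
  · rintro ⟨hs, ht⟩
    obtain ⟨i, hi, hx⟩ := mem_un.1 hs
    exact ⟨i, Finset.mem_sdiff.2 ⟨hi, fun h' => ht ((h.mem_iff hx).2 h')⟩, hx⟩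

theorem comp [DecidableEq ι] (h : Blocks p) {q : κ → Finset ι} (hq : Blocks q) :
    Blocks (fun k => un p (q k)) where
  ne k := h.un_nonempty.2 (hq.ne k)
  dj i j hij := h.disjoint_un.2 (hq.dj i j hij)

theorem singletons : Blocks (fun i : α => ({i} : Finset α)) where
  ne i := Finset.singleton_nonempty i
  dj i j hij := by simpa using hij

theorem of_injective (f : ι → α) (hf : Function.Injective f) :
    Blocks (fun i : ι => ({f i} : Finset α)) where
  ne i := Finset.singleton_nonempty _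
  dj i j hij := by simpa using fun h => hij (hf h)

end Blocks

end un

/-! ### restriction -/

theorem mem_restr {G : Set (Finset α)} {f g : Finset α} : g ∈ restr G f ↔ g ∈ G ∧ g ⊆ f := Iff.rfl

theorem restr_restr {G : Set (Finset α)} {f f' : Finset α} (h : f' ⊆ f) :
    restr (restr G f) f' = restr G f' := by
  ext g
  simp only [mem_restr]
  exact ⟨fun hg => ⟨hg.1.1, hg.2⟩, fun hg => ⟨⟨hg.1, hg.2.trans h⟩, hg.2⟩⟩

theorem Free.mono [DecidableEq α] {n : ℕ} {G G' : Set (Finset α)} (h : Free n G) (hs : G' ⊆ G) :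
    Free n G' := by
  intro A hA
  obtain ⟨s, hs1, hs2⟩ := h A hA
  exact ⟨s, hs1, fun h' => hs2 (hs h')⟩

/-! ### lifting -/

section lift
variable [DecidableEq α] [DecidableEq ι]

theorem mem_lift {p : ι → Finset α} {G : Set (Finset ι)} {x : Finset α} :
    x ∈ lift p G ↔ ∃ g ∈ G, un p g = x := Iff.rfl

theorem un_mem_lift {p : ι → Finset α} (h : Blocks p) {G : Set (Finset ι)} {g : Finset ι} :
    un p g ∈ lift p G ↔ g ∈ G := by
  constructor
  · rintro ⟨g', hg', he⟩
    rwa [h.un_inj.1 he] at hg'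
  · exact fun hg => ⟨g, hg, rfl⟩

theorem restr_lift {p : ι → Finset α} (h : Blocks p) (G : Set (Finset ι)) (f : Finset ι) :
    restr (lift p G) (un p f) = lift p (restr G f) := by
  ext x
  constructor
  · rintro ⟨⟨g, hg, rfl⟩, hx⟩
    exact ⟨g, ⟨hg, h.un_subset_un.1 hx⟩, rfl⟩
  · rintro ⟨g, ⟨hg, hs⟩, rfl⟩
    exact ⟨⟨g, hg, rfl⟩, h.un_subset_un.2 hs⟩

theorem lift_lift (p : ι → Finset α) [DecidableEq κ] (q : κ → Finset ι) (G : Set (Finset κ)) :
    lift p (lift q G) = lift (fun k => un p (q k)) G := by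
  ext x
  constructor
  · rintro ⟨_, ⟨g, hg, rfl⟩, rfl⟩
    exact ⟨g, hg, un_un p q g⟩
  · rintro ⟨g, hg, rfl⟩
    exact ⟨un q g, ⟨g, hg, rfl⟩, (un_un p q g).symm⟩

theorem free_lift {p : ι → Finset α} (h : Blocks p) {n : ℕ} {G : Set (Finset ι)} (hG : Free n G) :
    Free n (lift p G) := by
  intro A hA
  by_contra hcon
  push Not at hcon
  have h1 : ∀ i, ∃ g ∈ G, un p g = A i := by
    intro i
    have := hcon {i} (Finset.singleton_nonempty i)
    rw [un_singleton] at this
    exact this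
  choose g hg hgA using h1
  have hblk : Blocks g := by
    refine ⟨fun i => ?_, fun i j hij => ?_⟩
    · rw [← h.un_nonempty, hgA]
      exact hA.ne i
    · rw [← h.disjoint_un, hgA, hgA]
      exact hA.dj i j hij
  obtain ⟨s, hs1, hs2⟩ := hG g hblk
  apply hs2
  have h2 := hcon s hs1
  have h3 : un A s = un p (un g s) := by
    rw [← un_un]
    congr 1
    funext i
    exact (hgA i).symm
  rw [h3, un_mem_lift h] at h2
  exact h2

theorem conf_lift {p : ι → Finset α} (h : Blocks p) {n L : ℕ} {χ : Set (Finset α) → C} {c : C}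
    {Δ : Set (Finset (Fin L))} {e : Fin L → Finset ι} {G : Set (Finset ι)}
    (hc : Conf n L (fun H => χ (lift p H)) c Δ e G) :
    Conf n L χ c Δ (fun i => un p (e i)) (lift p G) where
  blocks := h.comp hc.blocks
  emp := by
    rintro ⟨g, hg, he⟩
    have : g = ∅ := by
      by_contra hne
      have := h.un_nonempty.2 (Finset.nonempty_iff_ne_empty.2 hne)
      rw [he] at this
      simp at this
    exact hc.emp (this ▸ hg)
  mem σ hσ := by
    rw [un_un, un_mem_lift h]
    exact hc.mem σ hσ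
  free σ hσ := by
    rw [un_un, restr_lift h]
    exact free_lift h (hc.free σ hσ)
  col σ hσ := by
    rw [un_un, restr_lift h]
    exact hc.col σ hσ

theorem hasConf_lift {p : ι → Finset α} (h : Blocks p) {n L : ℕ} {χ : Set (Finset α) → C} {c : C}
    {Δ : Set (Finset (Fin L))} (hc : HasConf n L (fun H => χ (lift p H)) c Δ) :
    HasConf n L χ c Δ := by
  obtain ⟨e, G, hc⟩ := hc
  exact ⟨_, _, conf_lift h hc⟩

end lift

theorem Conf.mono [DecidableEq α] {n L : ℕ} {χ : Set (Finset α) → C} {c : C}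
    {Δ Δ' : Set (Finset (Fin L))} {e : Fin L → Finset α} {G : Set (Finset α)}
    (hc : Conf n L χ c Δ e G) (hs : Δ' ⊆ Δ) : Conf n L χ c Δ' e G where
  blocks := hc.blocks
  emp := hc.emp
  mem σ hσ := hc.mem σ (hs hσ)
  free σ hσ := hc.free σ (hs hσ)
  col σ hσ := hc.col σ (hs hσ)

theorem HasConf.mono [DecidableEq α] {n L : ℕ} {χ : Set (Finset α) → C} {c : C}
    {Δ Δ' : Set (Finset (Fin L))} (hc : HasConf n L χ c Δ) (hs : Δ' ⊆ Δ) :
    HasConf n L χ c Δ' := by
  obtain ⟨e, G, hc⟩ := hc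
  exact ⟨e, G, hc.mono hs⟩

/-- configurations and injective changes of colours -/
theorem hasConf_of_comp [DecidableEq α] {C' : Type*} {n L : ℕ} {χ : Set (Finset α) → C} {c : C}
    (f : C → C') (hf : Function.Injective f) {Δ : Set (Finset (Fin L))}
    (hc : HasConf n L (fun H => f (χ H)) (f c) Δ) : HasConf n L χ c Δ := by
  obtain ⟨e, G, hc⟩ := hc
  exact ⟨e, G, hc.blocks, hc.emp, hc.mem, hc.free, fun σ hσ => hf (hc.col σ hσ)⟩

end Pool.SubSum
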