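import Mathlib

/-!
Combinatorial part of the construction for `n = 2`: digit sequences `ℕ →₀ ℕ`, the three classes
`PP`, `QQ`, `RR`, and the proof that their union contains no three elements with all seven sums.
-/

set_option autoImplicit false

namespace Pool.Agent.MP_abb0cc_co

open Finset

/-- Evaluation of a finitely supported digit sequence in base `32`. -/
noncomputable def val (f : ℕ →₀ ℕ) : ℕ := f.sum (fun i a => a * 32 ^ i)

theorem val_add (f g : ℕ →₀ ℕ) : val (f + g) = val f + val g := by
  unfold val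
  exact Finsupp.sum_add_index' (by simp) (by intros; ring)

theorem val_eq_range (f : ℕ →₀ ℕ) (N : ℕ) (h : ∀ i, N ≤ i → f i = 0) :
    val f = ∑ i ∈ range N, f i * 32 ^ i := by
  unfold val
  refine Finsupp.sum_of_support_subset f ?_ _ (by simp)
  intro i hi
  rw [Finsupp.mem_support_iff] at hi
  rw [mem_range]
  by_contra hc
  exact hi (h i (not_lt.mp hc))

theorem digits_inj (N : ℕ) : ∀ f g : ℕ → ℕ, (∀ i, f i < 32) → (∀ i, g i < 32) →
    ∑ i ∈ range N, f i * 32 ^ i = ∑ i ∈ range N, g i * 32 ^ i → ∀ i < N, f i = g i := by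
  induction N with
  | zero => intro f g _ _ _ i hi; omega
  | succ N ih =>
    intro f g hf hg h i hi
    rw [sum_range_succ', sum_range_succ'] at h
    have e : ∀ f : ℕ → ℕ, ∑ k ∈ range N, f (k + 1) * 32 ^ (k + 1)
        = 32 * ∑ k ∈ range N, f (k + 1) * 32 ^ k := by
      intro f
      rw [mul_sum]
      refine sum_congr rfl ?_
      intro k _
      ring
    rw [e f, e g] at h
    have h1 := hf 0
    have h2 := hg 0
    have h0 : f 0 = g 0 := by omega
    have h3 := ih (fun k => f (k + 1)) (fun k => g (k + 1)) (fun k => hf _) (fun k => hg _)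
      (by omega)
    rcases Nat.eq_zero_or_pos i with rfl | hpos
    · exact h0
    · have := h3 (i - 1) (by omega)
      simpa [Nat.sub_add_cancel hpos] using this

theorem val_inj (f g : ℕ →₀ ℕ) (hf : ∀ i, f i < 32) (hg : ∀ i, g i < 32)
    (h : val f = val g) : f = g := by
  obtain ⟨N, hN⟩ : ∃ N, ∀ i, N ≤ i → f i = 0 ∧ g i = 0 := by
    refine ⟨(f.support ∪ g.support).sup id + 1, ?_⟩
    intro i hi
    constructor
    · by_contra hc
      have : i ≤ (f.support ∪ g.support).sup id :=
        le_sup (f := id) (mem_union_left _ (Finsupp.mem_support_iff.mpr hc))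
      omega
    · by_contra hc
      have : i ≤ (f.support ∪ g.support).sup id :=
        le_sup (f := id) (mem_union_right _ (Finsupp.mem_support_iff.mpr hc))
      omega
  rw [val_eq_range f N (fun i hi => (hN i hi).1), val_eq_range g N (fun i hi => (hN i hi).2)] at h
  have := digits_inj N f g hf hg h
  ext i
  by_cases hi : i < N
  · exact this i hi
  · rw [(hN i (not_lt.mp hi)).1, (hN i (not_lt.mp hi)).2]

/-- The sign of a position: `1` at even positions, `-1` at odd ones. -/
def sg (i : ℕ) : ℤ := if Even i then 1 else -1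

/-- Signed digit sum. -/
noncomputable def m (f : ℕ →₀ ℕ) : ℤ := f.sum (fun i a => (a : ℤ) * sg i)

theorem m_add (f g : ℕ →₀ ℕ) : m (f + g) = m f + m g := by
  unfold m
  refine Finsupp.sum_add_index' (by simp) ?_
  intro i a b
  push_cast
  ring

theorem m_zero : m 0 = 0 := by simp [m]

theorem m_single (i a : ℕ) : m (Finsupp.single i a) = a * sg i := by simp [m]

/-- First class: digits `1` and `2`, the first nonzero digit is a `2`, after it come the digits
`1` (of signed sum `2`), and after those the other digits `2`. -/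
def PP (x : ℕ →₀ ℕ) : Prop :=
  ∃ y z : ℕ →₀ ℕ, x = y + 2 • z ∧ (∀ j, y j + z j ≤ 1) ∧ m y = 2 ∧
    ∃ i, z i = 1 ∧ (∀ j < i, y j = 0 ∧ z j = 0) ∧
      ∀ j k, y j = 1 → z k = 1 → k ≠ i → j < k

/-- Second class: one digit `4`, all other nonzero digits are `2`. -/
def QQ (x : ℕ →₀ ℕ) : Prop := ∃ i, x i = 4 ∧ ∀ j, j ≠ i → x j = 0 ∨ x j = 2

/-- Third class: two digits `4`, all other nonzero digits are `2`. -/
def RR (x : ℕ →₀ ℕ) : Prop :=
  ∃ i j, i ≠ j ∧ x i = 4 ∧ x j = 4 ∧ ∀ k, k ≠ i → k ≠ j → x k = 0 ∨ x k = 2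

theorem PP_le {x : ℕ →₀ ℕ} (h : PP x) (j : ℕ) : x j ≤ 2 := by
  obtain ⟨y, z, rfl, h1, _⟩ := h
  have := h1 j
  simp only [Finsupp.coe_add, Finsupp.coe_smul, Pi.add_apply, Pi.smul_apply, smul_eq_mul]
  omega

theorem PP_odd {x : ℕ →₀ ℕ} (h : PP x) : ∃ j, x j = 1 := by
  obtain ⟨y, z, rfl, h1, h2, _⟩ := h
  have hy : y ≠ 0 := by
    rintro rfl
    rw [m_zero] at h2
    norm_num at h2
  obtain ⟨j, hj⟩ := Finsupp.ne_iff.mp hy
  refine ⟨j, ?_⟩
  have := h1 j
  simp only [Finsupp.coe_add, Finsupp.coe_smul, Pi.add_apply, Pi.smul_apply, smul_eq_mul,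
    Finsupp.coe_zero, Pi.zero_apply, ne_eq] at hj ⊢
  omega

theorem QQ_even {x : ℕ →₀ ℕ} (h : QQ x) (j : ℕ) : x j = 0 ∨ x j = 2 ∨ x j = 4 := by
  obtain ⟨i, h1, h2⟩ := h
  by_cases hj : j = i
  · subst hj; omega
  · have := h2 j hj; omega

theorem RR_even {x : ℕ →₀ ℕ} (h : RR x) (j : ℕ) : x j = 0 ∨ x j = 2 ∨ x j = 4 := by
  obtain ⟨i, i', _, h1, h2, h3⟩ := h
  by_cases hj : j = i
  · subst hj; omega
  · by_cases hj' : j = i'
    · subst hj'; omega
    · have := h3 j hj hj'; omega

theorem not_PP_add_PP {x x' : ℕ →₀ ℕ} (h : PP x) (h' : PP x') : ¬ PP (x + x') := by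
  intro h''
  -- the core case
  have core : ∀ y z y' z' y'' z'' : ℕ →₀ ℕ,
      y + 2 • z + (y' + 2 • z') = y'' + 2 • z'' →
      (∀ j, y j + z j ≤ 1) → (∀ j, y' j + z' j ≤ 1) → (∀ j, y'' j + z'' j ≤ 1) →
      m y = 2 → m y' = 2 → m y'' = 2 → ∀ i i' i'', i < i' → z i = 1 → z' i' = 1 → z'' i'' = 1 →
      (∀ j < i', y' j = 0 ∧ z' j = 0) → (∀ j < i'', y'' j = 0 ∧ z'' j = 0) →
      (∀ j k, y'' j = 1 → z'' k = 1 → k ≠ i'' → j < k) → False := by
    intro y z y' z' y'' z'' he b b' b'' hm hm' hm'' i i' i'' hii hzi hzi' hzi'' hf' hf'' ho''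
    have he' : ∀ j, y j + 2 * z j + (y' j + 2 * z' j) = y'' j + 2 * z'' j := by
      intro j
      have := DFunLike.congr_fun he j
      simpa using this
    have hne : i' ≠ i'' := by
      rintro rfl
      have e1 := he' i
      have e2 := hf'' i hii
      omega
    have e3 := he' i'
    have e4 := b i'
    have e5 := b' i'
    have e6 := b'' i'
    have hz'' : z'' i' = 1 := by omega
    have key : y'' + y' = y := by
      ext j
      simp only [Finsupp.coe_add, Pi.add_apply]
      have a1 := he' j
      have a2 := b j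
      have a3 := b' j
      have a4 := b'' j
      by_cases hj : y'' j = 1
      · have := ho'' j i' hj hz'' hne
        have a5 := hf' j this
        omega
      · omega
    have := m_add y'' y'
    rw [key] at this
    omega
  obtain ⟨y, z, rfl, b, hm, i, hzi, hf, -⟩ := h
  obtain ⟨y', z', rfl, b', hm', i', hzi', hf', -⟩ := h'
  obtain ⟨y'', z'', he, b'', hm'', i'', hzi'', hf'', ho''⟩ := h''
  rcases lt_trichotomy i i' with hlt | rfl | hlt
  · exact core y z y' z' y'' z'' he b b' b'' hm hm' hm'' i i' i'' hlt hzi hzi' hzi'' hf' hf'' ho''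
  · have := DFunLike.congr_fun he i
    simp only [Finsupp.coe_add, Finsupp.coe_smul, Pi.add_apply, Pi.smul_apply, smul_eq_mul] at this
    have := b'' i
    omega
  · exact core y' z' y z y'' z'' (by rw [← he]; abel) b' b b'' hm' hm hm'' i' i i'' hlt hzi' hzi
      hzi'' hf hf'' ho''

/-- The set of digit sequences used in the construction. -/
def XX (x : ℕ →₀ ℕ) : Prop := PP x ∨ QQ x ∨ RR x

theorem XX_le {x : ℕ →₀ ℕ} (h : XX x) (j : ℕ) : x j ≤ 4 := by
  rcases h with h | h | h
  · have := PP_le h j; omega
  · have := QQ_even h j; omega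
  · have := RR_even h j; omega

theorem not_PP_of_four {x : ℕ →₀ ℕ} (h : QQ x ∨ RR x) : ¬ PP x := by
  intro hP
  obtain ⟨j, hj⟩ := PP_odd hP
  rcases h with h | h
  · have := QQ_even h j; omega
  · have := RR_even h j; omega

theorem not_QQ_RR {x : ℕ →₀ ℕ} (h : QQ x) : ¬ RR x := by
  rintro ⟨i, j, hij, h1, h2, _⟩
  obtain ⟨k, _, h3⟩ := h
  by_cases hi : i = k
  · have := h3 j (by rintro rfl; exact hij hi)
    omega
  · have := h3 i hi
    omega

theorem add_split {x y : ℕ →₀ ℕ} (hx : XX x) (hy : XX y) (hs : XX (x + y)) :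
    (QQ x ∧ QQ y ∧ RR (x + y)) ∨ (PP x ∧ PP y ∧ (QQ (x + y) ∨ RR (x + y))) := by
  -- mixed case is impossible
  have mixed : ∀ x y : ℕ →₀ ℕ, PP x → (QQ y ∨ RR y) → ¬ XX (x + y) := by
    intro x y hx hy hs
    obtain ⟨j, hj⟩ := PP_odd hx
    have hy' : ∀ j, y j = 0 ∨ y j = 2 ∨ y j = 4 := by
      intro j
      rcases hy with hy | hy
      · exact QQ_even hy j
      · exact RR_even hy j
    obtain ⟨i, hi⟩ : ∃ i, y i = 4 := by
      rcases hy with ⟨i, hi, _⟩ | ⟨i, _, _, hi, _⟩
      · exact ⟨i, hi⟩
      · exact ⟨i, hi⟩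
    rcases hs with h | h | h
    · have := PP_le h i
      simp only [Finsupp.coe_add, Pi.add_apply] at this
      omega
    · have := QQ_even h j
      have := hy' j
      simp only [Finsupp.coe_add, Pi.add_apply] at *
      omega
    · have := RR_even h j
      have := hy' j
      simp only [Finsupp.coe_add, Pi.add_apply] at *
      omega
  by_cases hxP : PP x
  · by_cases hyP : PP y
    · right
      refine ⟨hxP, hyP, ?_⟩
      rcases hs with h | h
      · exact absurd h (not_PP_add_PP hxP hyP)
      · exact h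
    · have : QQ y ∨ RR y := by
        rcases hy with h | h
        · exact absurd h hyP
        · exact h
      exact absurd hs (mixed x y hxP this)
  · have hx' : QQ x ∨ RR x := by
      rcases hx with h | h
      · exact absurd h hxP
      · exact h
    by_cases hyP : PP y
    · rw [add_comm] at hs
      exact absurd hs (mixed y x hyP hx')
    · have hy' : QQ y ∨ RR y := by
        rcases hy with h | h
        · exact absurd h hyP
        · exact h
      left
      have ex : ∀ j, x j = 0 ∨ x j = 2 ∨ x j = 4 := by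
        intro j
        rcases hx' with h | h
        · exact QQ_even h j
        · exact RR_even h j
      have ey : ∀ j, y j = 0 ∨ y j = 2 ∨ y j = 4 := by
        intro j
        rcases hy' with h | h
        · exact QQ_even h j
        · exact RR_even h j
      have hs' : QQ (x + y) ∨ RR (x + y) := by
        rcases hs with h | h
        · obtain ⟨j, hj⟩ := PP_odd h
          have := ex j
          have := ey j
          simp only [Finsupp.coe_add, Pi.add_apply] at hj
          omega
        · exact h
      have es : ∀ j, x j + y j ≤ 4 := by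
        intro j
        have := XX_le hs j
        simpa using this
      -- three distinct positions cannot all carry a four in the sum
      have three : ∀ i j k : ℕ, i ≠ j → i ≠ k → j ≠ k → x i + y i = 4 → x j + y j = 4 →
          x k + y k = 4 → False := by
        intro i j k hij hik hjk h1 h2 h3
        rcases hs' with ⟨l, _, h⟩ | ⟨l, l', _, _, _, h⟩
        · by_cases hil : i = l
          · have := h j (by rintro rfl; exact hij hil)
            simp only [Finsupp.coe_add, Pi.add_apply] at this
            omega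
          · have := h i hil
            simp only [Finsupp.coe_add, Pi.add_apply] at this
            omega
        · have a1 := h i
          have a2 := h j
          have a3 := h k
          simp only [Finsupp.coe_add, Pi.add_apply, h1, h2, h3] at a1 a2 a3
          omega
      rcases hx' with hxQ | ⟨i, j, hij, hi, hj, _⟩
      · rcases hy' with hyQ | ⟨i, j, hij, hi, hj, _⟩
        · refine ⟨hxQ, hyQ, ?_⟩
          rcases hs' with ⟨l, _, h⟩ | h
          · exfalso
            obtain ⟨i, hi, _⟩ := hxQ
            obtain ⟨j, hj, _⟩ := hyQ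
            have e1 := es i
            have e2 := es j
            have hij : i ≠ j := by rintro rfl; omega
            have a1 := h i
            have a2 := h j
            simp only [Finsupp.coe_add, Pi.add_apply] at a1 a2
            omega
          · exact h
        · exfalso
          obtain ⟨k, hk, _⟩ := hxQ
          have e1 := es i
          have e2 := es j
          have e3 := es k
          exact three i j k hij (by rintro rfl; omega) (by rintro rfl; omega) (by omega) (by omega)
            (by omega)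
      · exfalso
        obtain ⟨k, hk⟩ : ∃ i, y i = 4 := by
          rcases hy' with ⟨i, hi, _⟩ | ⟨i, _, _, hi, _⟩
          · exact ⟨i, hi⟩
          · exact ⟨i, hi⟩
        have e1 := es i
        have e2 := es j
        have e3 := es k
        exact three i j k hij (by rintro rfl; omega) (by rintro rfl; omega) (by omega) (by omega)
          (by omega)

/-- No three elements have all seven sums in the set. -/
theorem three_free {x y z : ℕ →₀ ℕ} (hx : XX x) (hy : XX y) (hz : XX z) (hxy : XX (x + y))
    (hxz : XX (x + z)) : ¬ XX (x + y + z) := by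
  intro h
  rcases add_split hx hy hxy with ⟨a1, _, a3⟩ | ⟨a1, _, a3⟩
  · rcases add_split hxy hz h with ⟨b1, _, _⟩ | ⟨b1, _, _⟩
    · exact not_QQ_RR b1 a3
    · exact not_PP_of_four (Or.inr a3) b1
  · rcases add_split hxy hz h with ⟨_, b2, _⟩ | ⟨b1, _, _⟩
    · rcases add_split hx hz hxz with ⟨c1, _, _⟩ | ⟨_, c2, _⟩
      · exact not_PP_of_four (Or.inl c1) a1
      · exact not_PP_of_four (Or.inl b2) c2
    · exact not_PP_of_four a3 b1

end Pool.Agent.MP_abb0cc_co
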