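import Pool.Agent.Lib.MP_abb0cc_co.Base

set_option autoImplicit false

namespace Pool.SubSum

/-- the number with base 4 digits 0, 1 and digit set `A` -/
def S4 (A : Finset ℕ) : ℕ := ∑ a ∈ A, 4 ^ a

private theorem digits_unique (N : ℕ) : ∀ f g : ℕ → ℕ, (∀ a, f a ≤ 3) → (∀ a, g a ≤ 3) →
    ∑ a ∈ Finset.range N, f a * 4 ^ a = ∑ a ∈ Finset.range N, g a * 4 ^ a →
    ∀ a < N, f a = g a := by
  induction N with
  | zero => intro f g _ _ _ a ha; omega
  | succ N ih =>
    intro f g hf hg h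
    rw [Finset.sum_range_succ', Finset.sum_range_succ'] at h
    have e : ∀ u : ℕ → ℕ, ∑ a ∈ Finset.range N, u (a + 1) * 4 ^ (a + 1) =
        4 * ∑ a ∈ Finset.range N, u (a + 1) * 4 ^ a := by
      intro u
      rw [Finset.mul_sum]
      refine Finset.sum_congr rfl fun a _ => ?_
      ring
    rw [e f, e g, pow_zero, mul_one, mul_one] at h
    have hf0 := hf 0
    have hg0 := hg 0
    have h0 : f 0 = g 0 := by omega
    have h1 : ∑ a ∈ Finset.range N, f (a + 1) * 4 ^ a =
        ∑ a ∈ Finset.range N, g (a + 1) * 4 ^ a := by omega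
    have h2 := ih (fun a => f (a + 1)) (fun a => g (a + 1)) (fun a => hf _) (fun a => hg _) h1
    intro a ha
    rcases Nat.eq_zero_or_pos a with rfl | hpos
    · exact h0
    · obtain ⟨b, rfl⟩ : ∃ b, a = b + 1 := ⟨a - 1, by omega⟩
      exact h2 b (by omega)

private theorem digits_eq (A : Finset ℕ) (N : ℕ) (h : ∀ a ∈ A, a < N) :
    S4 A = ∑ a ∈ Finset.range N, (if a ∈ A then 1 else 0) * 4 ^ a := by
  unfold S4
  simp only [ite_mul, one_mul, zero_mul]
  rw [← Finset.sum_filter]
  refine Finset.sum_congr ?_ fun _ _ => rfl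
  ext a
  rw [Finset.mem_filter, Finset.mem_range]
  exact ⟨fun ha => ⟨h a ha, ha⟩, fun ha => ha.2⟩

private theorem digits_bound (A : Finset ℕ) : ∃ N, ∀ a ∈ A, a < N :=
  ⟨A.sup id + 1, fun a ha => Nat.lt_succ_of_le (Finset.le_sup (f := id) ha)⟩

/-- if `S4 A + S4 B = S4 C` then `A`, `B` are disjoint and `C = A ∪ B` -/
theorem S4_add_eq {A B C : Finset ℕ} (h : S4 A + S4 B = S4 C) :
    Disjoint A B ∧ A ∪ B = C := by
  obtain ⟨N, hN⟩ := digits_bound (A ∪ B ∪ C)
  have hA : ∀ a ∈ A, a < N := fun a ha =>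
    hN a (Finset.mem_union_left _ (Finset.mem_union_left _ ha))
  have hB : ∀ a ∈ B, a < N := fun a ha =>
    hN a (Finset.mem_union_left _ (Finset.mem_union_right _ ha))
  have hC : ∀ a ∈ C, a < N := fun a ha => hN a (Finset.mem_union_right _ ha)
  rw [digits_eq A N hA, digits_eq B N hB, digits_eq C N hC, ← Finset.sum_add_distrib] at h
  simp only [← add_mul] at h
  have h1 := digits_unique N (fun a => (if a ∈ A then 1 else 0) + if a ∈ B then 1 else 0)
    (fun a => if a ∈ C then 1 else 0)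
    (fun a => by by_cases hA' : a ∈ A <;> by_cases hB' : a ∈ B <;> simp [hA', hB'])
    (fun a => by by_cases hC' : a ∈ C <;> simp [hC']) h
  have h2 : ∀ a, ((if a ∈ A then 1 else 0) + if a ∈ B then 1 else 0) =
      (if a ∈ C then 1 else 0 : ℕ) := by
    intro a
    by_cases ha : a < N
    · exact h1 a ha
    · rw [if_neg fun h => ha (hA a h), if_neg fun h => ha (hB a h), if_neg fun h => ha (hC a h)]
  constructor
  · rw [Finset.disjoint_left]
    intro a ha hb
    have := h2 a
    rw [if_pos ha, if_pos hb] at this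
    split_ifs at this
    · omega
  · ext a
    have := h2 a
    rw [Finset.mem_union]
    by_cases ha : a ∈ A <;> by_cases hb : a ∈ B <;> by_cases hc : a ∈ C <;>
      simp [ha, hb, hc] at this ⊢

theorem S4_injective : Function.Injective S4 := by
  intro A B h
  have h1 : S4 A + S4 ∅ = S4 B := by
    rw [h]
    simp [S4]
  have h2 := (S4_add_eq h1).2
  rwa [Finset.union_empty] at h2

theorem S4_pos {A : Finset ℕ} (h : A.Nonempty) : 0 < S4 A := by
  unfold S4
  exact Finset.sum_pos (fun a _ => by positivity) h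

theorem S4_lt {A B : Finset ℕ} (h : ∀ a ∈ A, ∀ b ∈ B, a < b) (hB : B.Nonempty) : S4 A < S4 B := by
  obtain ⟨b, hb⟩ := hB
  calc S4 A < 4 ^ b := Nat.geomSum_lt (by norm_num) fun a ha => h a ha b hb
    _ ≤ S4 B := Finset.single_le_sum (f := fun a => 4 ^ a) (fun _ _ => Nat.zero_le _) hb

theorem S4_un {ι : Type*} (A : ι → Finset ℕ) (s : Finset ι)
    (h : ∀ i ∈ s, ∀ j ∈ s, i ≠ j → Disjoint (A i) (A j)) : S4 (un A s) = ∑ i ∈ s, S4 (A i) := by
  unfold S4 un
  exact Finset.sum_biUnion fun i hi j hj hij => h i hi j hj hij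

end Pool.SubSum
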