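import Pool.Agent.Lib.MP_abb0cc_co.PartiteStep

set_option autoImplicit false
set_option linter.unusedSectionVars false

namespace Pool.SubSum

theorem supp_nonempty_of {ι V V' : Type} [Fintype ι] {F : Set (ι → Option V)}
    {F' : Set (ι → Option V')} (hF : ∀ U ∈ F, (supp U).Nonempty)
    (h : ∀ U' ∈ F', ∃ U ∈ F, supp U' = supp U) : ∀ U ∈ F', (supp U).Nonempty := by
  intro U' hU'
  obtain ⟨U, hU, he⟩ := h U' hU'
  rw [he]
  exact hF U hU

theorem mapT_comp {ι V V' V'' : Type} (φ : ι → V → V') (ψ : ι → V' → V'') (U : ι → Option V) :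
    mapT ψ (mapT φ U) = mapT (fun i v => ψ i (φ i v)) U := by
  funext i
  unfold mapT
  cases U i <;> rfl

theorem mapT_id {ι V : Type} (U : ι → Option V) : mapT (fun _ v => v) U = U := by
  funext i
  unfold mapT
  cases U i <;> rfl

/-- **Partite theorem.** -/
theorem partite_all (ι : Type) [Fintype ι] [DecidableEq ι] (V : Type) [Finite V]
    (F : Set (ι → Option V)) (hF : ∀ U ∈ F, (supp U).Nonempty) (κ : Type) [Finite κ] :
    ∃ (V' : Type) (_ : Finite V') (F' : Set (ι → Option V')),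
      (∀ U' ∈ F', ∃ U ∈ F, supp U' = supp U ∧ typ F' U' = typ F U) ∧
      ∀ c : (ι → Option V') → κ, ∃ φ : ι → V → V',
        (∀ U ∈ F, mapT φ U ∈ F') ∧
        ∃ γ : Set (Finset ι) → κ, ∀ U ∈ F, c (mapT φ U) = γ (typ F U) := by
  classical
  have key : ∀ S : Finset (Set (Finset ι)),
      ∃ (V' : Type) (_ : Finite V') (F' : Set (ι → Option V')),
      (∀ U' ∈ F', ∃ U ∈ F, supp U' = supp U ∧ typ F' U' = typ F U) ∧
      ∀ c : (ι → Option V') → κ, ∃ φ : ι → V → V',
        (∀ U ∈ F, mapT φ U ∈ F' ∧ typ F' (mapT φ U) = typ F U) ∧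
        ∃ γ : Set (Finset ι) → κ, ∀ U ∈ F, typ F U ∈ S → c (mapT φ U) = γ (typ F U) := by
    intro S
    induction S using Finset.induction_on with
    | empty =>
      refine ⟨V, inferInstance, F, fun U hU => ⟨U, hU, rfl, rfl⟩, fun c => ?_⟩
      refine ⟨fun _ v => v, fun U hU => ?_, fun _ => c (fun _ => none), fun U _ h => ?_⟩
      · rw [mapT_id]
        exact ⟨hU, rfl⟩
      · exact absurd h (Finset.notMem_empty _)
    | insert b S hb ih =>
      obtain ⟨V₁, hV₁, F₁, h1, h2⟩ := ih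
      obtain ⟨V₂, hV₂, F₂, h3, h4⟩ := partite_step ι V₁ F₁
        (supp_nonempty_of hF (fun U' hU' => by
          obtain ⟨U, hU, he, _⟩ := h1 U' hU'
          exact ⟨U, hU, he⟩)) κ b
      refine ⟨V₂, hV₂, F₂, ?_, ?_⟩
      · intro U₂ hU₂
        obtain ⟨U₁, hU₁, he1, he2⟩ := h3 U₂ hU₂
        obtain ⟨U, hU, he3, he4⟩ := h1 U₁ hU₁
        exact ⟨U, hU, he1.trans he3, he2.trans he4⟩
      · intro c
        obtain ⟨ψ, hψ, a, ha⟩ := h4 c
        obtain ⟨φ, hφ, γ, hγ⟩ := h2 (fun U => c (mapT ψ U))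
        refine ⟨fun i v => ψ i (φ i v), ?_, fun T => if T = b then a else γ T, ?_⟩
        · intro U hU
          rw [← mapT_comp]
          obtain ⟨h5, h6⟩ := hφ U hU
          obtain ⟨h7, h8⟩ := hψ _ h5
          exact ⟨h7, h8.trans h6⟩
        · intro U hU hS
          rw [← mapT_comp]
          obtain ⟨h5, h6⟩ := hφ U hU
          show _ = if typ F U = b then a else γ (typ F U)
          by_cases hTb : typ F U = b
          · rw [if_pos hTb]
            exact ha _ h5 (h6.trans hTb)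
          · rw [if_neg hTb]
            exact hγ U hU ((Finset.mem_insert.1 hS).resolve_left hTb)
  have : Fintype (Set (Finset ι)) := Fintype.ofFinite _
  obtain ⟨V', hV', F', h1, h2⟩ := key Finset.univ
  refine ⟨V', hV', F', h1, fun c => ?_⟩
  obtain ⟨φ, hφ, γ, hγ⟩ := h2 c
  exact ⟨φ, fun U hU => (hφ U hU).1, γ, fun U hU => hγ U hU (Finset.mem_univ _)⟩

end Pool.SubSum
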