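import Pool.Agent.Lib.MP_abb0cc_co.TThm
import Pool.Agent.Lib.MP_abb0cc_co.PartiteAll

set_option autoImplicit false

namespace Pool.SubSum

section FamThmAux

variable {ι V : Type}

open Classical in
/-- the graph of a partial transversal -/
private noncomputable def famGr [Fintype ι] [Fintype V] (U : ι → Option V) : Finset (ι × V) :=
  Finset.univ.filter (fun x => U x.1 = some x.2)

private theorem fam_mem_gr [Fintype ι] [Fintype V] {U : ι → Option V} {x : ι × V} :
    x ∈ famGr U ↔ U x.1 = some x.2 := by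
  simp [famGr]

private theorem fam_gr_inj [Fintype ι] [Fintype V] {U W : ι → Option V} (h : famGr U = famGr W) :
    U = W := by
  funext i
  have h1 : ∀ v, U i = some v ↔ W i = some v := by
    intro v
    have := Finset.ext_iff.mp h (i, v)
    rwa [fam_mem_gr, fam_mem_gr] at this
  rcases hU : U i with _ | v
  · rcases hW : W i with _ | w
    · rfl
    · have := (h1 w).2 hW
      rw [hU] at this
      exact absurd this (by simp)
  · exact ((h1 v).1 hU).symm

private theorem fam_supp_mem [Fintype ι] {U : ι → Option V} {i : ι} :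
    i ∈ supp U ↔ ∃ v, U i = some v := by
  simp [supp, Option.isSome_iff_exists]

private theorem fam_eq_rst [Fintype ι] [DecidableEq ι] [Fintype V] {U W : ι → Option V}
    (h : famGr U ⊆ famGr W) : U = rst W (supp U) := by
  funext i
  unfold rst
  split_ifs with hi
  · obtain ⟨v, hv⟩ := fam_supp_mem.1 hi
    have : (i, v) ∈ famGr W := h (fam_mem_gr.2 hv)
    rw [hv]
    exact (fam_mem_gr.1 this).symm
  · rcases hU : U i with _ | v
    · rfl
    · exact absurd (fam_supp_mem.2 ⟨v, hU⟩) hi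

/-- constant partial transversals -/
private def famC [DecidableEq ι] (f : Finset ι) (H : V) : ι → Option V :=
  fun i => if i ∈ f then some H else none

private theorem fam_supp_C [Fintype ι] [DecidableEq ι] (f : Finset ι) (H : V) :
    supp (famC f H) = f := by
  ext i
  rw [fam_supp_mem]
  unfold famC
  constructor
  · rintro ⟨v, hv⟩
    by_contra hi
    rw [if_neg hi] at hv
    exact absurd hv (by simp)
  · intro hi
    exact ⟨H, if_pos hi⟩

private theorem fam_C_inj [Fintype ι] [DecidableEq ι] {f g : Finset ι} {H K : V}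
    (hf : f.Nonempty) (h : famC f H = famC g K) : f = g ∧ H = K := by
  have h1 : f = g := by rw [← fam_supp_C f H, h, fam_supp_C]
  refine ⟨h1, ?_⟩
  obtain ⟨i, hi⟩ := hf
  have h2 := congrFun h i
  unfold famC at h2
  rw [if_pos hi, if_pos (h1 ▸ hi)] at h2
  exact Option.some.inj h2

private theorem fam_rst_C [DecidableEq ι] {f e : Finset ι} (h : e ⊆ f) (H : V) :
    rst (famC f H) e = famC e H := by
  funext i
  unfold rst famC
  split_ifs with h1 h2 h2
  · rfl
  · exact absurd (h h1) h2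
  · rfl

/-- the system of all free partial transversals -/
private def famF0 (n N : ℕ) : Set (Fin N → Option (Set (Finset (Fin N)))) :=
  {U | ∃ (H : Set (Finset (Fin N))) (f : Finset (Fin N)), f ∈ H ∧ f.Nonempty ∧
    Free n (restr H f) ∧ U = famC f H}

private theorem fam_typ (n N : ℕ) (H : Set (Finset (Fin N))) (f : Finset (Fin N))
    (hfree : Free n (restr H f)) :
    typ (famF0 n N) (famC f H) = {e | e.Nonempty ∧ e ⊆ f ∧ e ∈ H} := by
  ext e
  constructor
  · rintro ⟨h1, h2, h3⟩
    rw [fam_supp_C] at h2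
    rw [fam_rst_C h2] at h3
    obtain ⟨K, g, hg, hg1, _, he⟩ := h3
    obtain ⟨h4, h5⟩ := fam_C_inj h1 he
    exact ⟨h1, h2, by rw [h4, h5]; exact hg⟩
  · rintro ⟨h1, h2, h3⟩
    refine ⟨h1, by rwa [fam_supp_C], ?_⟩
    rw [fam_rst_C h2]
    refine ⟨H, e, h3, h1, ?_, rfl⟩
    exact hfree.mono (fun g hg => ⟨hg.1, hg.2.trans h2⟩)

end FamThmAux

theorem fam (n t L : ℕ) (hn : 1 ≤ n) :
    ∃ (V : Type) (_ : Finite V) (_ : DecidableEq V) (F : Set (Finset V)),
      ∅ ∉ F ∧ Free n F ∧
      ∀ c : Finset V → Fin (t + 1), ∃ B : Fin L → Finset V, Blocks B ∧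
        ∃ a, ∀ σ ∈ DL n L, un B σ ∈ F ∧ c (un B σ) = a := by
  classical
  obtain ⟨N, hN⟩ := tthm n hn t L
  have hF0 : ∀ U ∈ famF0 n N, (supp U).Nonempty := by
    rintro U ⟨H, f, -, hf, -, rfl⟩
    rwa [fam_supp_C]
  obtain ⟨V', hV', F', hF', hram⟩ := partite_all (Fin N) (Set (Finset (Fin N))) (famF0 n N) hF0
    (Fin (t + 1))
  haveI : Fintype V' := Fintype.ofFinite V'
  refine ⟨Fin N × V', inferInstance, inferInstance, famGr '' F', ?_, ?_, ?_⟩
  · rintro ⟨U', hU', he⟩
    obtain ⟨U, hU, hs, -⟩ := hF' U' hU'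
    obtain ⟨i, hi⟩ := hF0 U hU
    rw [← hs] at hi
    obtain ⟨v, hv⟩ := fam_supp_mem.1 hi
    have : (i, v) ∈ famGr U' := fam_mem_gr.2 hv
    rw [he] at this
    exact absurd this (Finset.notMem_empty _)
  · intro A hA
    by_contra hcon
    push Not at hcon
    obtain ⟨W, hW, hWg⟩ := hcon Finset.univ Finset.univ_nonempty
    -- the blocks of indices
    set e : Fin (n + 1) → Finset (Fin N) := fun j => (A j).image Prod.fst with he
    have hAW : ∀ j, A j ⊆ famGr W := by
      intro j
      rw [hWg]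
      exact subset_un A (Finset.mem_univ j)
    have hblk : Blocks e := by
      refine ⟨fun j => (hA.ne j).image _, fun j k hjk => ?_⟩
      rw [Finset.disjoint_left]
      intro i hi hi'
      obtain ⟨⟨i1, v⟩, hx, rfl⟩ := Finset.mem_image.1 hi
      obtain ⟨⟨i2, v'⟩, hx', hii⟩ := Finset.mem_image.1 hi'
      have h1 := fam_mem_gr.1 (hAW j hx)
      have h2 := fam_mem_gr.1 (hAW k hx')
      simp only at h1 h2 hii
      subst hii
      rw [h1] at h2
      have h3 := Option.some.inj h2
      subst h3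
      exact (Finset.disjoint_left.mp (hA.dj j k hjk)) hx hx'
    have hsup : ∀ (U : Fin N → Option V') (s : Finset (Fin (n + 1))), famGr U = un A s →
        supp U = un e s := by
      intro U s hU
      ext i
      rw [fam_supp_mem, mem_un]
      constructor
      · rintro ⟨v, hv⟩
        have h1 : (i, v) ∈ un A s := by
          rw [← hU]
          exact fam_mem_gr.2 hv
        obtain ⟨j, hj, hx⟩ := mem_un.1 h1
        exact ⟨j, hj, Finset.mem_image.2 ⟨(i, v), hx, rfl⟩⟩
      · rintro ⟨j, hj, hx⟩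
        obtain ⟨⟨i1, v⟩, hx', rfl⟩ := Finset.mem_image.1 hx
        have h1 : (i1, v) ∈ famGr U := by
          rw [hU]
          exact mem_un.2 ⟨j, hj, hx'⟩
        exact ⟨v, fam_mem_gr.1 h1⟩
    obtain ⟨U0, ⟨H, f, hfH, hf, hfree, rfl⟩, hs0, ht0⟩ := hF' W hW
    obtain ⟨s, hs1, hs2⟩ := hfree e hblk
    apply hs2
    obtain ⟨U, hU, hUg⟩ := hcon s hs1
    have h1 : un e s ∈ typ F' W := by
      refine ⟨hblk.un_nonempty.2 hs1, ?_, ?_⟩
      · rw [hsup W Finset.univ hWg]
        exact un_mono e (Finset.subset_univ s)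
      · rw [← hsup U s hUg, ← fam_eq_rst]
        · exact hU
        · rw [hUg, hWg]
          exact un_mono A (Finset.subset_univ s)
    rw [ht0, fam_typ n N H f hfree] at h1
    exact ⟨h1.2.2, h1.2.1⟩
  · intro c
    obtain ⟨φ, hφ, γ, hγ⟩ := hram (fun U => c (famGr U))
    obtain ⟨a, e, G, hc⟩ := hN γ
    have hmemgr : ∀ (s : Finset (Fin N)) (x : Fin N × V'),
        x ∈ famGr (mapT φ (famC s G)) ↔ x.1 ∈ s ∧ φ x.1 G = x.2 := by
      intro s x
      rw [fam_mem_gr]
      unfold mapT famC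
      split_ifs with h
      · simp [h]
      · simp [h]
    set B : Fin L → Finset (Fin N × V') := fun j => famGr (mapT φ (famC (e j) G)) with hB
    have hunB : ∀ σ, un B σ = famGr (mapT φ (famC (un e σ) G)) := by
      intro σ
      ext x
      rw [hmemgr, mem_un, mem_un]
      constructor
      · rintro ⟨j, hj, hx⟩
        rw [hmemgr] at hx
        exact ⟨⟨j, hj, hx.1⟩, hx.2⟩
      · rintro ⟨⟨j, hj, hx⟩, hx'⟩
        exact ⟨j, hj, (hmemgr _ _).2 ⟨hx, hx'⟩⟩
    refine ⟨B, ⟨fun j => ?_, fun j k hjk => ?_⟩, a, fun σ hσ => ?_⟩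
    · obtain ⟨i, hi⟩ := hc.blocks.ne j
      exact ⟨(i, φ i G), (hmemgr _ _).2 ⟨hi, rfl⟩⟩
    · rw [Finset.disjoint_left]
      intro x hx hx'
      exact (Finset.disjoint_left.mp (hc.blocks.dj j k hjk)) ((hmemgr _ _).1 hx).1
        ((hmemgr _ _).1 hx').1
    · have hne : (un e σ).Nonempty := hc.blocks.un_nonempty.2 hσ.1
      have hmem : famC (un e σ) G ∈ famF0 n N :=
        ⟨G, un e σ, hc.mem σ hσ, hne, hc.free σ hσ, rfl⟩
      rw [hunB]
      refine ⟨⟨_, hφ _ hmem, rfl⟩, ?_⟩
      have h1 := hγ _ hmem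
      rw [fam_typ n N G _ (hc.free σ hσ)] at h1
      rw [h1]
      have h2 : {e' : Finset (Fin N) | e'.Nonempty ∧ e' ⊆ un e σ ∧ e' ∈ G} =
          restr G (un e σ) := by
        ext g
        constructor
        · rintro ⟨_, h3, h4⟩
          exact ⟨h4, h3⟩
        · rintro ⟨h3, h4⟩
          refine ⟨?_, h4, h3⟩
          rw [Finset.nonempty_iff_ne_empty]
          rintro rfl
          exact hc.emp h3
      rw [h2]
      exact hc.col σ hσ

end Pool.SubSum
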