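import Pool.Agent.Lib.MP_abb0cc_co.PhiAB

set_option autoImplicit false
set_option linter.unusedSectionVars false

namespace Pool.SubSum

variable {I α C : Type*} {n L : ℕ} [DecidableEq α] [DecidableEq I]
  {χ : Set (Finset α) → Option C} {Δ : Set (Finset (Fin L))} {σ : Finset (Fin L)}
  {E : I → Finset α} {P : Finset I → Fin L → Finset α} {G : Finset I → Set (Finset α)}

/-- (i) -/
theorem green_conf (hn : 1 ≤ n) (hσ : σ.card ≤ n) (hσ0 : σ.Nonempty) (hσΔ : σ ∉ Δ)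
    (hΔ0 : ∀ τ ∈ Δ, τ.Nonempty) (hdown : ∀ τ ∈ Δ, ∀ τ', τ' ⊆ τ → τ'.Nonempty → τ' ∈ Δ)
    (hΔ : ∀ τ, τ ⊂ σ → τ.Nonempty → τ ∈ Δ)
    (h : Str n χ Δ σ {D | D.Nonempty} E P G) (T : Set (Finset I)) (hT : ∅ ∉ T)
    (hf : Free n T) (J : Finset I) (hJ : J ∈ T) (hTJ : ∀ D ∈ T, D ⊆ J)
    (hcol : χ (Phi σ E P G T) = none) : HasConf n L χ none (insert σ Δ) := by
  have hJ0 : J.Nonempty := ne_of_mem hT hJ
  have hc := h.conf J hJ0
  set F : Set (Finset α) := {g | g ∈ G J ∧ ∃ τ ∈ Δ, g ⊆ un (P J) τ} ∪ Phi σ E P G T with hF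
  -- members of `Phi T` lie in `E_J`
  have hPhiJ : ∀ g ∈ Phi σ E P G T, g ⊆ un E J := by
    rintro g ⟨D, hD, rfl | hg⟩
    · exact un_mono _ (hTJ D hD)
    · exact (Sk_sub h (ne_of_mem hT hD) hg).trans (un_mono _ (hTJ D hD))
  have hPhi0 : ∅ ∉ Phi σ E P G T := by
    rintro ⟨D, hD, hg | hg⟩
    · have := h.blk.un_nonempty.2 (ne_of_mem hT hD)
      rw [← hg] at this
      exact Finset.not_nonempty_empty this
    · exact Finset.not_nonempty_empty (Sk_ne h (ne_of_mem hT hD) hg)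
  -- restriction below `P_τ`, `τ ∈ Δ`
  have key1 : ∀ τ ∈ Δ, restr F (un (P J) τ) = restr (G J) (un (P J) τ) := by
    intro τ hτ
    ext g
    constructor
    · rintro ⟨hg | hg, hsub⟩
      · exact ⟨hg.1, hsub⟩
      · have h1 : g ⊆ un (P J) (τ ∩ σ) := by
          rw [hc.blocks.un_inter]
          refine Finset.subset_inter hsub ?_
          rw [h.top J hJ0]
          exact hPhiJ g hg
        have h2 : τ ∩ σ ⊂ σ := by
          refine Finset.ssubset_iff_subset_ne.2 ⟨Finset.inter_subset_right, ?_⟩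
          intro he
          apply hσΔ
          refine hdown τ hτ σ ?_ hσ0
          rw [← he]
          exact Finset.inter_subset_left
        exact ⟨(mem_Sk_of h hT hJ h2 hg h1).1, hsub⟩
    · rintro ⟨hg, hsub⟩
      exact ⟨Or.inl ⟨hg, τ, hτ, hsub⟩, hsub⟩
  -- restriction below `P_σ = E_J`
  have key2 : restr F (un (P J) σ) = Phi σ E P G T := by
    ext g
    constructor
    · rintro ⟨hg | hg, hsub⟩
      · obtain ⟨hgG, τ, hτ, hgτ⟩ := hg
        have h1 : g ⊆ un (P J) (τ ∩ σ) := by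
          rw [hc.blocks.un_inter]
          exact Finset.subset_inter hgτ hsub
        have h2 : τ ∩ σ ⊂ σ := by
          refine Finset.ssubset_iff_subset_ne.2 ⟨Finset.inter_subset_right, ?_⟩
          intro he
          apply hσΔ
          refine hdown τ hτ σ ?_ hσ0
          rw [← he]
          exact Finset.inter_subset_left
        exact ⟨J, hJ, Or.inr ⟨hgG, τ ∩ σ, h2, h1⟩⟩
      · exact hg
    · intro hg
      refine ⟨Or.inr hg, ?_⟩
      rw [h.top J hJ0]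
      exact hPhiJ g hg
  refine ⟨P J, F, hc.blocks, ?_, ?_, ?_, ?_⟩
  · rintro (hg | hg)
    · exact hc.emp hg.1
    · exact hPhi0 hg
  · intro τ hτ
    rcases hτ with rfl | hτ
    · refine Or.inr ⟨J, hJ, Or.inl (h.top J hJ0)⟩
    · exact Or.inl ⟨hc.mem τ hτ, τ, hτ, le_rfl⟩
  · intro τ hτ
    rcases hτ with rfl | hτ
    · rw [key2]
      exact free_Phi hn hσ hΔ h T hT hf
    · rw [key1 τ hτ]
      exact hc.free τ hτ
  · intro τ hτ
    rcases hτ with rfl | hτ
    · rw [key2]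
      exact hcol
    · rw [key1 τ hτ]
      exact hc.col τ hτ

/-- (ii) -/
theorem nongreen_conf (hn : 1 ≤ n) (hσ : σ.card ≤ n) (hΔ : ∀ τ, τ ⊂ σ → τ.Nonempty → τ ∈ Δ)
    (h : Str n χ Δ σ {D | D.Nonempty} E P G) [Inhabited C]
    (hT : ∀ χ' : Set (Finset I) → C, ∃ c, HasConf n L χ' c (DL n L))
    (hcol : ∀ T : Set (Finset I), ∅ ∉ T → Free n T → (∃ J ∈ T, ∀ D ∈ T, D ⊆ J) →
      χ (Phi σ E P G T) ≠ none) :
    ∃ c : C, HasConf n L χ (some c) (DL n L) := by
  obtain ⟨c, e, T, hc⟩ := hT (fun T => (χ (Phi σ E P G T)).getD default)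
  refine ⟨c, fun i => un E (e i), Phi σ E P G T, h.blk.comp hc.blocks, ?_, ?_, ?_, ?_⟩
  · rintro ⟨D, hD, hg | hg⟩
    · have := h.blk.un_nonempty.2 (ne_of_mem hc.emp hD)
      rw [← hg] at this
      exact Finset.not_nonempty_empty this
    · exact Finset.not_nonempty_empty (Sk_ne h (ne_of_mem hc.emp hD) hg)
  · intro τ hτ
    rw [un_un]
    exact ⟨_, hc.mem τ hτ, Or.inl rfl⟩
  · intro τ hτ
    rw [un_un, restr_Phi h T hc.emp]
    exact free_Phi hn hσ hΔ h _ (fun h0 => hc.emp h0.1) (hc.free τ hτ)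
  · intro τ hτ
    rw [un_un, restr_Phi h T hc.emp]
    have h1 := hc.col τ hτ
    have h2 := hcol (restr T (un e τ)) (fun h0 => hc.emp h0.1) (hc.free τ hτ)
      ⟨un e τ, ⟨hc.mem τ hτ, le_rfl⟩, fun D hD => hD.2⟩
    rw [← h1]
    cases hx : χ (Phi σ E P G (restr T (un e τ))) with
    | none => exact absurd hx h2
    | some a => simp

end Pool.SubSum
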