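import Pool.Agent.Lib.MP_abb0cc_co.Assemble

set_option autoImplicit false

namespace Pool.SubSum

private theorem Main_cast (X : Set ℕ) (hX : X.Infinite) (m : ℕ) :
    ((m : ℤ) ∈ Set.range fun i => ((Nat.nth (· ∈ X) i : ℕ) : ℤ)) ↔ m ∈ X := by
  have hr : Set.range (Nat.nth (· ∈ X)) = X := Nat.range_nth_of_infinite hX
  constructor
  · rintro ⟨i, hi⟩
    have h0 : ((Nat.nth (· ∈ X) i : ℕ) : ℤ) = (m : ℤ) := hi
    have h1 : Nat.nth (· ∈ X) i = m := Nat.cast_injective h0
    rw [← hr]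
    exact ⟨i, h1⟩
  · intro hm
    rw [← hr] at hm
    obtain ⟨i, hi⟩ := hm
    exact ⟨i, by simp only [hi]⟩

/-- from the natural number form to the sequence form -/
private theorem Main_key (n : ℕ) (hn : 1 ≤ n) (X : Set ℕ) (hX : X.Infinite)
    (hR : ∀ (t : ℕ) (c : ℕ → Fin t) (κ ρ : ℕ → ℕ), (∀ k, ∃ b, ∀ i, κ i = k → ρ i < b) →
        ∃ y : ℕ → ℕ, StrictMono y ∧ ∃ a, ∀ l : Finset ℕ, l.Nonempty → l.card ≤ n →
          (∀ i ∈ l, ∀ j ∈ l, κ i = κ j) → (∀ i ∈ l, ∀ j ∈ l, ρ i = ρ j → i = j) →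
            ∑ i ∈ l, y i ∈ X ∧ c (∑ i ∈ l, y i) = a)
    (r : ℕ) (c : ℤ → Fin r) (κ ρ : ℕ → ℕ) (hb : ∀ k, ∃ b, ∀ i, κ i = k → ρ i < b) :
    ∃ u : ℕ → ℕ, StrictMono u ∧ ∃ k : Fin r, ∀ l : Finset ℕ, l.Nonempty → l.card ≤ n →
      (∀ i ∈ l, ∀ j ∈ l, κ i = κ j) → (∀ i ∈ l, ∀ j ∈ l, ρ i = ρ j → i = j) →
      (∑ i ∈ l, ((Nat.nth (· ∈ X) (u i) : ℕ) : ℤ)) ∈
          (Set.range fun i => ((Nat.nth (· ∈ X) i : ℕ) : ℤ)) ∧
        c (∑ i ∈ l, ((Nat.nth (· ∈ X) (u i) : ℕ) : ℤ)) = k := by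
  obtain ⟨y, hy, a, ha⟩ := hR r (fun m => c (m : ℤ)) κ ρ hb
  have hr : Set.range (Nat.nth (· ∈ X)) = X := Nat.range_nth_of_infinite hX
  have hyX : ∀ i, y i ∈ X := by
    intro i
    have h1 := (ha {i} (Finset.singleton_nonempty i) (by simpa using hn)
      (by
        intro i' hi' j' hj'
        rw [Finset.mem_singleton] at hi' hj'
        rw [hi', hj'])
      (by
        intro i' hi' j' hj' _
        rw [Finset.mem_singleton] at hi' hj'
        rw [hi', hj'])).1
    simpa using h1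
  have hu : ∀ i, ∃ u, Nat.nth (· ∈ X) u = y i := by
    intro i
    have h1 := hyX i
    rw [← hr] at h1
    exact h1
  choose u hu using hu
  refine ⟨u, ?_, a, ?_⟩
  · intro i j hij
    have h1 := hy hij
    rw [← hu i, ← hu j] at h1
    exact (Nat.nth_strictMono hX).lt_iff_lt.mp h1
  · intro l hl hcard hκ hρ
    obtain ⟨h1, h2⟩ := ha l hl hcard hκ hρ
    have h3 : ∑ i ∈ l, ((Nat.nth (· ∈ X) (u i) : ℕ) : ℤ) = ((∑ i ∈ l, y i : ℕ) : ℤ) := by
      push_cast
      exact Finset.sum_congr rfl fun i _ => by rw [hu i]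
    rw [h3]
    exact ⟨(Main_cast X hX _).mpr h1, h2⟩

theorem main (n : ℕ) (hn : 2 ≤ n) :
    ∃ x : ℕ → ℤ, StrictMono x ∧
      (∀ s : Finset ℕ, s.card = n + 1 →
        ∃ t ⊆ s, t.Nonempty ∧ (∑ i ∈ t, x i) ∉ Set.range x) ∧
      (∀ (r : ℕ) (c : ℤ → Fin r) (G : SimpleGraph ℕ),
        (∀ K : G.ConnectedComponent, ∃ m : ℕ, (G.induce K.supp).Colorable m) →
        ∃ u : ℕ → ℕ, StrictMono u ∧ ∃ k : Fin r,
          ∀ t : Finset ℕ, t.Nonempty → t.card ≤ n → G.IsClique t →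
            (∑ l ∈ t, x (u l)) ∈ Set.range x ∧ c (∑ l ∈ t, x (u l)) = k) ∧
      (∀ (r : ℕ) (c : ℤ → Fin r) (m : ℕ),
        ∃ u : ℕ → ℕ, StrictMono u ∧ ∃ k : Fin r,
          ∀ t : Finset ℕ, t.Nonempty → t.card ≤ n → (∀ i ∈ t, ∀ j ∈ t, i < j + m) →
            (∑ l ∈ t, x (u l)) ∈ Set.range x ∧ c (∑ l ∈ t, x (u l)) = k) := by
  classical
  have hn1 : 1 ≤ n := by omega
  obtain ⟨X, hX, hfree, hR⟩ := assemble n hn1
  have hsm : StrictMono (Nat.nth (· ∈ X)) := Nat.nth_strictMono hX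
  refine ⟨fun i => ((Nat.nth (· ∈ X) i : ℕ) : ℤ), ?_, ?_, ?_, ?_⟩
  · intro i j hij
    have := hsm hij
    simp only
    exact_mod_cast this
  · intro s hs
    obtain ⟨σ, hσ, hσX⟩ := hfree fun i => Nat.nth (· ∈ X) (s.orderEmbOfFin hs i)
    refine ⟨σ.map (s.orderEmbOfFin hs).toEmbedding, ?_, ?_, ?_⟩
    · intro j hj
      obtain ⟨i, _, rfl⟩ := Finset.mem_map.mp hj
      exact Finset.orderEmbOfFin_mem s hs i
    · exact hσ.map
    · intro h
      apply hσX
      rw [Finset.sum_map] at h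
      have h1 : ∑ i ∈ σ, ((Nat.nth (· ∈ X) ((s.orderEmbOfFin hs).toEmbedding i) : ℕ) : ℤ) =
          ((∑ i ∈ σ, Nat.nth (· ∈ X) (s.orderEmbOfFin hs i) : ℕ) : ℤ) := by
        push_cast
        rfl
      rw [h1] at h
      exact (Main_cast X hX _).mp h
  · intro r c G hG
    choose m hm using hG
    let ρ' : G.ConnectedComponent → ℕ → ℕ := fun K i =>
      if h : i ∈ K.supp then (((hm K).some ⟨i, h⟩ : Fin (m K)) : ℕ) else 0
    have hρ' : ∀ (K : G.ConnectedComponent) (i : ℕ) (h : i ∈ K.supp),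
        ρ' K i = (((hm K).some ⟨i, h⟩ : Fin (m K)) : ℕ) := fun K i h => dif_pos h
    have hmem : ∀ i : ℕ, i ∈ (G.connectedComponentMk i).supp := fun i => rfl
    let κ : ℕ → ℕ := fun i => Quot.out (G.connectedComponentMk i)
    have hκ : ∀ i, G.connectedComponentMk (κ i) = G.connectedComponentMk i := fun i =>
      Quot.out_eq (G.connectedComponentMk i)
    obtain ⟨u, hu, k, hk⟩ := Main_key n hn1 X hX hR r c κ
      (fun i => ρ' (G.connectedComponentMk i) i) (by
        intro k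
        refine ⟨m (G.connectedComponentMk k), ?_⟩
        intro i hi
        have h1 : G.connectedComponentMk k = G.connectedComponentMk i := by
          rw [← hi]
          exact hκ i
        rw [h1]
        show ρ' (G.connectedComponentMk i) i < m (G.connectedComponentMk i)
        rw [hρ' _ i (hmem i)]
        exact Fin.is_lt _)
    refine ⟨u, hu, k, fun t ht hcard hcl => hk t ht hcard ?_ ?_⟩
    · intro i hi j hj
      by_cases hij : i = j
      · rw [hij]
      · have h1 : G.Adj i j := hcl (Finset.mem_coe.mpr hi) (Finset.mem_coe.mpr hj) hij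
        have h2 : G.connectedComponentMk i = G.connectedComponentMk j :=
          SimpleGraph.ConnectedComponent.sound h1.reachable
        show Quot.out (G.connectedComponentMk i) = Quot.out (G.connectedComponentMk j)
        rw [h2]
    · intro i hi j hj hij
      by_contra hne
      have h1 : G.Adj i j := hcl (Finset.mem_coe.mpr hi) (Finset.mem_coe.mpr hj) hne
      have h2 : G.connectedComponentMk i = G.connectedComponentMk j :=
        SimpleGraph.ConnectedComponent.sound h1.reachable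
      have hj' : j ∈ (G.connectedComponentMk i).supp := by
        rw [h2]
        exact hmem j
      have h3 : ρ' (G.connectedComponentMk i) i = ρ' (G.connectedComponentMk i) j := by
        have h4 : ρ' (G.connectedComponentMk i) i = ρ' (G.connectedComponentMk j) j := hij
        rw [h4, h2]
      rw [hρ' _ i (hmem i), hρ' _ j hj'] at h3
      have h5 : (G.induce (G.connectedComponentMk i).supp).Adj ⟨i, hmem i⟩ ⟨j, hj'⟩ := h1
      exact ((hm (G.connectedComponentMk i)).some.valid h5) (Fin.ext h3)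
  · intro r c m
    obtain ⟨u, hu, k, hk⟩ := Main_key n hn1 X hX hR r c (fun _ => 0) (fun i => i % (m + 1))
      (fun _ => ⟨m + 1, fun i _ => Nat.mod_lt _ (Nat.succ_pos m)⟩)
    refine ⟨u, hu, k, fun t ht hcard hw => hk t ht hcard (fun _ _ _ _ => rfl) ?_⟩
    intro i hi j hj hij
    have h1 := hw i hi j hj
    have h2 := hw j hj i hi
    have h3 : i % (m + 1) = j % (m + 1) := hij
    rcases le_total i j with h | h
    · have h4 : (j - i) % (m + 1) = 0 := Nat.sub_mod_eq_zero_of_mod_eq h3.symm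
      have h5 : (j - i) < m + 1 := by omega
      rw [Nat.mod_eq_of_lt h5] at h4
      omega
    · have h4 : (i - j) % (m + 1) = 0 := Nat.sub_mod_eq_zero_of_mod_eq h3
      have h5 : (i - j) < m + 1 := by omega
      rw [Nat.mod_eq_of_lt h5] at h4
      omega

end Pool.SubSum
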