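import Pool.Agent.Lib.MP_abb0cc_co.FamThm
import Pool.Agent.Lib.MP_abb0cc_co.Digits

set_option autoImplicit false

namespace Pool.SubSum

/-- finite sets of numbers: free and Ramsey -/
theorem num (n t L : ℕ) (hn : 1 ≤ n) :
    ∃ X : Finset ℕ, (∀ x ∈ X, 0 < x) ∧
      (∀ A : Fin (n + 1) → ℕ, (∀ i, 0 < A i) →
        ∃ s : Finset (Fin (n + 1)), s.Nonempty ∧ ∑ i ∈ s, A i ∉ X) ∧
      ∀ c : ℕ → Fin (t + 1), ∃ b : Fin L → ℕ, (∀ i, 0 < b i) ∧
        ∃ a, ∀ σ : Finset (Fin L), σ.Nonempty → σ.card ≤ n →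
          ∑ i ∈ σ, b i ∈ X ∧ c (∑ i ∈ σ, b i) = a := by
  obtain ⟨V, hfin, _, F, hF0, hfree, hram⟩ := fam n t L hn
  have hft : Nonempty (Fintype V) := ⟨Fintype.ofFinite V⟩
  obtain ⟨_⟩ := hft
  let j : V → ℕ := fun v => ((Fintype.equivFin V v : Fin (Fintype.card V)) : ℕ)
  have hj : Function.Injective j := fun a b h =>
    (Fintype.equivFin V).injective (Fin.ext h)
  let p : V → Finset ℕ := fun v => {j v}
  have hp : Blocks p := Blocks.of_injective j hj
  have hF1fin : (lift p F).Finite := (Set.toFinite F).image _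
  have hXfin : (S4 '' lift p F).Finite := hF1fin.image _
  have hne : ∀ B ∈ lift p F, B.Nonempty := by
    rintro B ⟨g, hg, rfl⟩
    rw [hp.un_nonempty]
    rw [Finset.nonempty_iff_ne_empty]
    rintro rfl
    exact hF0 hg
  have hmem : ∀ x, x ∈ hXfin.toFinset ↔ ∃ B ∈ lift p F, S4 B = x := by
    intro x
    rw [Set.Finite.mem_toFinset]
    exact Iff.rfl
  refine ⟨hXfin.toFinset, ?_, ?_, ?_⟩
  · intro x hx
    obtain ⟨B, hB, rfl⟩ := (hmem x).mp hx
    exact S4_pos (hne B hB)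
  · intro A _
    by_contra hcon
    push Not at hcon
    have h1 : ∀ i, ∃ B ∈ lift p F, S4 B = A i := by
      intro i
      have h2 := hcon {i} (Finset.singleton_nonempty i)
      rw [Finset.sum_singleton] at h2
      exact (hmem _).mp h2
    choose B hB hBA using h1
    have hdis : ∀ i k, i ≠ k → Disjoint (B i) (B k) := by
      intro i k hik
      have h2 := hcon {i, k} ⟨i, by simp⟩
      rw [Finset.sum_pair hik] at h2
      obtain ⟨C, _, hC⟩ := (hmem _).mp h2
      rw [← hBA i, ← hBA k] at hC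
      exact (S4_add_eq hC.symm).1
    have hblk : Blocks B := ⟨fun i => hne _ (hB i), hdis⟩
    obtain ⟨s, hs1, hs2⟩ := free_lift hp hfree B hblk
    apply hs2
    have h3 := hcon s hs1
    have h4 : ∑ i ∈ s, A i = S4 (un B s) := by
      rw [S4_un B s (fun i _ k _ hik => hdis i k hik)]
      exact Finset.sum_congr rfl fun i _ => (hBA i).symm
    rw [h4] at h3
    obtain ⟨C, hC1, hC2⟩ := (hmem _).mp h3
    rw [← S4_injective hC2]
    exact hC1
  · intro c
    obtain ⟨B, hB, a, ha⟩ := hram fun D => c (S4 (un p D))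
    have hB' : Blocks fun i => un p (B i) := hp.comp hB
    refine ⟨fun i => S4 (un p (B i)), fun i => S4_pos (hB'.ne i), a, ?_⟩
    intro σ hσ hcard
    obtain ⟨h1, h2⟩ := ha σ ⟨hσ, hcard⟩
    have h3 : ∑ i ∈ σ, S4 (un p (B i)) = S4 (un p (un B σ)) := by
      rw [← un_un]
      exact (S4_un (fun i => un p (B i)) σ (fun i _ k _ hik => hB'.dj i k hik)).symm
    rw [h3]
    exact ⟨(hmem _).mpr ⟨_, ⟨un B σ, h1, rfl⟩, rfl⟩, h2⟩

end Pool.SubSum
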