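import Pool.Agent.Lib.MP_abb0cc_co.Base

/-!
# MP_abb0cc_co: partial transversals, types
-/

set_option autoImplicit false

namespace Pool.SubSum

variable {ι V V' : Type*}

/-- the support of a partial transversal -/
def supp [Fintype ι] (U : ι → Option V) : Finset ι := Finset.univ.filter (fun i => (U i).isSome)

/-- restriction of a partial transversal to the indices in `e` -/
def rst [DecidableEq ι] (U : ι → Option V) (e : Finset ι) : ι → Option V :=
  fun i => if i ∈ e then U i else none

/-- the type of a partial transversal `U` in a system `F`: the nonempty subsets `e` of the support
such that the restriction of `U` to `e` is in `F` -/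
def typ [Fintype ι] [DecidableEq ι] (F : Set (ι → Option V)) (U : ι → Option V) :
    Set (Finset ι) :=
  {e | e.Nonempty ∧ e ⊆ supp U ∧ rst U e ∈ F}

/-- apply maps of the parts to a partial transversal -/
def mapT (φ : ι → V → V') (U : ι → Option V) : ι → Option V' := fun i => (U i).map (φ i)

end Pool.SubSum
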