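import Pool.Agent.Lib.MP_abb0cc_co.PartiteDef

set_option autoImplicit false

namespace Pool.SubSum

section PartiteStepAux

variable {ι V V' : Type}

theorem PartiteStep_mem_supp [Fintype ι] {U : ι → Option V} {i : ι} :
    i ∈ supp U ↔ (U i).isSome := by
  simp [supp]

theorem PartiteStep_supp_mapT [Fintype ι] (φ : ι → V → V') (U : ι → Option V) :
    supp (mapT φ U) = supp U := by
  ext i
  rw [PartiteStep_mem_supp, PartiteStep_mem_supp]
  simp [mapT]

theorem PartiteStep_rst_mapT [DecidableEq ι] (φ : ι → V → V') (U : ι → Option V) (e : Finset ι) :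
    rst (mapT φ U) e = mapT φ (rst U e) := by
  funext i
  unfold rst mapT
  by_cases h : i ∈ e <;> simp [h]

theorem PartiteStep_supp_rst [Fintype ι] [DecidableEq ι] {U : ι → Option V} {e : Finset ι}
    (h : e ⊆ supp U) : supp (rst U e) = e := by
  ext i
  rw [PartiteStep_mem_supp]
  unfold rst
  by_cases hi : i ∈ e
  · have := PartiteStep_mem_supp.1 (h hi)
    simp [hi, this]
  · simp [hi]

theorem PartiteStep_rst_supp [Fintype ι] [DecidableEq ι] (U : ι → Option V) :
    rst U (supp U) = U := by
  funext i
  unfold rst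
  by_cases hi : i ∈ supp U
  · simp [hi]
  · rw [if_neg hi]
    rw [PartiteStep_mem_supp] at hi
    simpa using (Option.not_isSome_iff_eq_none.1 hi).symm

end PartiteStepAux

/-- **Partite lemma.** -/
theorem partite_step (ι : Type) [Fintype ι] [DecidableEq ι] (V : Type) [Finite V]
    (F : Set (ι → Option V)) (hF : ∀ U ∈ F, (supp U).Nonempty) (κ : Type) [Finite κ]
    (b : Set (Finset ι)) :
    ∃ (V' : Type) (_ : Finite V') (F' : Set (ι → Option V')),
      (∀ U' ∈ F', ∃ U ∈ F, supp U' = supp U ∧ typ F' U' = typ F U) ∧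
      ∀ c : (ι → Option V') → κ, ∃ φ : ι → V → V',
        (∀ U ∈ F, mapT φ U ∈ F' ∧ typ F' (mapT φ U) = typ F U) ∧
        ∃ a, ∀ U ∈ F, typ F U = b → c (mapT φ U) = a := by
  classical
  let ε : Finset ι := Finset.univ.filter fun i => ∃ e ∈ b, i ∈ e
  let Λ : Type := {U : ι → Option V // U ∈ F ∧ typ F U = b}
  have hsupp : ∀ A : Λ, supp A.1 = ε := by
    intro A
    apply Finset.Subset.antisymm
    · intro i hi
      have h1 : supp A.1 ∈ typ F A.1 := ⟨hF _ A.2.1, Finset.Subset.refl _, by
        rw [PartiteStep_rst_supp]; exact A.2.1⟩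
      rw [A.2.2] at h1
      simp only [ε, Finset.mem_filter, Finset.mem_univ, true_and]
      exact ⟨_, h1, hi⟩
    · intro i hi
      simp only [ε, Finset.mem_filter, Finset.mem_univ, true_and] at hi
      obtain ⟨e, he, hie⟩ := hi
      rw [← A.2.2] at he
      exact he.2.1 hie
  have hs : ∀ (A : Λ) (i : ι), i ∈ ε → (A.1 i).isSome := by
    intro A i hi
    rw [← hsupp A] at hi
    exact PartiteStep_mem_supp.1 hi
  obtain ⟨J, hJ, hHJ⟩ := Combinatorics.Line.exists_mono_in_high_dimension Λ κ
  have hLfin : Finite (Combinatorics.Line Λ J) := by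
    refine Finite.of_injective (fun l : Combinatorics.Line Λ J => l.idxFun) ?_
    intro l l' h
    cases l
    cases l'
    simp only at h
    subst h
    rfl
  let φ : Combinatorics.Line Λ J → ι → V → (J → V) ⊕ (Combinatorics.Line Λ J × V) :=
    fun l i v => if i ∈ ε then
      Sum.inl (fun m => (l.idxFun m).elim v (fun A => (A.1 i).getD v)) else Sum.inr (l, v)
  have hφ1 : ∀ l i v, i ∈ ε → φ l i v =
      Sum.inl (fun m => (l.idxFun m).elim v (fun A => (A.1 i).getD v)) :=
    fun l i v h => if_pos h
  have hφ2 : ∀ l i v, i ∉ ε → φ l i v = Sum.inr (l, v) := fun l i v h => if_neg h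
  have hφinj : ∀ l i, Function.Injective (φ l i) := by
    intro l i v v' h
    by_cases hi : i ∈ ε
    · rw [hφ1 l i v hi, hφ1 l i v' hi] at h
      obtain ⟨m, hm⟩ := l.proper
      have h1 := congrFun (Sum.inl.inj h) m
      rw [hm] at h1
      exact h1
    · rw [hφ2 l i v hi, hφ2 l i v' hi] at h
      exact (Prod.mk.inj (Sum.inr.inj h)).2
  let F' : Set (ι → Option ((J → V) ⊕ (Combinatorics.Line Λ J × V))) :=
    {W | ∃ l, ∃ U ∈ F, W = mapT (φ l) U}
  -- the key claim
  have key : ∀ l, ∀ U ∈ F, ∀ e : Finset ι, e.Nonempty → e ⊆ supp U →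
      rst (mapT (φ l) U) e ∈ F' → rst U e ∈ F := by
    intro l U _ e hene heU hmem
    obtain ⟨l', C, hC, hEq⟩ := hmem
    rw [PartiteStep_rst_mapT] at hEq
    set D := rst U e with hD
    have hsD : supp D = e := PartiteStep_supp_rst heU
    have hsC : supp C = e := by
      have h1 := congrArg supp hEq
      rw [PartiteStep_supp_mapT, PartiteStep_supp_mapT, hsD] at h1
      exact h1.symm
    have hval : ∀ i ∈ e, ∃ v v', D i = some v ∧ C i = some v' ∧ φ l i v = φ l' i v' := by
      intro i hi
      obtain ⟨v, hv⟩ := Option.isSome_iff_exists.1 (PartiteStep_mem_supp.1 (hsD.symm ▸ hi))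
      obtain ⟨v', hv'⟩ := Option.isSome_iff_exists.1 (PartiteStep_mem_supp.1 (hsC.symm ▸ hi))
      refine ⟨v, v', hv, hv', ?_⟩
      have h1 := congrFun hEq i
      unfold mapT at h1
      rw [hv, hv'] at h1
      simpa using h1
    have hnoneD : ∀ i, i ∉ e → D i = none := by
      intro i hi
      rw [← hsD, PartiteStep_mem_supp] at hi
      exact Option.not_isSome_iff_eq_none.1 hi
    have hnoneC : ∀ i, i ∉ e → C i = none := by
      intro i hi
      rw [← hsC, PartiteStep_mem_supp] at hi
      exact Option.not_isSome_iff_eq_none.1 hi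
    have hDC : (∀ i ∈ e, D i = C i) → D ∈ F := by
      intro h
      have : D = C := by
        funext i
        by_cases hi : i ∈ e
        · exact h i hi
        · rw [hnoneD i hi, hnoneC i hi]
      rw [this]
      exact hC
    by_cases hcase : ∃ i ∈ e, i ∉ ε
    · obtain ⟨i, hi, hiε⟩ := hcase
      obtain ⟨v, v', _, _, h3⟩ := hval i hi
      rw [hφ2 l i v hiε, hφ2 l' i v' hiε] at h3
      have hll : l = l' := (Prod.mk.inj (Sum.inr.inj h3)).1
      subst hll
      refine hDC fun j hj => ?_
      obtain ⟨w, w', h4, h5, h6⟩ := hval j hj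
      rw [h4, h5, hφinj l j h6]
    · push Not at hcase
      by_cases hact : ∃ m, l.idxFun m = none ∧ l'.idxFun m = none
      · obtain ⟨m, hm, hm'⟩ := hact
        refine hDC fun j hj => ?_
        obtain ⟨w, w', h4, h5, h6⟩ := hval j hj
        rw [hφ1 l j w (hcase j hj), hφ1 l' j w' (hcase j hj)] at h6
        have h7 := congrFun (Sum.inl.inj h6) m
        rw [hm, hm'] at h7
        have h8 : w = w' := h7
        rw [h4, h5, h8]
      · push Not at hact
        obtain ⟨m, hm⟩ := l.proper
        obtain ⟨A', hA'⟩ := Option.ne_none_iff_exists'.1 (hact m hm)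
        obtain ⟨m', hm'⟩ := l'.proper
        have hne : l.idxFun m' ≠ none := fun h => hact m' h hm'
        obtain ⟨A, hA⟩ := Option.ne_none_iff_exists'.1 hne
        have hD' : D = rst A'.1 e := by
          funext j
          by_cases hj : j ∈ e
          · obtain ⟨w, w', h4, h5, h6⟩ := hval j hj
            rw [hφ1 l j w (hcase j hj), hφ1 l' j w' (hcase j hj)] at h6
            have h7 := congrFun (Sum.inl.inj h6) m
            rw [hm, hA'] at h7
            have h8 : w = (A'.1 j).getD w' := h7
            obtain ⟨x, hx⟩ := Option.isSome_iff_exists.1 (hs A' j (hcase j hj))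
            rw [hx] at h8
            have h9 : w = x := h8
            unfold rst
            rw [if_pos hj, h4, hx, h9]
          · rw [hnoneD j hj]
            unfold rst
            rw [if_neg hj]
        have hC' : C = rst A.1 e := by
          funext j
          by_cases hj : j ∈ e
          · obtain ⟨w, w', h4, h5, h6⟩ := hval j hj
            rw [hφ1 l j w (hcase j hj), hφ1 l' j w' (hcase j hj)] at h6
            have h7 := congrFun (Sum.inl.inj h6) m'
            rw [hm', hA] at h7
            have h8 : (A.1 j).getD w = w' := h7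
            obtain ⟨x, hx⟩ := Option.isSome_iff_exists.1 (hs A j (hcase j hj))
            rw [hx] at h8
            have h9 : x = w' := h8
            unfold rst
            rw [if_pos hj, h5, hx, h9]
          · rw [hnoneC j hj]
            unfold rst
            rw [if_neg hj]
        have h1 : e ∈ typ F A.1 := by
          refine ⟨hene, ?_, ?_⟩
          · rw [hsupp A]; exact hcase
          · rw [← hC']; exact hC
        rw [A.2.2, ← A'.2.2] at h1
        rw [hD']
        exact h1.2.2
  have htyp : ∀ l, ∀ U ∈ F, typ F' (mapT (φ l) U) = typ F U := by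
    intro l U hU
    ext e
    constructor
    · rintro ⟨h1, h2, h3⟩
      rw [PartiteStep_supp_mapT] at h2
      exact ⟨h1, h2, key l U hU e h1 h2 h3⟩
    · rintro ⟨h1, h2, h3⟩
      refine ⟨h1, ?_, ?_⟩
      · rw [PartiteStep_supp_mapT]; exact h2
      · rw [PartiteStep_rst_mapT]
        exact ⟨l, _, h3, rfl⟩
  refine ⟨(J → V) ⊕ (Combinatorics.Line Λ J × V), inferInstance, F', ?_, ?_⟩
  · rintro _ ⟨l, U, hU, rfl⟩
    exact ⟨U, hU, PartiteStep_supp_mapT _ _, htyp l U hU⟩
  · intro c
    let ψ : (J → Λ) → ι → Option ((J → V) ⊕ (Combinatorics.Line Λ J × V)) := fun y i =>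
      if h : i ∈ ε then some (Sum.inl fun m => ((y m).1 i).get (hs (y m) i h)) else none
    obtain ⟨l, a, hl⟩ := hHJ fun y => c (ψ y)
    refine ⟨φ l, fun U hU => ⟨⟨l, U, hU, rfl⟩, htyp l U hU⟩, a, ?_⟩
    intro U hU hUb
    have h1 := hl ⟨U, hU, hUb⟩
    simp only at h1
    rw [← h1]
    congr 1
    funext i
    by_cases hi : i ∈ ε
    · obtain ⟨v, hv⟩ := Option.isSome_iff_exists.1 (hs ⟨U, hU, hUb⟩ i hi)
      have hv' : U i = some v := hv
      simp only [ψ, mapT, dif_pos hi, hv', Option.map_some, hφ1 l i v hi]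
      congr 2
      funext m
      symm
      apply Option.some_injective
      rw [Option.some_get, Combinatorics.Line.apply_def]
      show (((l.idxFun m).getD ⟨U, hU, hUb⟩ : Λ).1 i) =
        some ((l.idxFun m).elim v fun A => (A.1 i).getD v)
      cases hm : l.idxFun m with
      | none => exact hv'
      | some A =>
        obtain ⟨x, hx⟩ := Option.isSome_iff_exists.1 (hs A i hi)
        show A.1 i = some ((A.1 i).getD v)
        rw [hx]
        rfl
    · have h2 : U i = none := by
        have h3 : i ∉ supp U := by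
          have := hsupp ⟨U, hU, hUb⟩
          simp only at this
          rw [this]
          exact hi
        rw [PartiteStep_mem_supp] at h3
        exact Option.not_isSome_iff_eq_none.1 h3
      simp only [ψ, mapT, dif_neg hi, h2, Option.map_none]

end Pool.SubSum
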