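import Pool.Agent.Lib.MP_abb0cc_co.StrDef

set_option autoImplicit false
set_option linter.unusedSectionVars false

namespace Pool.SubSum

variable {I α C : Type*} {n L : ℕ} [DecidableEq α] [DecidableEq I]
  {χ : Set (Finset α) → Option C} {Δ : Set (Finset (Fin L))} {σ : Finset (Fin L)}
  {E : I → Finset α} {P : Finset I → Fin L → Finset α} {G : Finset I → Set (Finset α)}

/-- a member of the skeleton is nonempty -/
theorem Sk_ne (h : Str n χ Δ σ {D | D.Nonempty} E P G) {D : Finset I} (hD : D.Nonempty)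
    {s : Finset α} (hs : s ∈ Sk σ P G D) : s.Nonempty := by
  rw [Finset.nonempty_iff_ne_empty]
  rintro rfl
  exact (h.conf D hD).emp hs.1

/-- a member of the skeleton of `D` lies in `E_D` -/
theorem Sk_sub (h : Str n χ Δ σ {D | D.Nonempty} E P G) {D : Finset I} (hD : D.Nonempty)
    {s : Finset α} (hs : s ∈ Sk σ P G D) : s ⊆ un E D := by
  obtain ⟨_, τ, hτ, hsub⟩ := hs
  rw [← h.top D hD]
  exact hsub.trans (un_mono _ hτ.subset)

/-- a set which meets all `E j`, `j ∈ D`, and lies in `E_{D'}` : `D ⊆ D'` -/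
theorem sub_of_meet (h : Str n χ Δ σ {D | D.Nonempty} E P G) {D D' : Finset I}
    {s : Finset α} (hm : ∀ j ∈ D, ¬ Disjoint s (E j)) (hs : s ⊆ un E D') : D ⊆ D' := by
  intro j hj
  have := hm j hj
  rw [Finset.not_disjoint_iff] at this
  obtain ⟨x, hx, hxE⟩ := this
  exact (h.blk.mem_iff hxE).1 (hs hx)

theorem Sk_sub_iff (h : Str n χ Δ σ {D | D.Nonempty} E P G) {D D' : Finset I} (hD : D.Nonempty)
    {s : Finset α} (hs : s ∈ Sk σ P G D) : s ⊆ un E D' ↔ D ⊆ D' := by
  constructor
  · exact sub_of_meet h (h.s1 D hD s hs)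
  · exact fun hsub => (Sk_sub h hD hs).trans (un_mono _ hsub)

theorem ne_of_mem {T : Set (Finset I)} (hT : ∅ ∉ T) {D : Finset I} (hD : D ∈ T) : D.Nonempty := by
  rw [Finset.nonempty_iff_ne_empty]
  rintro rfl
  exact hT hD

/-- (a) -/
theorem restr_Phi (h : Str n χ Δ σ {D | D.Nonempty} E P G) (T : Set (Finset I)) (hT : ∅ ∉ T)
    (D : Finset I) : restr (Phi σ E P G T) (un E D) = Phi σ E P G (restr T D) := by
  ext s
  constructor
  · rintro ⟨⟨D', hD', rfl | hs⟩, hsub⟩
    · exact ⟨D', ⟨hD', h.blk.un_subset_un.1 hsub⟩, Or.inl rfl⟩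
    · exact ⟨D', ⟨hD', (Sk_sub_iff h (ne_of_mem hT hD') hs).1 hsub⟩, Or.inr hs⟩
  · rintro ⟨D', ⟨hD', hsub⟩, rfl | hs⟩
    · exact ⟨⟨D', hD', Or.inl rfl⟩, un_mono _ hsub⟩
    · exact ⟨⟨D', hD', Or.inr hs⟩, (Sk_sub_iff h (ne_of_mem hT hD') hs).2 hsub⟩

/-- (b) -/
theorem restr_Phi_P (h : Str n χ Δ σ {D | D.Nonempty} E P G) (T : Set (Finset I)) (hT : ∅ ∉ T)
    (D : Finset I) (hD : D ∈ T) (τ : Finset (Fin L)) (hτ : τ ⊂ σ) :
    restr (Phi σ E P G T) (un (P D) τ) = restr (G D) (un (P D) τ) := by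
  have hD0 : D.Nonempty := ne_of_mem hT hD
  have hPE : un (P D) τ ⊆ un E D := by
    rw [← h.top D hD0]
    exact un_mono _ hτ.subset
  ext s
  constructor
  · rintro ⟨⟨D', hD', hs⟩, hsub⟩
    have hD'0 : D'.Nonempty := ne_of_mem hT hD'
    rcases hs with rfl | hs
    · exfalso
      obtain ⟨j, hj⟩ := hD'0
      have hD'D : D' ⊆ D := h.blk.un_subset_un.1 (hsub.trans hPE)
      exact h.s3 D hD0 j (hD'D hj) τ hτ ((subset_un E hj).trans hsub)
    · have hD'D : D' ⊆ D := (Sk_sub_iff h hD'0 hs).1 (hsub.trans hPE)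
      by_cases heq : D' = D
      · subst heq
        exact ⟨hs.1, hsub⟩
      · exfalso
        exact h.s2 D hD0 D' hD'0 (Finset.ssubset_iff_subset_ne.2 ⟨hD'D, heq⟩) s hs τ hτ hsub
  · rintro ⟨hs, hsub⟩
    exact ⟨⟨D, hD, Or.inr ⟨hs, τ, hτ, hsub⟩⟩, hsub⟩

/-- members of `Phi T` which lie below a proper part of the blocks of `D ∈ T` are in the skeleton -/
theorem mem_Sk_of (h : Str n χ Δ σ {D | D.Nonempty} E P G) {T : Set (Finset I)} (hT : ∅ ∉ T)
    {D : Finset I} (hD : D ∈ T) {τ : Finset (Fin L)} (hτ : τ ⊂ σ) {s : Finset α}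
    (hs : s ∈ Phi σ E P G T) (hsub : s ⊆ un (P D) τ) : s ∈ Sk σ P G D := by
  have : s ∈ restr (Phi σ E P G T) (un (P D) τ) := ⟨hs, hsub⟩
  rw [restr_Phi_P h T hT D hD τ hτ] at this
  exact ⟨this.1, τ, hτ, hsub⟩

/-- if `a ∈ Sk D`, `b ∈ Phi T`, `a ∪ b ∈ Phi T`, `a`, `b` disjoint, then `b ∈ Sk D` -/
theorem spread (h : Str n χ Δ σ {D | D.Nonempty} E P G) {T : Set (Finset I)} (hT : ∅ ∉ T)
    {D : Finset I} (hD : D ∈ T) {a b : Finset α} (ha : a ∈ Sk σ P G D) (hb : b ∈ Phi σ E P G T)
    (hab : a ∪ b ∈ Phi σ E P G T) (hdis : Disjoint a b) : b ∈ Sk σ P G D := by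
  have hD0 : D.Nonempty := ne_of_mem hT hD
  obtain ⟨D2, hD2, h2⟩ := hab
  have hD20 : D2.Nonempty := ne_of_mem hT hD2
  have haE := Sk_sub h hD0 ha
  have ham := h.s1 D hD0 a ha
  obtain ⟨haG, τ, hτ, haτ⟩ := ha
  rcases h2 with h2 | h2
  · -- `a ∪ b = E_{D2}`
    have hDD2 : D ⊆ D2 := sub_of_meet h ham (h2 ▸ Finset.subset_union_left)
    obtain ⟨D1, hD1, h1⟩ := hb
    have hD10 : D1.Nonempty := ne_of_mem hT hD1
    rcases h1 with h1 | h1
    · exfalso
      -- `b = E_{D1}`
      obtain ⟨j, hj⟩ := hD0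
      -- `j ∉ D1`, since `a` meets `E j`
      have hj1 : j ∉ D1 := by
        intro hj1
        obtain ⟨x, hxa, hxE⟩ := Finset.not_disjoint_iff.1 (ham j hj)
        have : x ∈ b := by
          rw [h1]
          exact mem_un.2 ⟨j, hj1, hxE⟩
        exact Finset.disjoint_left.1 hdis hxa this
      have : E j ⊆ a := by
        intro x hx
        have hx2 : x ∈ a ∪ b := by
          rw [h2]
          exact mem_un.2 ⟨j, hDD2 hj, hx⟩
        rcases Finset.mem_union.1 hx2 with hxa | hxb
        · exact hxa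
        · rw [h1] at hxb
          exact absurd ((h.blk.mem_iff hx).1 hxb) hj1
      exact h.s3 D ⟨j, hj⟩ j hj τ hτ (this.trans haτ)
    · -- `b ∈ Sk D1`
      have hbE := Sk_sub h hD10 h1
      have hbm := h.s1 D1 hD10 b h1
      have hD1D2 : D1 ⊆ D2 := sub_of_meet h hbm (h2 ▸ Finset.subset_union_right)
      -- `D2 ⊆ D`
      have hD2D : D2 ⊆ D := by
        intro j hj
        by_contra hjD
        have hEb : E j ⊆ b := by
          intro x hx
          have hx2 : x ∈ a ∪ b := by
            rw [h2]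
            exact mem_un.2 ⟨j, hj, hx⟩
          rcases Finset.mem_union.1 hx2 with hxa | hxb
          · exact absurd ((h.blk.mem_iff hx).1 (haE hxa)) hjD
          · exact hxb
        have hj1 : j ∈ D1 := by
          obtain ⟨x, hx⟩ := h.blk.ne j
          exact (h.blk.mem_iff hx).1 (hbE (hEb hx))
        obtain ⟨_, τ1, hτ1, hbτ⟩ := h1
        exact h.s3 D1 hD10 j hj1 τ1 hτ1 (hEb.trans hbτ)
      -- `D ⊆ D1`
      have hDD1 : D ⊆ D1 := by
        intro j hj
        by_contra hjD
        have hEa : E j ⊆ a := by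
          intro x hx
          have hx2 : x ∈ a ∪ b := by
            rw [h2]
            exact mem_un.2 ⟨j, hDD2 hj, hx⟩
          rcases Finset.mem_union.1 hx2 with hxa | hxb
          · exact hxa
          · exact absurd ((h.blk.mem_iff hx).1 (hbE hxb)) hjD
        exact h.s3 D hD0 j hj τ hτ (hEa.trans haτ)
      have : D1 = D := Finset.Subset.antisymm (hD1D2.trans hD2D) hDD1
      subst this
      exact h1
  · -- `a ∪ b ∈ Sk D2`
    obtain ⟨_, τ2, hτ2, hsub⟩ := h2
    have haPhi : a ∈ Phi σ E P G T := ⟨D, hD, Or.inr ⟨haG, τ, hτ, haτ⟩⟩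
    have ha2 : a ∈ Sk σ P G D2 :=
      mem_Sk_of h hT hD2 hτ2 haPhi (Finset.subset_union_left.trans hsub)
    have hb2 : b ∈ Sk σ P G D2 :=
      mem_Sk_of h hT hD2 hτ2 hb (Finset.subset_union_right.trans hsub)
    have e1 : D ⊆ D2 := sub_of_meet h ham (Sk_sub h hD20 ha2)
    have e2 : D2 ⊆ D := sub_of_meet h (h.s1 D2 hD20 a ha2) haE
    have : D2 = D := Finset.Subset.antisymm e2 e1
    subst this
    exact hb2

/-- (c) -/
theorem free_Phi (hn : 1 ≤ n) (hσ : σ.card ≤ n) (hΔ : ∀ τ, τ ⊂ σ → τ.Nonempty → τ ∈ Δ)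
    (h : Str n χ Δ σ {D | D.Nonempty} E P G) (T : Set (Finset I)) (hT : ∅ ∉ T)
    (hf : Free n T) : Free n (Phi σ E P G T) := by
  intro A hA
  by_contra hcon
  push Not at hcon
  by_cases hcase : ∀ s : Finset (Fin (n + 1)), s.Nonempty → ∃ D ∈ T, un A s = un E D
  · -- all unions are coarse
    have h1 : ∀ i, ∃ D ∈ T, A i = un E D := by
      intro i
      have := hcase {i} (Finset.singleton_nonempty i)
      rwa [un_singleton] at this
    choose D hD hAD using h1
    have hblk : Blocks D := by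
      refine ⟨fun i => ne_of_mem hT (hD i), fun i j hij => ?_⟩
      rw [← h.blk.disjoint_un, ← hAD, ← hAD]
      exact hA.dj i j hij
    obtain ⟨s, hs1, hs2⟩ := hf D hblk
    apply hs2
    obtain ⟨D', hD', he⟩ := hcase s hs1
    have h3 : un A s = un E (un D s) := by
      rw [← un_un]
      congr 1
      funext i
      exact hAD i
    rw [h3] at he
    rw [h.blk.un_inj.1 he]
    exact hD'
  · push Not at hcase
    obtain ⟨s, hs1, hs2⟩ := hcase
    obtain ⟨D, hD, hor⟩ := hcon s hs1
    have hsk : un A s ∈ Sk σ P G D := by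
      rcases hor with he | hsk
      · exact absurd he (hs2 D hD)
      · exact hsk
    have hD0 : D.Nonempty := ne_of_mem hT hD
    obtain ⟨i0, hi0⟩ := hs1
    have hAi : ∀ i, A i ∈ Phi σ E P G T := by
      intro i
      have := hcon {i} (Finset.singleton_nonempty i)
      rwa [un_singleton] at this
    have hAi0 : A i0 ∈ Sk σ P G D := by
      obtain ⟨_, τ, hτ, hsub⟩ := hsk
      exact mem_Sk_of h hT hD hτ (hAi i0) ((subset_un A hi0).trans hsub)
    have hAk : ∀ k, A k ∈ Sk σ P G D := by
      intro k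
      by_cases hk : i0 = k
      · subst hk
        exact hAi0
      · have hu := hcon {i0, k} (Finset.insert_nonempty _ _)
        rw [un_insert, un_singleton] at hu
        exact spread h hT hD hAi0 (hAi k) hu (hA.dj i0 k hk)
    -- every union is `E_D` or in `Sk D`
    have hun : ∀ s : Finset (Fin (n + 1)), s.Nonempty → un A s = un E D ∨ un A s ∈ Sk σ P G D := by
      intro s hs
      have hsubE : un A s ⊆ un E D := by
        rw [un_subset_iff]
        exact fun i _ => Sk_sub h hD0 (hAk i)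
      obtain ⟨i, hi⟩ := hs
      have hmeet : ∀ j ∈ D, ¬ Disjoint (un A s) (E j) := by
        intro j hj hdis
        exact h.s1 D hD0 (A i) (hAk i) j hj (hdis.mono_left (subset_un A hi))
      obtain ⟨D', hD', hor2⟩ := hcon s ⟨i, hi⟩
      have hD'0 : D'.Nonempty := ne_of_mem hT hD'
      have e1 : D ⊆ D' := by
        rcases hor2 with he | hsk'
        · exact sub_of_meet h hmeet he.le
        · exact sub_of_meet h hmeet (Sk_sub h hD'0 hsk')
      have e2 : D' ⊆ D := by
        rcases hor2 with he | hsk'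
        · rw [he] at hsubE
          exact h.blk.un_subset_un.1 hsubE
        · exact sub_of_meet h (h.s1 D' hD'0 _ hsk') hsubE
      have : D' = D := Finset.Subset.antisymm e2 e1
      rw [this] at hor2
      exact hor2
    -- the total union is `E_D`
    have htot : un A Finset.univ = un E D := by
      rcases hun Finset.univ Finset.univ_nonempty with he | hsk'
      · exact he
      · exfalso
        obtain ⟨hG, τ, hτ, hsub⟩ := hsk'
        have hτ0 : τ.Nonempty := by
          rw [Finset.nonempty_iff_ne_empty]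
          rintro rfl
          rw [un_empty, Finset.subset_empty] at hsub
          have := hA.ne i0
          have h' := (subset_un A (Finset.mem_univ i0))
          rw [hsub, Finset.subset_empty] at h'
          rw [h'] at this
          exact Finset.not_nonempty_empty this
        have hfree := (h.conf D hD0).free τ (hΔ τ hτ hτ0)
        obtain ⟨s', hs'1, hs'2⟩ := hfree A hA
        apply hs'2
        have hsub' : un A s' ⊆ un (P D) τ := (un_mono A (Finset.subset_univ s')).trans hsub
        rw [← restr_Phi_P h T hT D hD τ hτ]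
        exact ⟨hcon s' hs'1, hsub'⟩
    -- every `A i` contains a part
    have hpart : ∀ i, ∃ v ∈ σ, P D v ⊆ A i := by
      intro i
      have hne : (Finset.univ.erase i : Finset (Fin (n + 1))).Nonempty := by
        rw [← Finset.card_pos, Finset.card_erase_of_mem (Finset.mem_univ i), Finset.card_univ,
          Fintype.card_fin]
        omega
      have hnotE : un A (Finset.univ.erase i) ≠ un E D := by
        intro he
        rw [← htot, hA.un_inj] at he
        have := Finset.mem_univ i
        rw [← he] at this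
        exact (Finset.notMem_erase i _) this
      have hsk' := (hun _ hne).resolve_left hnotE
      obtain ⟨_, τ, hτ, hsub⟩ := hsk'
      obtain ⟨v, hvσ, hvτ⟩ := Finset.exists_of_ssubset hτ
      refine ⟨v, hvσ, ?_⟩
      intro x hx
      have hxE : x ∈ un A Finset.univ := by
        rw [htot, ← h.top D hD0]
        exact mem_un.2 ⟨v, hvσ, hx⟩
      obtain ⟨k, _, hxk⟩ := mem_un.1 hxE
      by_cases hki : k = i
      · rwa [← hki]
      · exfalso
        have : x ∈ un A (Finset.univ.erase i) :=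
          mem_un.2 ⟨k, Finset.mem_erase.2 ⟨hki, Finset.mem_univ k⟩, hxk⟩
        have hxτ := hsub this
        exact hvτ (((h.conf D hD0).blocks.mem_iff hx).1 hxτ)
    choose v hvσ hvA using hpart
    have hinj : Function.Injective v := by
      intro i j hij
      by_contra hne
      obtain ⟨x, hx⟩ := (h.conf D hD0).blocks.ne (v i)
      have h1 := hvA i hx
      have h2 := hvA j (hij ▸ hx)
      exact Finset.disjoint_left.1 (hA.dj i j hne) h1 h2
    have hcard : (Finset.univ.image v).card = n + 1 := by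
      rw [Finset.card_image_of_injective _ hinj, Finset.card_univ, Fintype.card_fin]
    have hle : (Finset.univ.image v).card ≤ σ.card := by
      apply Finset.card_le_card
      intro x hx
      obtain ⟨i, _, rfl⟩ := Finset.mem_image.1 hx
      exact hvσ i
    omega

end Pool.SubSum
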