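import Pool.Agent.Lib.MP_abb0cc_co.Base

/-!
# MP_abb0cc_co: enriched structures
-/

set_option autoImplicit false

namespace Pool.SubSum

variable {I α C : Type*} {n L : ℕ}

/-- the skeleton of `D`: the members of `G D` which lie below a union of a proper part of the
blocks `P D v`, `v ∈ σ` -/
def Sk [DecidableEq α] (σ : Finset (Fin L)) (P : Finset I → Fin L → Finset α)
    (G : Finset I → Set (Finset α)) (D : Finset I) : Set (Finset α) :=
  {s | s ∈ G D ∧ ∃ τ, τ ⊂ σ ∧ s ⊆ un (P D) τ}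

/-- enriched structures: coarse blocks `E j`, `j ∈ I`, and for every `D ∈ J` a green
configuration `P D`, `G D` for `Δ` whose blocks with indices in `σ` have the union `E_D`. -/
structure Str [DecidableEq α] (n : ℕ) (χ : Set (Finset α) → Option C)
    (Δ : Set (Finset (Fin L))) (σ : Finset (Fin L)) (J : Set (Finset I)) (E : I → Finset α)
    (P : Finset I → Fin L → Finset α) (G : Finset I → Set (Finset α)) : Prop where
  blk : Blocks E
  conf : ∀ D ∈ J, Conf n L χ none Δ (P D) (G D)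
  top : ∀ D ∈ J, un (P D) σ = un E D
  s1 : ∀ D ∈ J, ∀ s ∈ Sk σ P G D, ∀ j ∈ D, ¬ Disjoint s (E j)
  s2 : ∀ D ∈ J, ∀ D' ∈ J, D' ⊂ D → ∀ s ∈ Sk σ P G D', ∀ τ, τ ⊂ σ → ¬ s ⊆ un (P D) τ
  s3 : ∀ D ∈ J, ∀ j ∈ D, ∀ τ, τ ⊂ σ → ¬ E j ⊆ un (P D) τ

/-- the family attached to a family `T` of coarse sets -/
def Phi [DecidableEq α] (σ : Finset (Fin L)) (E : I → Finset α) (P : Finset I → Fin L → Finset α)
    (G : Finset I → Set (Finset α)) (T : Set (Finset I)) : Set (Finset α) :=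
  {s | ∃ D ∈ T, s = un E D ∨ s ∈ Sk σ P G D}

end Pool.SubSum
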