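import Pool.Agent.Lib.MP_abb0cc_co.Green
import Pool.Agent.Lib.MP_abb0cc_co.AddJ

set_option autoImplicit false
set_option linter.unusedSectionVars false

namespace Pool.SubSum

variable {n L : ℕ}

/-- structures with full domain -/
theorem build {C I : Type} [Finite C] [Fintype I] [DecidableEq I] (N : ℕ)
    (Δ : Set (Finset (Fin L))) (σ : Finset (Fin L)) (hσ0 : σ.Nonempty)
    (hN : ∀ χ : Set (Finset (Fin N)) → Option C,
      (∃ c, HasConf n L χ (some c) (DL n L)) ∨ HasConf n L χ none Δ) :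
    ∃ M : ℕ, ∀ χ : Set (Finset (Fin M)) → Option C,
      (∃ c, HasConf n L χ (some c) (DL n L)) ∨
        HasStr (I := I) n χ Δ σ {D | D.Nonempty} := by
  classical
  have key : ∀ S : Finset (Finset I), (∀ D ∈ S, D.Nonempty) →
      ∃ M : ℕ, ∀ χ : Set (Finset (Fin M)) → Option C,
      (∃ c, HasConf n L χ (some c) (DL n L)) ∨
        HasStr (I := I) n χ Δ σ (S : Set (Finset I)) := by
    intro S
    induction S using Finset.induction_on with
    | empty =>
      intro _
      refine ⟨Fintype.card I, fun χ => Or.inr ?_⟩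
      refine ⟨fun i => {Fintype.equivFin I i}, fun _ _ => ∅, fun _ => ∅,
        Blocks.of_injective _ (Fintype.equivFin I).injective, ?_, ?_, ?_, ?_, ?_⟩
      · intro D hD
        simp at hD
      · intro D hD
        simp at hD
      · intro D hD
        simp at hD
      · intro D hD
        simp at hD
      · intro D hD
        simp at hD
    | insert D₀ S hD₀ ih =>
      intro hS
      obtain ⟨M, hM⟩ := ih (fun D hD => hS D (Finset.mem_insert_of_mem hD))
      obtain ⟨M', hM'⟩ := add_one (n := n) (L := L) M N Δ σ hσ0 (S : Set (Finset I)) D₀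
        (hS D₀ (Finset.mem_insert_self _ _)) (by simpa using hD₀) hM hN
      refine ⟨M', fun χ => ?_⟩
      rw [Finset.coe_insert]
      exact hM' χ
  obtain ⟨M, hM⟩ := key (Finset.univ.filter (fun D : Finset I => D.Nonempty))
    (fun D hD => (Finset.mem_filter.1 hD).2)
  refine ⟨M, fun χ => ?_⟩
  have he : (((Finset.univ.filter (fun D : Finset I => D.Nonempty)) : Finset (Finset I)) :
      Set (Finset I)) = {D | D.Nonempty} := by
    ext D
    simp
  have := hM χ
  rwa [he] at this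

/-- one step of the claim -/
theorem claim_step {C I : Type} [Finite C] [Inhabited C] [Fintype I] [DecidableEq I]
    (hn : 1 ≤ n)
    (hT : ∀ χ' : Set (Finset I) → C, ∃ c, HasConf n L χ' c (DL n L))
    (N : ℕ) (Δ : Set (Finset (Fin L))) (σ : Finset (Fin L)) (hσ0 : σ.Nonempty)
    (hσ : σ.card ≤ n) (hσΔ : σ ∉ Δ) (hΔ0 : ∀ τ ∈ Δ, τ.Nonempty)
    (hdown : ∀ τ ∈ Δ, ∀ τ', τ' ⊆ τ → τ'.Nonempty → τ' ∈ Δ)
    (hΔ : ∀ τ, τ ⊂ σ → τ.Nonempty → τ ∈ Δ)
    (hN : ∀ χ : Set (Finset (Fin N)) → Option C,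
      (∃ c, HasConf n L χ (some c) (DL n L)) ∨ HasConf n L χ none Δ) :
    ∃ M : ℕ, ∀ χ : Set (Finset (Fin M)) → Option C,
      (∃ c, HasConf n L χ (some c) (DL n L)) ∨ HasConf n L χ none (insert σ Δ) := by
  obtain ⟨M, hM⟩ := build (I := I) (n := n) (L := L) N Δ σ hσ0 hN
  refine ⟨M, fun χ => ?_⟩
  rcases hM χ with h | ⟨E, P, G, hstr⟩
  · exact Or.inl h
  · by_cases hcase : ∃ T : Set (Finset I), ∅ ∉ T ∧ Free n T ∧ (∃ J ∈ T, ∀ D ∈ T, D ⊆ J) ∧
      χ (Phi σ E P G T) = none
    · obtain ⟨T, hT0, hf, ⟨J, hJ, hTJ⟩, hcol⟩ := hcase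
      exact Or.inr (green_conf hn hσ hσ0 hσΔ hΔ0 hdown hΔ hstr T hT0 hf J hJ hTJ hcol)
    · push Not at hcase
      exact Or.inl (nongreen_conf hn hσ hΔ hstr hT
        (fun T h1 h2 ⟨J, hJ, hTJ⟩ => hcase T h1 h2 ⟨J, hJ, hTJ⟩))

/-- the claim for all down-closed `Δ` -/
theorem claim {C I : Type} [Finite C] [Inhabited C] [Fintype I] [DecidableEq I]
    (hn : 1 ≤ n)
    (hT : ∀ χ' : Set (Finset I) → C, ∃ c, HasConf n L χ' c (DL n L)) :
    ∃ M : ℕ, ∀ χ : Set (Finset (Fin M)) → Option C,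
      (∃ c, HasConf n L χ (some c) (DL n L)) ∨ HasConf n L χ none (DL n L) := by
  classical
  have key : ∀ k : ℕ, ∀ S : Finset (Finset (Fin L)), S.card = k →
      (∀ τ ∈ S, τ.Nonempty ∧ τ.card ≤ n) →
      (∀ τ ∈ S, ∀ τ', τ' ⊆ τ → τ'.Nonempty → τ' ∈ S) →
      ∃ M : ℕ, ∀ χ : Set (Finset (Fin M)) → Option C,
        (∃ c, HasConf n L χ (some c) (DL n L)) ∨
          HasConf n L χ none (S : Set (Finset (Fin L))) := by
    intro k
    induction k with
    | zero =>
      intro S hS _ _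
      rw [Finset.card_eq_zero] at hS
      subst hS
      refine ⟨L, fun χ => Or.inr ⟨fun i => {i}, ∅, Blocks.singletons, ?_, ?_, ?_, ?_⟩⟩
      · simp
      · intro σ hσ
        simp at hσ
      · intro σ hσ
        simp at hσ
      · intro σ hσ
        simp at hσ
    | succ k ih =>
      intro S hS hS1 hS2
      have hne : S.Nonempty := by
        rw [← Finset.card_pos]
        omega
      obtain ⟨σ, hσS, hmax⟩ := Finset.exists_max_image S Finset.card hne
      have hcard : (S.erase σ).card = k := by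
        rw [Finset.card_erase_of_mem hσS, hS]
        rfl
      have hmem : ∀ τ ∈ S, ∀ τ', τ' ⊆ τ → τ'.Nonempty → τ ≠ σ → τ' ∈ S.erase σ := by
        intro τ hτ τ' hsub hτ' hne'
        refine Finset.mem_erase.2 ⟨?_, hS2 τ hτ τ' hsub hτ'⟩
        rintro rfl
        apply hne'
        exact (Finset.eq_of_subset_of_card_le hsub (hmax τ hτ)).symm
      obtain ⟨N, hN⟩ := ih (S.erase σ) hcard (fun τ hτ => hS1 τ (Finset.mem_of_mem_erase hτ))
        (fun τ hτ τ' hsub hτ' => hmem τ (Finset.mem_of_mem_erase hτ) τ' hsub hτ'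
          (Finset.ne_of_mem_erase hτ))
      obtain ⟨M, hM⟩ := claim_step (n := n) (L := L) hn hT N
        ((S.erase σ : Finset (Finset (Fin L))) : Set (Finset (Fin L))) σ
        (hS1 σ hσS).1 (hS1 σ hσS).2 (by simp)
        (fun τ hτ => (hS1 τ (Finset.mem_of_mem_erase (Finset.mem_coe.1 hτ))).1)
        (fun τ hτ τ' hsub hτ' => Finset.mem_coe.2 (hmem τ
          (Finset.mem_of_mem_erase (Finset.mem_coe.1 hτ)) τ' hsub hτ'
          (Finset.ne_of_mem_erase (Finset.mem_coe.1 hτ))))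
        (fun τ hτ hτ0 => Finset.mem_coe.2 (Finset.mem_erase.2 ⟨hτ.ne, hS2 σ hσS τ hτ.subset hτ0⟩))
        hN
      refine ⟨M, fun χ => ?_⟩
      have := hM χ
      rwa [← Finset.coe_insert, Finset.insert_erase hσS] at this
  obtain ⟨M, hM⟩ := key _ (Finset.univ.filter (fun σ : Finset (Fin L) => σ.Nonempty ∧ σ.card ≤ n))
    rfl (fun τ hτ => (Finset.mem_filter.1 hτ).2)
    (fun τ hτ τ' hsub hτ' => Finset.mem_filter.2 ⟨Finset.mem_univ _, hτ',
      (Finset.card_le_card hsub).trans (Finset.mem_filter.1 hτ).2.2⟩)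
  refine ⟨M, fun χ => ?_⟩
  have he : (((Finset.univ.filter (fun σ : Finset (Fin L) => σ.Nonempty ∧ σ.card ≤ n)) :
      Finset (Finset (Fin L))) : Set (Finset (Fin L))) = DL n L := by
    ext σ
    simp [DL]
  have := hM χ
  rwa [he] at this

theorem tthm (n : ℕ) (hn : 1 ≤ n) (t L : ℕ) :
    ∃ N : ℕ, ∀ χ : Set (Finset (Fin N)) → Fin (t + 1), ∃ c, HasConf n L χ c (DL n L) := by
  induction t with
  | zero =>
    refine ⟨L, fun χ => ⟨0, fun i => {i}, DL n L, Blocks.singletons, ?_, ?_, ?_, ?_⟩⟩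
    · rintro ⟨h, -⟩
      simp at h
    · intro σ hσ
      have : un (fun i : Fin L => ({i} : Finset (Fin L))) σ = σ := by
        ext x
        simp [un]
      rwa [this]
    · intro σ hσ A hA
      by_contra hcon
      push Not at hcon
      have h1 := (hcon Finset.univ Finset.univ_nonempty).1.2
      have h2 : (un A Finset.univ).card = ∑ i, (A i).card := by
        unfold un
        exact Finset.card_biUnion (fun i _ j _ hij => hA.dj i j hij)
      have h3 : n + 1 ≤ ∑ i, (A i).card := by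
        calc n + 1 = ∑ _i : Fin (n + 1), 1 := by simp
          _ ≤ _ := Finset.sum_le_sum (fun i _ => Finset.card_pos.2 (hA.ne i))
      omega
    · intro σ hσ
      exact Fin.ext (by omega)
  | succ t ih =>
    obtain ⟨N, hN⟩ := ih
    obtain ⟨M, hM⟩ := claim (n := n) (L := L) (C := Fin (t + 1)) (I := Fin N) hn hN
    refine ⟨M, fun χ => ?_⟩
    let f : Fin (t + 2) ≃ Option (Fin (t + 1)) := finSuccEquiv (t + 1)
    rcases hM (fun H => f (χ H)) with ⟨c, hc⟩ | hc
    · refine ⟨f.symm (some c), hasConf_of_comp f f.injective ?_⟩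
      rwa [Equiv.apply_symm_apply]
    · refine ⟨f.symm none, hasConf_of_comp f f.injective ?_⟩
      rwa [Equiv.apply_symm_apply]

end Pool.SubSum
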