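import Mathlib
import Pool.Agent.Lib.MP_abb0cc_co.Comb

/-!
Ultrafilter part of the construction for `n = 2`.
-/

set_option autoImplicit false

namespace Pool.Agent.MP_abb0cc_co

open Filter Finset

attribute [local instance] Ultrafilter.add Ultrafilter.addSemigroup

/-- `y` has digits `0, 1`, is nonzero, vanishes below `N`, and has signed digit sum `k`. -/
def Good (N : ℕ) (k : ℤ) (y : ℕ →₀ ℕ) : Prop :=
  (∀ i, y i ≤ 1) ∧ y ≠ 0 ∧ (∀ i < N, y i = 0) ∧ m y = k

/-- Ultrafilters concentrated on far out good digit sequences of signed sum `k`. -/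
def C (k : ℤ) : Set (Ultrafilter (ℕ →₀ ℕ)) := {q | ∀ N, ∀ᶠ y in q, Good N k y}

theorem C_closed (k : ℤ) : IsClosed (C k) := by
  have : C k = ⋂ N, {q : Ultrafilter (ℕ →₀ ℕ) | {y | Good N k y} ∈ q} := by
    ext q
    simp only [C, Set.mem_iInter]
    rfl
  rw [this]
  exact isClosed_iInter (fun N => ultrafilter_isClosed_basic _)

theorem exists_bound (y : ℕ →₀ ℕ) : ∃ N, ∀ i, N ≤ i → y i = 0 := by
  refine ⟨y.support.sup id + 1, ?_⟩
  intro i hi
  by_contra hc
  have : i ≤ y.support.sup id := le_sup (f := id) (Finsupp.mem_support_iff.mpr hc)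
  omega

theorem C_add {j k : ℤ} {q r : Ultrafilter (ℕ →₀ ℕ)} (hq : q ∈ C j) (hr : r ∈ C k) :
    q + r ∈ C (j + k) := by
  intro N
  rw [Ultrafilter.eventually_add]
  filter_upwards [hq N] with y hy
  obtain ⟨N', hN'⟩ := exists_bound y
  filter_upwards [hr (max N N')] with z hz
  obtain ⟨a1, a2, a3, a4⟩ := hy
  obtain ⟨b1, b2, b3, b4⟩ := hz
  refine ⟨?_, ?_, ?_, ?_⟩
  · intro i
    simp only [Finsupp.coe_add, Pi.add_apply]
    by_cases hi : i < N'
    · rw [b3 i (lt_of_lt_of_le hi (le_max_right _ _))]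
      exact a1 i
    · rw [hN' i (not_lt.mp hi), zero_add]
      exact b1 i
  · intro h
    apply a2
    ext i
    have := DFunLike.congr_fun h i
    simp only [Finsupp.coe_add, Pi.add_apply, Finsupp.coe_zero, Pi.zero_apply] at this ⊢
    omega
  · intro i hi
    simp only [Finsupp.coe_add, Pi.add_apply]
    rw [a3 i hi, b3 i (lt_of_lt_of_le hi (le_max_left _ _))]
  · rw [m_add, a4, b4]

theorem C_of_seq (g : ℕ → ℕ) (hg : ∀ n, n ≤ g n) (k : ℤ) (hk : ∀ n, sg (g n) = k) :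
    (hyperfilter ℕ).map (fun n => (Finsupp.single (g n) 1 : ℕ →₀ ℕ)) ∈ C k := by
  intro N
  rw [Ultrafilter.coe_map, eventually_map]
  have hN : ∀ᶠ n in (hyperfilter ℕ : Filter ℕ), N ≤ n := by
    exact Nat.hyperfilter_le_atTop (eventually_ge_atTop N)
  filter_upwards [hN] with n hn
  refine ⟨?_, ?_, ?_, ?_⟩
  · intro i
    rw [Finsupp.single_apply]
    split_ifs <;> omega
  · simp
  · intro i hi
    rw [Finsupp.single_apply, if_neg]
    have := hg n
    omega
  · rw [m_single, hk n]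
    simp

/-- The basic pair: `b` has signed sum `-1` and lives on singletons, `a` has signed sum `1`, and
`a + b + a = a`. -/
theorem exists_pair : ∃ a b : Ultrafilter (ℕ →₀ ℕ), a ∈ C 1 ∧ b ∈ C (-1) ∧
    (∀ᶠ y : ℕ →₀ ℕ in b, ∃ i, y = Finsupp.single i 1) ∧ a + b + a = a := by
  obtain ⟨b, hb, hb1⟩ : ∃ b : Ultrafilter (ℕ →₀ ℕ), b ∈ C (-1) ∧
      (∀ᶠ y : ℕ →₀ ℕ in b, ∃ i, y = Finsupp.single i 1) := by
    refine ⟨_, C_of_seq (fun n => 2 * n + 1) (fun n => by omega) (-1) (fun n => ?_), ?_⟩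
    · unfold sg
      rw [if_neg]
      simp
    · rw [Ultrafilter.coe_map, eventually_map]
      exact Eventually.of_forall (fun n => ⟨2 * n + 1, rfl⟩)
  have hne : (C 1).Nonempty := by
    refine ⟨_, C_of_seq (fun n => 2 * n) (fun n => by omega) 1 (fun n => ?_)⟩
    unfold sg
    rw [if_pos]
    simp
  have hcont : Continuous (fun q : Ultrafilter (ℕ →₀ ℕ) => q + b) :=
    Ultrafilter.continuous_add_left b
  obtain ⟨f, ⟨a', ha', hf⟩, hff⟩ := exists_idempotent_in_compact_add_subsemigroup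
    (M := Ultrafilter (ℕ →₀ ℕ)) Ultrafilter.continuous_add_left ((fun q => q + b) '' C 1)
    (hne.image _) ((C_closed 1).isCompact.image hcont) (by
      rintro _ ⟨x, hx, rfl⟩ _ ⟨y, hy, rfl⟩
      refine ⟨x + b + y, ?_, ?_⟩
      · have := C_add (C_add hx hb) hy
        norm_num at this
        exact this
      · simp only [add_assoc])
  simp only at hf
  refine ⟨f + a', b, ?_, hb, hb1, ?_⟩
  · rw [← hf]
    have := C_add (C_add ha' hb) ha'
    norm_num at this
    exact this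
  · calc f + a' + b + (f + a') = f + (a' + b) + (f + a') := by simp only [add_assoc]
      _ = f + f + f + a' := by rw [hf]; simp only [add_assoc]
      _ = f + a' := by rw [hff, hff]

/-- Multiplication of an ultrafilter by a natural number. -/
noncomputable def sc (k : ℕ) (q : Ultrafilter (ℕ →₀ ℕ)) : Ultrafilter (ℕ →₀ ℕ) :=
  q.map (fun y => k • y)

theorem eventually_sc (k : ℕ) (q : Ultrafilter (ℕ →₀ ℕ)) (p : (ℕ →₀ ℕ) → Prop) :
    (∀ᶠ y in sc k q, p y) ↔ ∀ᶠ y in q, p (k • y) := Iff.rfl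

theorem sc_add (k : ℕ) (q r : Ultrafilter (ℕ →₀ ℕ)) : sc k (q + r) = sc k q + sc k r := by
  refine Ultrafilter.coe_injective (Filter.ext' fun p => ?_)
  simp only [eventually_sc, Ultrafilter.eventually_add, smul_add]

theorem sc_sc (j k : ℕ) (q : Ultrafilter (ℕ →₀ ℕ)) : sc j (sc k q) = sc (j * k) q := by
  refine Ultrafilter.coe_injective (Filter.ext' fun p => ?_)
  simp only [eventually_sc, smul_smul]

theorem sc_two_two (q : Ultrafilter (ℕ →₀ ℕ)) : sc 2 (sc 2 q) = sc 4 q := by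
  have h := sc_sc 2 2 q
  have e : (2 : ℕ) * 2 = 4 := by norm_num
  rw [e] at h
  exact h

/-- Extraction of a sequence. -/
theorem extract (w : ℕ →₀ ℕ) (V : Ultrafilter (ℕ →₀ ℕ)) (D : Set (ℕ →₀ ℕ))
    (h1 : ∀ᶠ v in V, w + v ∈ D) (h2 : ∀ᶠ v in V, ∀ᶠ v' in V, 2 • w + (v + v') ∈ D)
    (h3 : ∀ N, ∀ᶠ v in V, N < val v) :
    ∃ u : ℕ → (ℕ →₀ ℕ), StrictMono (fun n => val (u n)) ∧ (∀ n, u n ∈ D) ∧
      ∀ i j, i < j → u i + u j ∈ D := by
  obtain ⟨f, hf1, hf2⟩ := exists_seq_of_forall_finset_exists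
    (fun v : ℕ →₀ ℕ => w + v ∈ D ∧ ∀ᶠ v' in V, 2 • w + (v + v') ∈ D)
    (fun v v' => 2 • w + (v + v') ∈ D ∧ val v < val v') (by
      intro s hs
      have e1 : ∀ᶠ v' in V, ∀ v ∈ s, 2 • w + (v + v') ∈ D := by
        rw [eventually_all_finset]
        intro v hv
        exact (hs v hv).2
      have e2 : ∀ᶠ v' in V, ∀ v ∈ s, val v < val v' := by
        rw [eventually_all_finset]
        intro v hv
        exact h3 (val v)
      obtain ⟨v', hv1, hv2, hv3, hv4⟩ := (h1.and (h2.and (e1.and e2))).exists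
      exact ⟨v', ⟨hv1, hv2⟩, fun v hv => ⟨hv3 v hv, hv4 v hv⟩⟩)
  refine ⟨fun n => w + f n, ?_, fun n => (hf1 n).1, ?_⟩
  · intro i j hij
    simp only [val_add]
    have := (hf2 i j hij).2
    omega
  · intro i j hij
    have := (hf2 i j hij).1
    convert this using 1
    rw [two_smul, add_add_add_comm]

theorem extract' (W V : Ultrafilter (ℕ →₀ ℕ)) (D : Set (ℕ →₀ ℕ))
    (h1 : D ∈ W + V) (h2 : D ∈ sc 2 W + (V + V))
    (h3 : ∀ N, ∀ᶠ v in V, N < val v) :
    ∃ u : ℕ → (ℕ →₀ ℕ), StrictMono (fun n => val (u n)) ∧ (∀ n, u n ∈ D) ∧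
      ∀ i j, i < j → u i + u j ∈ D := by
  have h1' : ∀ᶠ x in (W + V : Ultrafilter _), x ∈ D := h1
  have h2' : ∀ᶠ x in (sc 2 W + (V + V) : Ultrafilter _), x ∈ D := h2
  rw [Ultrafilter.eventually_add] at h1' h2'
  rw [eventually_sc] at h2'
  obtain ⟨w, hw1, hw2⟩ := (h1'.and h2').exists
  rw [Ultrafilter.eventually_add] at hw2
  exact extract w V D hw1 hw2 h3

theorem val_ge (y : ℕ →₀ ℕ) (N : ℕ) (h0 : y ≠ 0) (h : ∀ i < N, y i = 0) : N < val y := by
  obtain ⟨i, hi⟩ := Finsupp.ne_iff.mp h0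
  have hi' : y i ≠ 0 := by simpa using hi
  have hN : N ≤ i := by
    by_contra hc
    exact hi' (h i (not_le.mp hc))
  have h1 : y i * 32 ^ i ≤ val y := by
    unfold val Finsupp.sum
    exact single_le_sum (f := fun i => y i * 32 ^ i) (fun _ _ => Nat.zero_le _)
      (Finsupp.mem_support_iff.mpr hi')
  have h2 : i < 32 ^ i := Nat.lt_pow_self (by norm_num)
  have h3 : 1 * 32 ^ i ≤ y i * 32 ^ i := Nat.mul_le_mul_right _ (Nat.pos_of_ne_zero hi')
  omega

theorem val_big_of_C {k : ℤ} {q : Ultrafilter (ℕ →₀ ℕ)} (hq : q ∈ C k) (c : ℕ) (hc : 0 < c)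
    (N : ℕ) : ∀ᶠ v in sc c q, N < val v := by
  rw [eventually_sc]
  filter_upwards [hq N] with y hy
  obtain ⟨_, h2, h3, _⟩ := hy
  refine val_ge _ N ?_ ?_
  · intro h
    apply h2
    ext i
    have := DFunLike.congr_fun h i
    simp only [Finsupp.coe_smul, Pi.smul_apply, smul_eq_mul, Finsupp.coe_zero,
      Pi.zero_apply, mul_eq_zero] at this
    simp only [Finsupp.coe_zero, Pi.zero_apply]
    omega
  · intro i hi
    simp [h3 i hi]

theorem val_big_add {q r : Ultrafilter (ℕ →₀ ℕ)} (hr : ∀ N, ∀ᶠ v in r, N < val v) (N : ℕ) :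
    ∀ᶠ v in (q + r : Ultrafilter _), N < val v := by
  rw [Ultrafilter.eventually_add]
  refine Eventually.of_forall (fun x => ?_)
  filter_upwards [hr N] with y hy
  rw [val_add]
  omega

end Pool.Agent.MP_abb0cc_co
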