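import Mathlib
import Pool.Agent.Lib.MP_abb0cc_co.Ultra

/-!
The three ultrafilters `P`, `Q`, `R`, and the sequences joining any two of them.
-/

set_option autoImplicit false

namespace Pool.Agent.MP_abb0cc_co

open Filter Finset

attribute [local instance] Ultrafilter.add Ultrafilter.addSemigroup

theorem mem_P {a b : Ultrafilter (ℕ →₀ ℕ)} (ha : a ∈ C 1)
    (hb : b ∈ C (-1)) (hb1 : ∀ᶠ y : ℕ →₀ ℕ in b, ∃ i, y = Finsupp.single i 1) :
    ∀ᶠ x : ℕ →₀ ℕ in (sc 2 b + a + a + (sc 2 b + sc 2 a) : Ultrafilter (ℕ →₀ ℕ)), PP x := by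
  simp only [Ultrafilter.eventually_add, eventually_sc]
  filter_upwards [hb 0, hb1] with w1 hw1 hs1
  obtain ⟨i, rfl⟩ := hs1
  filter_upwards [ha (i + 1)] with y1 hy1
  obtain ⟨n1, hn1⟩ := exists_bound y1
  filter_upwards [ha (max n1 (i + 1))] with y2 hy2
  obtain ⟨n2, hn2⟩ := exists_bound y2
  filter_upwards [hb (max n2 (max n1 (i + 1))), hb1] with w2 hw2 hs2
  obtain ⟨j, rfl⟩ := hs2
  have hj : max n2 (max n1 (i + 1)) ≤ j := by
    by_contra hc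
    have := hw2.2.2.1 j (not_le.mp hc)
    simp at this
  filter_upwards [ha (j + 1)] with y3 hy3
  refine ⟨y1 + y2, Finsupp.single i 1 + (Finsupp.single j 1 + y3), ?_, ?_, ?_, i, ?_, ?_, ?_⟩
  · rw [smul_add, smul_add]
    abel
  · intro k
    simp only [Finsupp.coe_add, Pi.add_apply]
    have a1 := hy1.1 k
    have a2 := hy1.2.2.1 k
    have a3 := hn1 k
    have b1 := hy2.1 k
    have b2 := hy2.2.2.1 k
    have b3 := hn2 k
    have c1 := hy3.1 k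
    have c2 := hy3.2.2.1 k
    simp only [Finsupp.single_apply]
    split_ifs <;> omega
  · rw [m_add, hy1.2.2.2, hy2.2.2.2]
    norm_num
  · have c2 := hy3.2.2.1 i (by omega)
    have : j ≠ i := by omega
    simp only [Finsupp.coe_add, Pi.add_apply, Finsupp.single_apply, c2, if_neg this]
    simp
  · intro k hk
    have a2 := hy1.2.2.1 k (by omega)
    have b2 := hy2.2.2.1 k (by omega)
    have c2 := hy3.2.2.1 k (by omega)
    have e1 : i ≠ k := by omega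
    have e2 : j ≠ k := by omega
    simp only [Finsupp.coe_add, Pi.add_apply, Finsupp.single_apply, a2, b2, c2, if_neg e1,
      if_neg e2]
    simp
  · intro k l hk hl hne
    simp only [Finsupp.coe_add, Pi.add_apply, Finsupp.single_apply] at hk hl
    have a1 := hn1 k
    have b1 := hn2 k
    have c2 := hy3.2.2.1 l
    have e1 : i ≠ l := fun h => hne h.symm
    rw [if_neg e1] at hl
    by_cases hjl : j = l
    · omega
    · rw [if_neg hjl] at hl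
      omega

theorem mem_Q {a b : Ultrafilter (ℕ →₀ ℕ)} (ha : a ∈ C 1)
    (hb1 : ∀ᶠ y : ℕ →₀ ℕ in b, ∃ i, y = Finsupp.single i 1) :
    ∀ᶠ x : ℕ →₀ ℕ in (sc 4 b + (sc 2 a + sc 2 a) : Ultrafilter (ℕ →₀ ℕ)), QQ x := by
  simp only [Ultrafilter.eventually_add, eventually_sc]
  filter_upwards [hb1] with w1 hs1
  obtain ⟨i, rfl⟩ := hs1
  filter_upwards [ha (i + 1)] with y1 hy1
  obtain ⟨n1, hn1⟩ := exists_bound y1
  filter_upwards [ha (max n1 (i + 1))] with y2 hy2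
  refine ⟨i, ?_, ?_⟩
  · have a2 := hy1.2.2.1 i (by omega)
    have b2 := hy2.2.2.1 i (by omega)
    simp [a2, b2]
  · intro k hk
    have a1 := hy1.1 k
    have a3 := hn1 k
    have b1 := hy2.1 k
    have b2 := hy2.2.2.1 k
    have e : i ≠ k := fun h => hk h.symm
    simp only [Finsupp.coe_add, Pi.add_apply, Finsupp.coe_smul, Pi.smul_apply, smul_eq_mul,
      Finsupp.single_apply, if_neg e]
    omega

theorem mem_R {a b : Ultrafilter (ℕ →₀ ℕ)} (ha : a ∈ C 1)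
    (hb : b ∈ C (-1)) (hb1 : ∀ᶠ y : ℕ →₀ ℕ in b, ∃ i, y = Finsupp.single i 1) :
    ∀ᶠ x : ℕ →₀ ℕ in (sc 4 b + (sc 2 a + sc 2 a) + (sc 4 b + (sc 2 a + sc 2 a)) :
      Ultrafilter (ℕ →₀ ℕ)), RR x := by
  simp only [Ultrafilter.eventually_add, eventually_sc]
  filter_upwards [hb1] with w1 hs1
  obtain ⟨i, rfl⟩ := hs1
  filter_upwards [ha (i + 1)] with y1 hy1
  obtain ⟨n1, hn1⟩ := exists_bound y1
  filter_upwards [ha (max n1 (i + 1))] with y2 hy2
  obtain ⟨n2, hn2⟩ := exists_bound y2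
  filter_upwards [hb (max n2 (max n1 (i + 1))), hb1] with w2 hw2 hs2
  obtain ⟨j, rfl⟩ := hs2
  have hj : max n2 (max n1 (i + 1)) ≤ j := by
    by_contra hc
    have := hw2.2.2.1 j (not_le.mp hc)
    simp at this
  filter_upwards [ha (j + 1)] with y3 hy3
  obtain ⟨n3, hn3⟩ := exists_bound y3
  filter_upwards [ha (max n3 (j + 1))] with y4 hy4
  have hij : i ≠ j := by omega
  refine ⟨i, j, hij, ?_, ?_, ?_⟩
  · have a2 := hy1.2.2.1 i (by omega)
    have b2 := hy2.2.2.1 i (by omega)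
    have c2 := hy3.2.2.1 i (by omega)
    have d2 := hy4.2.2.1 i (by omega)
    simp [a2, b2, c2, d2, hij.symm]
  · have a2 := hn1 j (by omega)
    have b2 := hn2 j (by omega)
    have c2 := hy3.2.2.1 j (by omega)
    have d2 := hy4.2.2.1 j (by omega)
    simp [a2, b2, c2, d2, hij]
  · intro k hki hkj
    have a1 := hy1.1 k
    have a3 := hn1 k
    have b1 := hy2.1 k
    have b2 := hy2.2.2.1 k
    have b3 := hn2 k
    have c1 := hy3.1 k
    have c2 := hy3.2.2.1 k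
    have c3 := hn3 k
    have d1 := hy4.1 k
    have d2 := hy4.2.2.1 k
    have e : i ≠ k := fun h => hki h.symm
    have e' : j ≠ k := fun h => hkj h.symm
    simp only [Finsupp.coe_add, Pi.add_apply, Finsupp.coe_smul, Pi.smul_apply, smul_eq_mul,
      Finsupp.single_apply, if_neg e, if_neg e']
    omega

theorem edge_PQ {a b : Ultrafilter (ℕ →₀ ℕ)} (hab : sc 2 a + sc 2 b + sc 2 a = sc 2 a)
    (bigA : ∀ N, ∀ᶠ v in sc 2 a, N < val v) (D : Set (ℕ →₀ ℕ))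
    (hD1 : D ∈ sc 2 b + a + a + (sc 2 b + sc 2 a)) (hD2 : D ∈ sc 4 b + (sc 2 a + sc 2 a)) :
    ∃ u : ℕ → (ℕ →₀ ℕ), StrictMono (fun n => val (u n)) ∧ (∀ n, u n ∈ D) ∧
      ∀ i j, i < j → u i + u j ∈ D := by
  refine extract' (sc 2 b + a + a) (sc 2 b + sc 2 a) D hD1 ?_ (val_big_add bigA)
  have e1 : sc 2 (sc 2 b + a + a) + (sc 2 b + sc 2 a + (sc 2 b + sc 2 a))
      = sc 4 b + (sc 2 a + sc 2 a) := by
    rw [sc_add, sc_add, sc_two_two]
    calc sc 4 b + sc 2 a + sc 2 a + (sc 2 b + sc 2 a + (sc 2 b + sc 2 a))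
        = sc 4 b + (sc 2 a + (sc 2 a + sc 2 b + sc 2 a + sc 2 b + sc 2 a)) := by
          simp only [add_assoc]
      _ = sc 4 b + (sc 2 a + sc 2 a) := by rw [hab, hab]
  rw [e1]
  exact hD2

theorem edge_PR {a b : Ultrafilter (ℕ →₀ ℕ)}
    (bigA : ∀ N, ∀ᶠ v in sc 2 a, N < val v) (D : Set (ℕ →₀ ℕ))
    (hD1 : D ∈ sc 2 b + a + a + (sc 2 b + sc 2 a))
    (hD2 : D ∈ sc 4 b + (sc 2 a + sc 2 a) + (sc 4 b + (sc 2 a + sc 2 a))) :
    ∃ u : ℕ → (ℕ →₀ ℕ), StrictMono (fun n => val (u n)) ∧ (∀ n, u n ∈ D) ∧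
      ∀ i j, i < j → u i + u j ∈ D := by
  refine extract' (sc 2 b + a + a + sc 2 b) (sc 2 a) D ?_ ?_ bigA
  · rw [add_assoc (sc 2 b + a + a) (sc 2 b) (sc 2 a)]
    exact hD1
  · have e1 : sc 2 (sc 2 b + a + a + sc 2 b) + (sc 2 a + sc 2 a)
        = sc 4 b + (sc 2 a + sc 2 a) + (sc 4 b + (sc 2 a + sc 2 a)) := by
      rw [sc_add, sc_add, sc_add, sc_two_two]
      simp only [add_assoc]
    rw [e1]
    exact hD2

theorem edge_QR {a b : Ultrafilter (ℕ →₀ ℕ)}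
    (bigA : ∀ N, ∀ᶠ v in sc 2 a, N < val v) (D : Set (ℕ →₀ ℕ))
    (hD1 : D ∈ sc 4 b + (sc 2 a + sc 2 a))
    (hD2 : D ∈ sc 4 b + (sc 2 a + sc 2 a) + (sc 4 b + (sc 2 a + sc 2 a))) :
    ∃ u : ℕ → (ℕ →₀ ℕ), StrictMono (fun n => val (u n)) ∧ (∀ n, u n ∈ D) ∧
      ∀ i j, i < j → u i + u j ∈ D := by
  have h1 : ∀ᶠ x in (sc 4 b + (sc 2 a + sc 2 a) : Ultrafilter _), x ∈ D := hD1
  have h2 : ∀ᶠ x in (sc 4 b + (sc 2 a + sc 2 a) + (sc 4 b + (sc 2 a + sc 2 a)) :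
    Ultrafilter _), x ∈ D := hD2
  rw [Ultrafilter.eventually_add] at h2
  refine extract 0 (sc 4 b + (sc 2 a + sc 2 a)) D ?_ ?_ (val_big_add (val_big_add bigA))
  · simp only [zero_add]
    exact h1
  · simp only [smul_zero, zero_add]
    exact h2

/-- Three ultrafilters, containing `XX`, such that any set lying in two of them contains an
infinite sequence together with all its sums of two distinct terms. -/
theorem exists_triangle : ∃ P Q R : Ultrafilter (ℕ →₀ ℕ),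
    ({x | XX x} ∈ P ∧ {x | XX x} ∈ Q ∧ {x | XX x} ∈ R) ∧
    ∀ D : Set (ℕ →₀ ℕ), (D ∈ P ∧ D ∈ Q) ∨ (D ∈ P ∧ D ∈ R) ∨ (D ∈ Q ∧ D ∈ R) →
      ∃ u : ℕ → (ℕ →₀ ℕ), StrictMono (fun n => val (u n)) ∧ (∀ n, u n ∈ D) ∧
        ∀ i j, i < j → u i + u j ∈ D := by
  obtain ⟨a, b, ha, hb, hb1, hab⟩ := exists_pair
  have h2 : sc 2 a + sc 2 b + sc 2 a = sc 2 a := by
    rw [← sc_add, ← sc_add, hab]
  have bigA : ∀ N, ∀ᶠ v in sc 2 a, N < val v := val_big_of_C ha 2 (by norm_num)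
  refine ⟨sc 2 b + a + a + (sc 2 b + sc 2 a), sc 4 b + (sc 2 a + sc 2 a),
    sc 4 b + (sc 2 a + sc 2 a) + (sc 4 b + (sc 2 a + sc 2 a)), ⟨?_, ?_, ?_⟩, ?_⟩
  · exact (mem_P ha hb hb1).mono (fun x hx => Or.inl hx)
  · exact (mem_Q ha hb1).mono (fun x hx => Or.inr (Or.inl hx))
  · exact (mem_R ha hb hb1).mono (fun x hx => Or.inr (Or.inr hx))
  · rintro D (⟨h, h'⟩ | ⟨h, h'⟩ | ⟨h, h'⟩)
    · exact edge_PQ h2 bigA D h h'
    · exact edge_PR bigA D h h'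
    · exact edge_QR bigA D h h'

end Pool.Agent.MP_abb0cc_co
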